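import Pool.Agent.helper82.LV.Hier

/-!
The hierarchy `Lev A` satisfies the usual recursion of the constructible hierarchy.
-/

set_option autoImplicit false

universe u

namespace Pool.Agent.helper82.LV

open ZFSet Order

variable {A : ZFSet.{u}}

theorem Lev_zero : Lev A 0 = ∅ := by
  ext X
  rw [mem_Lev]
  constructor
  · rintro ⟨β, hβ, _⟩
    exact absurd hβ (not_lt_of_ge zero_le)
  · intro h
    exact absurd h (ZFSet.notMem_empty X)

/-- Members of a level are definable over it, with themselves as parameters. -/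
theorem defOver_of_mem {α : Ordinal.{u}} {X : ZFSet.{u}} (h : X ∈ Lev A α) :
    DefOver A (Lev A α) X := by
  rw [defOver_iff]
  refine ⟨fun z hz => Lev_trans A α h hz, 1,
    .rel (l := 2) SRel.mem ![.var (.inr 1), .var (.inr 0)], fun _ => X, fun _ => h,
    fun z _ => ?_⟩
  exact Iff.rfl

theorem Lev_succ (α : Ordinal.{u}) : Lev A (succ α) = DefSet A (Lev A α) := by
  ext X
  rw [mem_Lev, mem_DefSet]
  constructor
  · rintro ⟨β, hβ, h⟩
    rcases (lt_succ_iff.1 hβ).eq_or_lt with h1 | h1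
    · rw [h1] at h
      exact h
    · exact defOver_of_mem (mem_Lev.2 ⟨β, h1, h⟩)
  · intro h
    exact ⟨α, lt_succ α, h⟩

theorem mem_Lev_limit {α : Ordinal.{u}} (hα : IsSuccLimit α) {X : ZFSet.{u}} :
    X ∈ Lev A α ↔ ∃ β < α, X ∈ Lev A β := by
  constructor
  · intro h
    obtain ⟨β, hβ, h1⟩ := mem_Lev.1 h
    exact ⟨succ β, hα.succ_lt hβ, mem_Lev.2 ⟨β, lt_succ β, h1⟩⟩
  · rintro ⟨β, hβ, h⟩
    exact Lev_mono hβ.le h

end Pool.Agent.helper82.LV
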