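import Pool.Agent.helper82.LV.Good

/-!
The set of good codes is closed.
-/

set_option autoImplicit false

universe u v w

namespace Pool.Agent.helper82.LV

open FirstOrder ZFSet Nm Order Cardinal

variable {K : Type u} [LinearOrder K] [RegK K] [WellFoundedLT K]

attribute [local irreducible] dec

theorem closed_good (r : K → K) : LClosed (fun p : Om K => Good r p.1 (dec p.2)) := by
  simp only [good_iff]
  repeat' first
    | apply LClosed.and
    | (refine LClosed.all fun _ => ?_)
    | apply Loc.closed
    | exact Loc.const _
    | apply Loc.not
    | apply Loc.and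
    | apply Loc.or
    | apply Loc.iff
    | apply Loc.dlt
    | apply Loc.dm
    | apply Loc.dq
    | apply Loc.da
    | apply Loc.dwf
    | apply Loc.dltN
    | apply Loc.wit
    | apply Loc.hd
    | apply Loc.dw
    | apply Loc.dv
    | apply Loc.dd
    | apply Loc.dg
    | apply Loc.daw
    | apply Loc.dnu
    | apply Loc.dw1
    | apply Loc.dw2
    | apply Loc.dw0
    | apply Loc.mapg
    | apply Loc.prn
    | apply Loc.fstv
    | (refine Loc.allFin fun _ => ?_)
    | (refine Loc.allNat fun _ => ?_)
    | (refine Loc.allLt fun _ => ?_)
    | (refine Loc.exLt fun _ => ?_)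
    | apply Loc.lt'
    | apply Loc.le'
    | apply Loc.imp
    | apply Loc.eq
  exact (Loc.daw (Loc.const _)).comp r

end Pool.Agent.helper82.LV
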