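import Pool.Agent.helper82.LV.Loc

/-!
Codes for the hull of a function.
-/

set_option autoImplicit false

universe u v w

namespace Pool.Agent.helper82.LV

open FirstOrder ZFSet Nm Order Cardinal

/-- Codes. -/
@[ext] structure Cd (K : Type u) : Type u where
  /-- the order -/
  lt : K → K → Prop
  /-- membership -/
  m : Nm K → Nm K → Prop
  /-- equality -/
  q : Nm K → Nm K → Prop
  /-- the predicate -/
  a : Nm K → Prop
  /-- least members -/
  w : Nm K → Nm K
  /-- witnesses for membership -/
  v : Nm K → Nm K → Nm K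
  /-- witnesses for difference -/
  d : Nm K → Nm K → Nm K
  /-- the initial segment -/
  g : K → K
  /-- witnesses for the predicate -/
  aw : Nm K → K
  /-- the least name -/
  nu : Nm K
  /-- witnesses for non-domination -/
  w1 : K → K
  /-- witnesses for non-domination -/
  w2 : K → K
  /-- witnesses for domination -/
  w0 : Nm K → K
  /-- an auxiliary function -/
  f : K → K

section dec

variable {K : Type u} [LinearOrder K]

/-- The name with a single level. -/
def io (i : K) : Nm K := .mk i 0 .falsum Fin.elim0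

omit [LinearOrder K] in
@[simp] theorem head_io (i : K) : (io i).head = i := rfl

variable (K) [RegK K]

theorem exists_E : ∃ f : ℕ × Nm K × Nm K → K, Function.Injective f := by
  have h : #(ℕ × Nm K × Nm K) ≤ #K := by
    have h1 : #(Nm K) ≤ #K := card_le.trans (max_le le_rfl RegK.unc.le)
    rw [mk_prod, mk_prod, mk_nat, lift_aleph0, lift_id, lift_uzero]
    refine (mul_le_mul' RegK.unc.le ((mul_le_mul' h1 h1).trans
      (mul_eq_self RegK.unc.le).le)).trans (mul_eq_self RegK.unc.le).le
  obtain ⟨g⟩ := h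
  exact ⟨g, g.injective⟩

theorem exists_D : ∃ f : K → Nm K, Function.Surjective f := by
  have h1 : #(Nm K) ≤ #K := card_le.trans (max_le le_rfl RegK.unc.le)
  obtain ⟨g⟩ := h1
  obtain ⟨k⟩ : Nonempty K := RegK.nonempty
  have : Nonempty (Nm K) := ⟨io k⟩
  exact ⟨Function.invFun g, Function.invFun_surjective g.injective⟩

/-- The coordinates. -/
noncomputable def eE : ℕ × Nm K × Nm K → K := (exists_E K).choose

/-- The values. -/
noncomputable def eD : K → Nm K := (exists_D K).choose

theorem eE_inj : Function.Injective (eE K) := (exists_E K).choose_spec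

theorem eD_surj : Function.Surjective (eD K) := (exists_D K).choose_spec

theorem exists_two : ∃ p : K × K, p.1 ≠ p.2 := by
  obtain ⟨k⟩ : Nonempty K := RegK.nonempty
  obtain ⟨l, hl⟩ := exists_gt' k
  exact ⟨(k, l), hl.ne⟩

/-- Two elements. -/
noncomputable def two : K × K := (exists_two K).choose

theorem two_ne : (two K).1 ≠ (two K).2 := (exists_two K).choose_spec

variable {K}

/-- The value at a coordinate. -/
noncomputable def cc (y : K → K) (n : ℕ) (μ ν : Nm K) : Nm K := eD K (y (eE K (n, μ, ν)))

/-- Decoding. -/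
noncomputable def dec (y : K → K) : Cd K where
  lt i j := (cc y 0 (io i) (io j)).head = (two K).1
  m μ ν := (cc y 1 μ ν).head = (two K).1
  q μ ν := (cc y 2 μ ν).head = (two K).1
  a ν := (cc y 3 ν ν).head = (two K).1
  w ν := cc y 4 ν ν
  v μ ν := cc y 5 μ ν
  d μ ν := cc y 6 μ ν
  g i := (cc y 7 (io i) (io i)).head
  aw ν := (cc y 8 ν ν).head
  nu := cc y 9 (io (two K).1) (io (two K).1)
  w1 i := (cc y 10 (io i) (io i)).head
  w2 i := (cc y 11 (io i) (io i)).head
  w0 ν := (cc y 12 ν ν).head
  f i := (cc y 13 (io i) (io i)).head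

open Classical in
/-- Encoding of truth values. -/
noncomputable def en (P : Prop) : Nm K := if P then io (two K).1 else io (two K).2

theorem en_iff {P : Prop} : (en (K := K) P).head = (two K).1 ↔ P := by
  unfold en
  by_cases h : P
  · simp [h]
  · simp only [h, if_false, head_io, iff_false]
    exact (two_ne K).symm

/-- The values of a code. -/
noncomputable def cval (c : Cd K) : ℕ → Nm K → Nm K → Nm K
  | 0, μ, ν => en (c.lt μ.head ν.head)
  | 1, μ, ν => en (c.m μ ν)
  | 2, μ, ν => en (c.q μ ν)
  | 3, μ, _ => en (c.a μ)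
  | 4, μ, _ => c.w μ
  | 5, μ, ν => c.v μ ν
  | 6, μ, ν => c.d μ ν
  | 7, μ, _ => io (c.g μ.head)
  | 8, μ, _ => io (c.aw μ)
  | 9, _, _ => c.nu
  | 10, μ, _ => io (c.w1 μ.head)
  | 11, μ, _ => io (c.w2 μ.head)
  | 12, μ, _ => io (c.w0 μ)
  | 13, μ, _ => io (c.f μ.head)
  | _, μ, _ => μ

theorem exists_cc (φ : ℕ → Nm K → Nm K → Nm K) : ∃ y : K → K, ∀ n μ ν, cc y n μ ν = φ n μ ν := by
  classical
  choose inv hinv using eD_surj K
  have hne : Nonempty K := RegK.nonempty
  have hne2 : Nonempty (ℕ × Nm K × Nm K) := ⟨⟨0, io hne.some, io hne.some⟩⟩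
  refine ⟨fun k => inv (φ (Function.invFun (eE K) k).1 (Function.invFun (eE K) k).2.1
    (Function.invFun (eE K) k).2.2), fun n μ ν => ?_⟩
  unfold cc
  rw [hinv, Function.leftInverse_invFun (eE_inj K)]

theorem exists_dec (c : Cd K) : ∃ y : K → K, dec y = c := by
  obtain ⟨y, hy⟩ := exists_cc (cval c)
  refine ⟨y, ?_⟩
  ext <;> simp only [dec, hy, cval, head_io, en_iff]

end dec

end Pool.Agent.helper82.LV
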