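import Pool.Agent.helper82.LV.Ords

/-!
Canonical members, closed sets of levels and condensation.
-/

set_option autoImplicit false

universe u v w

namespace Pool.Agent.helper82.LV

open FirstOrder ZFSet Nm Order

variable {A : ZFSet.{u}}

/-- `μ` is a well-formed name of lower level of a member of the set named by `ν`. -/
def MemN (A : ZFSet.{u}) (ν μ : Nm Ordinal.{u}) : Prop :=
  Wf μ ∧ μ.head < ν.head ∧ F A μ ∈ F A ν

theorem exists_memN {ν : Nm Ordinal.{u}} {z : ZFSet.{u}} (hz : z ∈ F A ν) :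
    ∃ μ, MemN A ν μ ∧ F A μ = z := by
  obtain ⟨μ, h1, h2, h3⟩ := exists_name _ (F_subset ν hz)
  exact ⟨μ, ⟨h1, h2, by rw [h3]; exact hz⟩, h3⟩

open Classical in
/-- The least name of a member. -/
noncomputable def wst (A : ZFSet.{u}) (ν : Nm Ordinal.{u}) : Nm Ordinal.{u} :=
  if h : ∃ μ, MemN A ν μ then
    (ltN_wf (wellFounded_lt (α := Ordinal.{u}))).min {μ | MemN A ν μ} h else ν

theorem wst_mem {ν : Nm Ordinal.{u}} (h : ∃ μ, MemN A ν μ) : MemN A ν (wst A ν) := by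
  unfold wst
  rw [dif_pos h]
  exact WellFounded.min_mem _ {μ | MemN A ν μ} h

theorem wst_min {ν μ : Nm Ordinal.{u}} (h : MemN A ν μ) : ¬ ltN (· < ·) μ (wst A ν) := by
  unfold wst
  rw [dif_pos ⟨μ, h⟩]
  exact WellFounded.not_lt_min _ (s := {μ | MemN A ν μ}) h

theorem ord_trich (a b : Ordinal.{u}) : a < b ∨ a = b ∨ b < a := lt_trichotomy a b

theorem wst_eq {ν μ : Nm Ordinal.{u}} (h : MemN A ν μ)
    (hmin : ∀ μ', MemN A ν μ' → ¬ ltN (· < ·) μ' μ) : μ = wst A ν := by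
  rcases ltN_trich (lt := fun a b : Ordinal.{u} => a < b) ord_trich μ (wst A ν) with h1 | h1 | h1
  · exact absurd h1 (wst_min h)
  · exact h1
  · exact absurd h1 (hmin _ (wst_mem ⟨μ, h⟩))

/-- Well-formed names with levels in `J`. -/
def NJ (J : Set Ordinal.{u}) (ν : Nm Ordinal.{u}) : Prop := Wf ν ∧ ν.All (· ∈ J)

theorem NJ.head_mem {J : Set Ordinal.{u}} {ν : Nm Ordinal.{u}} (h : NJ J ν) : ν.head ∈ J := by
  cases ν; exact h.2.1

/-- Closure of a set of levels under canonical members. -/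
def ClJ (A : ZFSet.{u}) (J : Set Ordinal.{u}) : Prop :=
  ∀ ν, NJ J ν → (∃ μ, MemN A ν μ) → (wst A ν).All (· ∈ J)

theorem ClJ.wst {J : Set Ordinal.{u}} (hJ : ClJ A J) {ν : Nm Ordinal.{u}} (h : NJ J ν)
    {z : ZFSet.{u}} (hz : z ∈ F A ν) :
    NJ J (wst A ν) ∧ (wst A ν).head < ν.head ∧ F A (wst A ν) ∈ F A ν := by
  obtain ⟨μ, h1, _⟩ := exists_memN hz
  have h2 := wst_mem ⟨μ, h1⟩
  exact ⟨⟨h2.1, hJ ν h ⟨μ, h1⟩⟩, h2.2.1, h2.2.2⟩

/-! ### Combining definitions -/

theorem NJ.mk {J : Set Ordinal.{u}} {b : Ordinal.{u}} (hb : b ∈ J) {n : ℕ} {φ : BF (n + 1)}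
    {ps : Fin n → Nm Ordinal.{u}} (h : ∀ i, NJ J (ps i) ∧ (ps i).head < b) :
    NJ J (.mk b n φ ps) :=
  ⟨fun i => ⟨(h i).2, (h i).1.1⟩, hb, fun i => (h i).1.2⟩

/-- Renaming of the first group of parameters. -/
def r1 (k l : ℕ) : Fin (k + 1) → Fin (k + l + 1) :=
  snc (fun i => (Fin.castAdd l i).castSucc) (Fin.last (k + l))

/-- Renaming of the second group of parameters. -/
def r2 (k l : ℕ) : Fin (l + 1) → Fin (k + l + 1) :=
  snc (fun i => (Fin.natAdd k i).castSucc) (Fin.last (k + l))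

/-- Renaming of the first group of parameters under one more quantifier. -/
def r3 (k l : ℕ) : Fin (k + 1) → Fin (k + l + 1 + 1) :=
  snc (fun i => (Fin.castAdd l i).castSucc.castSucc) (Fin.last (k + l + 1))

theorem comp_r1 {X : Type v} {k l : ℕ} (p : Fin k → X) (q : Fin l → X) (z : X) :
    (fun i => snc (Fin.append p q) z (r1 k l i)) = snc p z := by
  funext i
  refine Fin.lastCases ?_ (fun j => ?_) i
  · simp [snc, r1]
  · simp [snc, r1]

theorem comp_r2 {X : Type v} {k l : ℕ} (p : Fin k → X) (q : Fin l → X) (z : X) :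
    (fun i => snc (Fin.append p q) z (r2 k l i)) = snc q z := by
  funext i
  refine Fin.lastCases ?_ (fun j => ?_) i
  · simp [snc, r2]
  · simp only [snc, r2, Fin.snoc_castSucc, Fin.append_right]

theorem comp_r3 {X : Type v} {k l : ℕ} (p : Fin k → X) (q : Fin l → X) (z x : X) :
    (fun i => snc (snc (Fin.append p q) z) x (r3 k l i)) = snc p x := by
  funext i
  refine Fin.lastCases ?_ (fun j => ?_) i
  · simp [snc, r3]
  · simp [snc, r3]

theorem append_comp {X : Type v} {Y : Type w} {k l : ℕ} (f : X → Y) (p : Fin k → X)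
    (q : Fin l → X) : (fun i => f (Fin.append p q i)) =
      Fin.append (fun i => f (p i)) (fun i => f (q i)) := by
  funext i
  refine Fin.addCases (fun j => ?_) (fun j => ?_) i
  · simp
  · simp

/-- A description, at level `b` and with parameters named in `J`, of the set `Z ∩ L_b`. -/
def Dsc (A : ZFSet.{u}) (J : Set Ordinal.{u}) (b : Ordinal.{u}) (Z : ZFSet.{u}) : Prop :=
  ∃ (n : ℕ) (φ : BF (n + 1)) (ps : Fin n → Nm Ordinal.{u}),
    (∀ i, NJ J (ps i) ∧ (ps i).head < b) ∧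
    ∀ z ∈ Lev A b, (Sat A (Lev A b) φ (snc (fun i => F A (ps i)) z) ↔ z ∈ Z)

theorem dsc_of_name {J : Set Ordinal.{u}} {b : Ordinal.{u}} {ν : Nm Ordinal.{u}}
    (h : NJ J ν) (hb : ν.head ≤ b) : Dsc A J b (F A ν) := by
  rcases hb.lt_or_eq with h1 | h1
  · refine ⟨1, mF (Fin.last 1) 0, fun _ => ν, fun _ => ⟨h, h1⟩, fun z _ => ?_⟩
    exact Iff.rfl
  · cases ν with
    | mk b' n φ ps =>
      simp only [head_mk] at h1
      subst h1
      refine ⟨n, φ, ps, fun i => ⟨⟨(h.1 i).2, h.2.2 i⟩, (h.1 i).1⟩, fun z hz => ?_⟩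
      rw [mem_F]
      exact ⟨fun h => ⟨hz, h⟩, fun h => h.2⟩

/-- If two described sets differ on `L_b`, some name in `J` below `b` witnesses it. -/
theorem exists_diff {J : Set Ordinal.{u}} (hJ : ClJ A J) {b : Ordinal.{u}} (hb : b ∈ J)
    {X Y : ZFSet.{u}} (hX : Dsc A J b X) (hY : Dsc A J b Y)
    (h : ∃ z ∈ Lev A b, ¬ (z ∈ X ↔ z ∈ Y)) :
    ∃ μ, NJ J μ ∧ μ.head < b ∧ ¬ (F A μ ∈ X ↔ F A μ ∈ Y) := by
  obtain ⟨k, φ, ps, h1, h2⟩ := hX
  obtain ⟨l, ψ, qs, h3, h4⟩ := hY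
  have h5 : NJ J (.mk b (k + l) (nF (iF (rn (r1 k l) φ) (rn (r2 k l) ψ))) (Fin.append ps qs)) := by
    refine NJ.mk hb fun i => ?_
    refine Fin.addCases (fun j => ?_) (fun j => ?_) i
    · rw [Fin.append_left]; exact h1 j
    · rw [Fin.append_right]; exact h3 j
  have h6 : ∀ z, z ∈ F A (.mk b (k + l) (nF (iF (rn (r1 k l) φ) (rn (r2 k l) ψ)))
      (Fin.append ps qs)) ↔ z ∈ Lev A b ∧ ¬ (z ∈ X ↔ z ∈ Y) := by
    intro z
    rw [mem_F]
    refine and_congr_right fun hz => ?_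
    rw [sat_nF, sat_iF, sat_rn, sat_rn, append_comp]
    change ¬ (Sat _ _ _ (fun i => snc _ z (r1 k l i)) ↔ Sat _ _ _ (fun i => snc _ z (r2 k l i))) ↔ _
    rw [comp_r1, comp_r2, h2 z hz, h4 z hz]
  obtain ⟨z, hz⟩ := h
  obtain ⟨h7, h8, h9⟩ := hJ.wst h5 ((h6 z).2 hz)
  exact ⟨_, h7, h8, ((h6 _).1 h9).2⟩

/-- If a described set is an element of `L_b` lying in another described set, then it has a name
in `J` below `b`. -/
theorem exists_lower {J : Set Ordinal.{u}} (hJ : ClJ A J) {b : Ordinal.{u}} (hb : b ∈ J)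
    {X Y : ZFSet.{u}} (hX : Dsc A J b X) (hY : Dsc A J b Y)
    (hXb : X ∈ Lev A b) (h : X ∈ Y) :
    ∃ μ, NJ J μ ∧ μ.head < b ∧ F A μ = X := by
  obtain ⟨k, φ, ps, h1, h2⟩ := hX
  obtain ⟨l, ψ, qs, h3, h4⟩ := hY
  set θ : BF (k + l + 1) := aF (.all (iF (mF (Fin.last (k + l + 1)) (Fin.last (k + l)).castSucc)
    (rn (r3 k l) φ))) (rn (r2 k l) ψ) with hθ
  have h5 : NJ J (.mk b (k + l) θ (Fin.append ps qs)) := by
    refine NJ.mk hb fun i => ?_
    refine Fin.addCases (fun j => ?_) (fun j => ?_) i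
    · rw [Fin.append_left]; exact h1 j
    · rw [Fin.append_right]; exact h3 j
  have h6 : ∀ z, z ∈ F A (.mk b (k + l) θ (Fin.append ps qs)) ↔
      z ∈ Lev A b ∧ (∀ x ∈ Lev A b, (x ∈ z ↔ x ∈ X)) ∧ z ∈ Y := by
    intro z
    rw [mem_F]
    refine and_congr_right fun hz => ?_
    rw [hθ, sat_aF, sat_all, sat_rn, append_comp]
    change (_ ∧ Sat _ _ _ (fun i => snc _ z (r2 k l i))) ↔ _
    rw [comp_r2, h4 z hz]
    refine and_congr_left fun _ => ?_
    refine forall_congr' fun x => forall_congr' fun hx => ?_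
    rw [sat_iF, sat_mF, sat_rn]
    change (_ ↔ Sat _ _ _ (fun i => snc (snc _ z) x (r3 k l i))) ↔ _
    rw [comp_r3, h2 x hx]
    simp
  have h7 : X ∈ F A (.mk b (k + l) θ (Fin.append ps qs)) :=
    (h6 X).2 ⟨hXb, fun x _ => Iff.rfl, h⟩
  obtain ⟨h8, h9, h10⟩ := hJ.wst h5 h7
  obtain ⟨h11, h12, _⟩ := (h6 _).1 h10
  refine ⟨_, h8, h9, ?_⟩
  ext x
  constructor
  · intro hx
    exact (h12 x (Lev_trans A b h11 hx)).1 hx
  · intro hx
    exact (h12 x (Lev_trans A b hXb hx)).2 hx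

theorem exists_member_name {J : Set Ordinal.{u}} (hJ : ClJ A J) (β : Ordinal.{u}) :
    ∀ {μ ν : Nm Ordinal.{u}}, μ.head = β → NJ J μ → NJ J ν → F A μ ∈ F A ν →
    ∃ μ', NJ J μ' ∧ μ'.head < ν.head ∧ F A μ' = F A μ := by
  induction β using WellFoundedLT.induction with
  | ind β ih =>
    intro μ ν hβ h1 h2 h3
    by_cases h4 : μ.head < ν.head
    · exact ⟨μ, h1, h4, rfl⟩
    · push Not at h4
      obtain ⟨μ', h5, h6, h7⟩ := exists_lower hJ h1.head_mem (dsc_of_name h1 le_rfl)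
        (dsc_of_name h2 h4) (Lev_mono h4 (F_subset ν h3)) h3
      obtain ⟨μ'', h8, h9, h10⟩ := ih μ'.head (hβ ▸ h6) rfl h5 h2 (by rw [h7]; exact h3)
      exact ⟨μ'', h8, h9, h10.trans h7⟩

/-! ### Condensation -/

variable {I : Type v} {h : I → Ordinal.{u}}

/-- The order on an index set of ordinals. -/
def ltH (h : I → Ordinal.{u}) (i j : I) : Prop := h i < h j

/-- A collapse of a set of ordinals, indexed by `I` through the injection `h`. -/
structure Collapse (h : I → Ordinal.{u}) (κ0 : Ordinal.{u}) (col : I → Ordinal.{u}) : Prop where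
  inj0 : Function.Injective h
  lt_iff : ∀ i j : I, ltH h i j ↔ col i < col j
  seg : ∀ i β, β < col i → ∃ j, col j = β
  sub : ∀ β < κ0, ∃ i, h i = β

theorem Collapse.inj {κ0 : Ordinal.{u}} {col : I → Ordinal.{u}}
    (hc : Collapse h κ0 col) : Function.Injective col := by
  intro i j hij
  rcases lt_trichotomy (h i) (h j) with h1 | h1 | h1
  · exact absurd hij ((hc.lt_iff _ _).1 h1).ne
  · exact hc.inj0 h1
  · exact absurd hij ((hc.lt_iff _ _).1 h1).ne'

theorem Collapse.fix {κ0 : Ordinal.{u}} {col : I → Ordinal.{u}}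
    (hc : Collapse h κ0 col) (β : Ordinal.{u}) : ∀ (i : I), h i = β → β < κ0 → col i = h i := by
  induction β using WellFoundedLT.induction with
  | ind β ih =>
    intro i hi hβ
    subst hi
    refine le_antisymm ?_ ?_
    · by_contra hlt
      push Not at hlt
      obtain ⟨j, hj⟩ := hc.seg _ _ hlt
      have h1 : h j < h i := (hc.lt_iff j i).2 (by rw [hj]; exact hlt)
      have h2 := ih (h j) h1 j rfl (h1.trans hβ)
      rw [hj] at h2
      exact absurd h2.symm h1.ne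
    · by_contra hlt
      push Not at hlt
      obtain ⟨j, hj⟩ := hc.sub _ (hlt.trans hβ)
      have h2 := ih _ hlt j hj (hlt.trans hβ)
      have h3 : h j < h i := by rw [hj]; exact hlt
      have h4 := (hc.lt_iff j i).1 h3
      rw [h2, hj] at h4
      exact lt_irrefl _ h4

theorem Collapse.col_lt {κ0 : Ordinal.{u}} {col : I → Ordinal.{u}}
    (hc : Collapse h κ0 col) {i : I} : col i < κ0 ↔ h i < κ0 := by
  constructor
  · intro h1
    obtain ⟨j, hj⟩ := hc.sub _ h1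
    have h2 := hc.fix _ j hj h1
    rw [hj] at h2
    rw [hc.inj h2] at hj
    rw [hj]
    exact h1
  · intro h1
    rw [hc.fix _ i rfl h1]
    exact h1

theorem exists_nmJ {ν : Nm Ordinal.{u}} (hν : NJ (Set.range h) ν) :
    ∃ μ : Nm I, μ.map h = ν := exists_map hν.2

theorem nj_of_nm {μ : Nm I} (hμ : μ.wf (ltH h)) : NJ (Set.range h) (μ.map h) := by
  refine ⟨(wf_map (lt := ltH h) (lt' := fun a b : Ordinal.{u} => a < b) (f := h)
    (fun _ _ => Iff.rfl) μ).2 hμ, ?_⟩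
  rw [all_map]
  exact all_true (fun a => ⟨a, rfl⟩) μ

theorem wf_of_nj {μ : Nm I} (hμ : NJ (Set.range h) (μ.map h)) :
    μ.wf (ltH h) := (wf_map (lt := ltH h) (lt' := fun a b : Ordinal.{u} => a < b)
      (f := h) (fun _ _ => Iff.rfl) μ).1 hμ.1

open Classical in
/-- Canonical members for names over `I`. -/
noncomputable def wI (A : ZFSet.{u}) (h : I → Ordinal.{u}) (ν : Nm I) : Nm I :=
  if hh : ∃ μ : Nm I, μ.map h = wst A (ν.map h) then hh.choose else ν

theorem wI_spec (hJ : ClJ A (Set.range h)) {ν : Nm I} (hν : ν.wf (ltH h))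
    {z : ZFSet.{u}} (hz : z ∈ F A (ν.map h)) :
    (wI A h ν).map h = wst A (ν.map h) ∧
    Wit (ltH h) (fun μ ν => F A (μ.map h) ∈ F A (ν.map h)) (wI A h) ν := by
  obtain ⟨h1, h2, h3⟩ := hJ.wst (nj_of_nm hν) hz
  have h4 : ∃ μ : Nm I, μ.map h = wst A (ν.map h) := exists_nmJ h1
  have h5 : (wI A h ν).map h = wst A (ν.map h) := by
    unfold wI
    rw [dif_pos h4]
    exact h4.choose_spec
  refine ⟨h5, ?_, ?_, ?_⟩
  · apply wf_of_nj
    rw [h5]
    exact h1
  · have h6 := head_map h (wI A h ν)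
    have h7 := head_map h ν
    rw [h5] at h6
    rw [h6, h7] at h2
    exact h2
  · change F A ((wI A h ν).map h) ∈ _
    rw [h5]
    exact h3

theorem Collapse.low {κ0 : Ordinal.{u}} {col : I → Ordinal.{u}}
    (hc : Collapse h κ0 col) {μ : Nm I} (h1 : μ.wf (ltH h)) (h2 : h μ.head < κ0) :
    μ.map h = μ.map col := by
  apply Nm.map_congr
  have h3 : (μ.map h).All (fun b => b < κ0) := by
    refine all_of_wf
      (lt := fun a b : Ordinal.{u} => a < b) (fun _ _ _ h h' => lt_trans h h')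
      (nj_of_nm h1).1 ?_
    rw [head_map]
    exact h2
  rw [all_map] at h3
  refine all_mono ?_ h3
  intro a ha
  exact (hc.fix (h a) a rfl ha).symm

/-- The truth predicates on the names over a closed set of levels are coherent for the
collapse. -/
theorem coh_of_closed (hJ : ClJ A (Set.range h)) {κ0 : Ordinal.{u}}
    {col : I → Ordinal.{u}} (hc : Collapse h κ0 col) {P : Type w} {pn : P → Nm I}
    (hpn1 : ∀ i, (pn i).wf (ltH h)) (hpn2 : ∀ i, h (pn i).head < κ0)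
    (hpn3 : ∀ z, z ∈ A ↔ ∃ i, F A ((pn i).map h) = z) :
    Coh A (ltH h) col κ0 pn
      (fun μ ν => F A (μ.map h) ∈ F A (ν.map h))
      (fun μ ν => F A (μ.map h) = F A (ν.map h))
      (fun ν => F A (ν.map h) ∈ A) (wI A h) := by
  have hlow : ∀ μ : Nm I, μ.wf (ltH h) → h μ.head < κ0 →
      μ.map h = μ.map col := fun μ h1 h2 => hc.low h1 h2
  have hmemL : ∀ {b : I} {μ : Nm I}, μ.wf (ltH h) → ltH h μ.head b →
      F A (μ.map h) ∈ Lev A (h b) := by
    intro b μ h1 h2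
    refine F_mem_Lev (nj_of_nm h1).1 ?_
    rw [head_map]
    exact h2
  have hmk : ∀ {b : I} {n : ℕ} {φ : BF (n + 1)} {ps : Fin n → Nm I} {μ : Nm I},
      μ.wf (ltH h) → ltH h μ.head b →
      (F A (μ.map h) ∈ F A ((Nm.mk b n φ ps).map h) ↔
        Sat A (Lev A (h b)) φ (fun i => F A ((snc ps μ i).map h))) := by
    intro b n φ ps μ h1 h2
    rw [map_mk, mem_F, comp_snc (fun ν : Nm I => F A (ν.map h))]
    exact ⟨fun h => h.2, fun h => ⟨hmemL h1 h2, h⟩⟩
  have hN : ∀ {b : I} {n : ℕ} {ps : Fin n → Nm I} {μ : Nm I},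
      (∀ i, ltH h (ps i).head b ∧ (ps i).wf (ltH h)) →
      μ.wf (ltH h) → ltH h μ.head b → ∀ i, ltH h (snc ps μ i).head b ∧
        (snc ps μ i).wf (ltH h) := by
    intro b n ps μ h1 h2 h3 i
    refine Fin.lastCases ?_ (fun j => ?_) i
    · simpa [snc] using ⟨h3, h2⟩
    · simpa [snc] using h1 j
  refine
    { lt_iff := hc.lt_iff
      inj := hc.inj
      seg := hc.seg
      tF := ?_
      tE := ?_
      tM := ?_
      tP := ?_
      tI := ?_
      tA := ?_
      t2 := ?_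
      t3 := ?_
      t3' := ?_
      t4 := ?_
      t4' := ?_
      h0m := ?_
      h0q := ?_
      h0a := ?_
      pnwf := ?_
      hA := ?_
      ha := ?_ }
  · intro b n ps μ h1 h2 h3 h
    rw [hmk h2 h3] at h
    exact h
  · intro b n ps μ h1 h2 h3 s t
    rw [hmk h2 h3]
    exact Iff.rfl
  · intro b n ps μ h1 h2 h3 ts
    rw [hmk h2 h3]
    exact Iff.rfl
  · intro b n ps μ h1 h2 h3 ts
    rw [hmk h2 h3]
    exact Iff.rfl
  · intro b n ps μ h1 h2 h3 φ ψ
    rw [hmk h2 h3, hmk h2 h3, hmk h2 h3]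
    exact Iff.rfl
  · intro b n ps μ h1 h2 h3 φ
    rw [hmk h2 h3, sat_all]
    constructor
    · rintro h ⟨h4, h5, h6⟩
      have h6 := (hmk (b := b) (φ := nF φ) (ps := snc ps μ) h4 h5).1 h6
      rw [sat_nF] at h6
      apply h6
      rw [comp_snc (fun ν : Nm I => F A (ν.map _))]
      exact h _ (hmemL h4 h5)
    · intro h z hz
      by_contra h7
      apply h
      have h8 : (Nm.mk b (n + 1) (nF φ) (snc ps μ)).wf (ltH _) := hN h1 h2 h3
      refine (wI_spec hJ h8 (z := z) ?_).2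
      rw [map_mk, mem_F, sat_nF]
      exact ⟨hz, h7⟩
  · intro μ ν h1 h2 h3 h4
    obtain ⟨h5, h6⟩ := wI_spec hJ h2 h4
    refine ⟨h6, ?_⟩
    rw [← ltN_map (lt := ltH h) (lt' := fun a b : Ordinal.{u} => a < b) (f := h)
      (fun _ _ => Iff.rfl) hc.inj0, h5]
    refine wst_min ⟨(nj_of_nm h1).1, ?_, h4⟩
    rw [head_map, head_map]
    exact h3
  · intro μ ν h1 h2 h3
    obtain ⟨μ', h4, h5, h6⟩ := exists_member_name hJ _ rfl (nj_of_nm h1) (nj_of_nm h2) h3
    obtain ⟨μ'', rfl⟩ := exists_nmJ h4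
    refine ⟨μ'', wf_of_nj h4, ?_, h6.symm, ?_⟩
    · rw [head_map, head_map] at h5
      exact h5
    · change F A _ ∈ _
      rw [h6]
      exact h3
  · intro μ ν μ' h1 h2 h3 h4 h5 h6
    change F A _ = F A _ at h5
    change F A _ ∈ F A _
    rw [h5]
    exact h6
  · intro μ ν μ' h1 h2 h3 h4
    change F A _ = F A _ at h4
    change F A _ ∈ F A _ ↔ F A _ ∈ F A _
    rw [h4]
  · intro μ ν h1 h2 h3
    change ¬ F A _ = F A _ at h3
    have key : ∀ b ∈ Set.range h, (μ.map h).head ≤ b → (ν.map h).head ≤ b →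
        ∃ μ' : Nm I, μ'.wf (ltH h) ∧ h μ'.head < b ∧
        ¬ (F A (μ'.map h) ∈ F A (μ.map h) ↔
          F A (μ'.map h) ∈ F A (ν.map h)) := by
      intro b hb h4 h5
      have h6 : ∃ z ∈ Lev A b, ¬ (z ∈ F A (μ.map h) ↔ z ∈ F A (ν.map h)) := by
        by_contra h7
        push Not at h7
        apply h3
        ext z
        constructor
        · intro hz
          exact (h7 z (Lev_mono h4 (F_subset _ hz))).1 hz
        · intro hz
          exact (h7 z (Lev_mono h5 (F_subset _ hz))).2 hz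
      obtain ⟨μ', h8, h9, h10⟩ := exists_diff hJ hb (dsc_of_name (nj_of_nm h1) h4)
        (dsc_of_name (nj_of_nm h2) h5) h6
      obtain ⟨μ'', rfl⟩ := exists_nmJ h8
      rw [head_map] at h9
      exact ⟨μ'', wf_of_nj h8, h9, h10⟩
    rcases le_total (μ.map h).head (ν.map h).head with h4 | h4
    · obtain ⟨μ', h5, h6, h7⟩ := key _ (nj_of_nm h2).head_mem h4 le_rfl
      rw [head_map] at h6
      exact ⟨μ', h5, Or.inr h6, h7⟩
    · obtain ⟨μ', h5, h6, h7⟩ := key _ (nj_of_nm h1).head_mem le_rfl h4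
      rw [head_map] at h6
      exact ⟨μ', h5, Or.inl h6, h7⟩
  · intro μ ν h1 h2 h3 h4
    rw [hc.col_lt] at h3 h4
    rw [hlow μ h1 h3, hlow ν h2 h4]
  · intro μ ν h1 h2 h3 h4
    rw [hc.col_lt] at h3 h4
    rw [hlow μ h1 h3, hlow ν h2 h4]
  · intro ν h1 h2
    rw [hc.col_lt] at h2
    rw [hlow ν h1 h2]
  · intro i
    exact ⟨hpn1 i, hc.col_lt.2 (hpn2 i)⟩
  · intro z
    rw [hpn3]
    refine exists_congr fun i => ?_
    rw [hlow _ (hpn1 i) (hpn2 i)]
  · intro ν h1 h2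
    rw [hpn3]
    exact exists_congr fun i => eq_comm

/-- Condensation. -/
theorem condensation (hJ : ClJ A (Set.range h)) {κ0 : Ordinal.{u}}
    {col : I → Ordinal.{u}} (hc : Collapse h κ0 col) (hA : ∀ z ∈ A, z ∈ Lev A κ0)
    {μ ν : Nm I} (h1 : μ.wf (ltH h)) (h2 : ν.wf (ltH h)) :
    F A (μ.map h) ∈ F A (ν.map h) ↔ F A (μ.map col) ∈ F A (ν.map col) := by
  have hpn : ∀ z : {z : ZFSet.{u} // z ∈ A}, ∃ μ : Nm I, μ.wf (ltH h) ∧ h μ.head < κ0 ∧
      F A (μ.map h) = z.1 := by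
    intro z
    obtain ⟨ν, h1, h2, h3⟩ := exists_name κ0 (hA z.1 z.2)
    have h4 : ν.All (fun b => b < κ0) := all_of_wf
        (lt := fun a b : Ordinal.{u} => a < b) (fun _ _ _ h h' => lt_trans h h') h1 h2
    have h5 : NJ (Set.range h) ν := ⟨h1, all_mono (fun a ha => hc.sub a ha) h4⟩
    obtain ⟨μ, rfl⟩ := exists_nmJ h5
    rw [head_map] at h2
    exact ⟨μ, wf_of_nj h5, h2, h3⟩
  choose pn hpn1 hpn2 hpn3 using hpn
  have C := coh_of_closed hJ hc (P := {z : ZFSet.{u} // z ∈ A}) (pn := pn) hpn1 hpn2 (fun z => by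
    constructor
    · intro hz
      exact ⟨⟨z, hz⟩, hpn3 ⟨z, hz⟩⟩
    · rintro ⟨i, rfl⟩
      rw [hpn3]
      exact i.2)
  exact C.m_iff h1 h2

end Pool.Agent.helper82.LV
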