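import Mathlib

/-!
Definitions: the generalized Baire space, Laver trees, measurability.
-/

set_option autoImplicit false

universe u

namespace Pool.Agent.helper82.LV

open Order Set

/-- A sequence of elements of `K` indexed by an initial segment of `K`. -/
structure Node (K : Type u) [LinearOrder K] : Type u where
  /-- The length of the sequence. -/
  len : K
  /-- The entries of the sequence. -/
  val : Set.Iio len → K

variable {K : Type u} [LinearOrder K]

/-- The restriction of `x` to the elements below `a`. -/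
def restr (x : K → K) (a : K) : Node K := ⟨a, fun i => x i.1⟩

/-- `s` is an initial segment of `t`. -/
def Node.Le (s t : Node K) : Prop :=
  ∃ h : s.len ≤ t.len, ∀ i : Set.Iio s.len, s.val i = t.val ⟨i.1, i.2.trans_le h⟩

/-- `s` followed by `b`. -/
def Node.snoc [SuccOrder K] (s : Node K) (b : K) : Node K :=
  ⟨Order.succ s.len, fun i => if h : i.1 < s.len then s.val ⟨i.1, h⟩ else b⟩

/-- The basic open set given by a sequence. -/
def Node.cyl (s : Node K) : Set (K → K) := {x | ∀ i : Set.Iio s.len, x i.1 = s.val i}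

/-- The generalized Baire space, with the bounded topology. -/
def GBaire (K : Type u) : Type u := K → K

instance : TopologicalSpace (GBaire K) :=
  TopologicalSpace.generateFrom {U | ∃ s : Node K, U = s.cyl}

/-- Projections of closed sets. -/
def Sigma11 (A : Set (K → K)) : Prop :=
  ∃ C : Set (GBaire K × GBaire K), IsClosed C ∧ A = {x | ∃ y, (x, y) ∈ C}

/-- Boldface Delta-one-one sets. -/
def Delta11 (A : Set (K → K)) : Prop := Sigma11 A ∧ Sigma11 Aᶜ

/-- Laver trees. -/
structure IsLaver [SuccOrder K] (T : Set (Node K)) : Prop where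
  incr : ∀ t ∈ T, StrictMono t.val
  tree : ∀ t ∈ T, ∀ s : Node K, s.Le t → s ∈ T
  pruned : ∀ t ∈ T, ∃ t' ∈ T, t.Le t' ∧ t.len < t'.len
  closed : ∀ t : Node K, IsSuccLimit t.len → (∀ s : Node K, s.Le t → s.len < t.len → s ∈ T) → t ∈ T
  stem : ∃ s ∈ T, (∀ t ∈ T, t.Le s ∨ s.Le t) ∧ ∀ t ∈ T, s.Le t → IsClub {b : K | t.snoc b ∈ T}

/-- The branches of a tree. -/
def body (T : Set (Node K)) : Set (K → K) := {x | ∀ a, restr x a ∈ T}

variable [SuccOrder K]

/-- Null sets. -/
def LNull (A : Set (K → K)) : Prop :=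
  ∀ T : Set (Node K), IsLaver T → ∃ S : Set (Node K), IsLaver S ∧ S ⊆ T ∧ body S ∩ A = ∅

/-- Meager sets. -/
def LMeager (A : Set (K → K)) : Prop :=
  ∃ N : K → Set (K → K), (∀ i, LNull (N i)) ∧ A = ⋃ i, N i

/-- Measurable sets. -/
def LMeas (A : Set (K → K)) : Prop :=
  ∀ T : Set (Node K), IsLaver T → ∃ S : Set (Node K), IsLaver S ∧ S ⊆ T ∧
    (LMeager (body S \ A) ∨ LMeager (body S ∩ A))

end Pool.Agent.helper82.LV
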