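import Pool.Agent.helper82.LV.Rk

/-!
Existence of good codes.
-/

set_option autoImplicit false

universe u v w

namespace Pool.Agent.helper82.LV

open FirstOrder ZFSet Nm Order Cardinal

variable {K : Type u} [LinearOrder K] [RegK K] [WellFoundedLT K]

theorem graph_mem_Lev (r : K → K) : ∀ z ∈ graph r, z ∈ Lev (graph r) (kap K) := by
  intro z hz
  obtain ⟨i, rfl⟩ := mem_graph.1 hz
  exact opr_mem_Lev i (r i)

theorem exists_enum_lt {η : Ordinal.{u}} (h1 : kap K ≤ η) (h2 : η.card ≤ #K) :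
    ∃ h : K → Ordinal.{u}, Function.Injective h ∧ ∀ β, β < η ↔ ∃ k, h k = β := by
  have h3 : #K = #η.ToType := by
    rw [mk_toType]
    apply le_antisymm
    · have h4 := Ordinal.card_le_card h1
      rw [kap, Ordinal.card_type] at h4
      exact h4
    · exact h2
  obtain ⟨e⟩ := Cardinal.eq.1 h3
  refine ⟨fun k => Ordinal.typein (α := η.ToType) (· < ·) (e k), ?_, ?_⟩
  · intro i j hij
    exact e.injective (Ordinal.typein_injective _ hij)
  · intro β
    constructor
    · intro hβ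
      obtain ⟨a, ha⟩ := Ordinal.typein_surj (α := η.ToType) (· < ·) (o := β)
        (by rw [Ordinal.type_toType]; exact hβ)
      exact ⟨e.symm a, by dsimp only; rw [e.apply_symm_apply]; exact ha⟩
    · rintro ⟨k, rfl⟩
      exact Ordinal.typein_lt_self (e k)

theorem card_add_one_le {ξ : Ordinal.{u}} (h2 : ξ.card ≤ #K) : (ξ + 1).card ≤ #K := by
  rw [Ordinal.card_add_one]
  exact (add_le_add h2 (one_lt_aleph0.le.trans RegK.unc.le)).trans
    (add_eq_self RegK.unc.le).le

theorem exists_enum {ξ : Ordinal.{u}} (h1 : kap K ≤ ξ) (h2 : ξ.card ≤ #K) :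
    ∃ h : K → Ordinal.{u}, Function.Injective h ∧ ∀ β, β ≤ ξ ↔ ∃ k, h k = β := by
  obtain ⟨h, h3, h4⟩ := exists_enum_lt (K := K) (η := ξ + 1)
    (h1.trans (le_add_of_nonneg_right zero_le)) (card_add_one_le h2)
  refine ⟨h, h3, fun β => ?_⟩
  rw [← h4, Order.lt_add_one_iff]

theorem exists_good {r x : K → K} (hall : ∃ ν, Bad (graph r) x ν) (f : K → K) :
    ∃ c, Good r x c ∧ c.f = f := by
  classical
  set A := graph r with hAdef
  have hA : ∀ z ∈ A, z ∈ Lev A (kap K) := graph_mem_Lev r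
  have hb := nu0_bad hall
  set ν0 := nu0 A x with hν0
  have h1 := kap_le_head hb
  obtain ⟨h, hinj, hran⟩ := exists_enum h1 (card_head hA hall)
  have hle : ∀ k, h k ≤ ν0.head := fun k => (hran _).2 ⟨k, rfl⟩
  have hJ : ClJ A (Set.range h) := by
    intro ν hν hm
    have h2 := wst_mem hm
    refine all_mono (P := fun b => b < ν.head) ?_ (all_of_wf
      (lt := fun a b : Ordinal.{u} => a < b) (fun _ _ _ h h' => lt_trans h h') h2.1 h2.2.1)
    intro a ha
    obtain ⟨k, hk⟩ := hν.head_mem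
    exact (hran a).1 (ha.le.trans (hk ▸ hle k))
  have hc : Collapse h (kap K) h := by
    refine ⟨hinj, fun _ _ => Iff.rfl, ?_, ?_⟩
    · intro i β hβ
      exact (hran β).1 (hβ.le.trans (hle i))
    · intro β hβ
      exact (hran β).1 (hβ.le.trans h1)
  have hg : ∀ i : K, ∃ k, h k = od i := fun i => (hran _).1 ((od_lt i).le.trans h1)
  choose g hg using hg
  have hltg : ∀ i j : K, i < j ↔ ltH h (g i) (g j) := by
    intro i j
    unfold ltH
    rw [hg, hg, od_lt_iff]
  have hcg : h ∘ g = od := funext hg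
  have hpn1 : ∀ i, ((prn A i (r i)).map g).wf (ltH h) := fun i =>
    (wf_map (lt := fun a b : K => a < b) (f := g) hltg _).2 (prn_wf _ _ _)
  have hmg : ∀ μ : Nm K, (μ.map g).map h = μ.map od := fun μ => by rw [map_map, hcg]
  have C := coh_of_closed hJ hc (P := K) (pn := fun i => (prn A i (r i)).map g) hpn1
    (fun i => by
      rw [head_map, hg]
      exact od_lt _)
    (fun z => by
      rw [hAdef, mem_graph]
      refine exists_congr fun i => ?_
      rw [hmg, ← hAdef, prn_eq])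
  -- the least name
  have hν : ν0.All (fun b => b ∈ Set.range h) := by
    refine all_mono (P := fun b => b < succ ν0.head) ?_ (all_of_wf
      (lt := fun a b : Ordinal.{u} => a < b) (fun _ _ _ h h' => lt_trans h h') hb.1
      (lt_succ _))
    intro a ha
    exact (hran a).1 (lt_succ_iff.1 ha)
  obtain ⟨nu, hnu⟩ := exists_map hν
  have hnuwf : nu.wf (ltH h) := by
    refine (wf_map (lt := ltH h) (lt' := fun a b : Ordinal.{u} => a < b) (f := h)
      (fun _ _ => Iff.rfl) nu).1 ?_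
    rw [hnu]
    exact hb.1
  have hhead : h nu.head = ν0.head := by rw [← hnu, head_map]
  -- witnesses
  have hv : ∀ μ ν : Nm K, ∃ μ' : Nm K, μ.wf (ltH h) → ν.wf (ltH h) →
      F A (μ.map h) ∈ F A (ν.map h) → μ'.wf (ltH h) ∧ ltH h μ'.head ν.head ∧
      F A (μ.map h) = F A (μ'.map h) ∧ F A (μ'.map h) ∈ F A (ν.map h) := by
    intro μ ν
    by_cases h3 : μ.wf (ltH h) ∧ ν.wf (ltH h) ∧ F A (μ.map h) ∈ F A (ν.map h)
    · obtain ⟨μ', h4⟩ := C.t3 μ ν h3.1 h3.2.1 h3.2.2
      exact ⟨μ', fun _ _ _ => h4⟩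
    · exact ⟨μ, fun h4 h5 h6 => absurd ⟨h4, h5, h6⟩ h3⟩
  choose v hv using hv
  have hd : ∀ μ ν : Nm K, ∃ μ' : Nm K, μ.wf (ltH h) → ν.wf (ltH h) →
      ¬ F A (μ.map h) = F A (ν.map h) → μ'.wf (ltH h) ∧
      (ltH h μ'.head μ.head ∨ ltH h μ'.head ν.head) ∧
      ¬ (F A (μ'.map h) ∈ F A (μ.map h) ↔ F A (μ'.map h) ∈ F A (ν.map h)) := by
    intro μ ν
    by_cases h3 : μ.wf (ltH h) ∧ ν.wf (ltH h) ∧ ¬ F A (μ.map h) = F A (ν.map h)
    · obtain ⟨μ', h4⟩ := C.t4' μ ν h3.1 h3.2.1 h3.2.2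
      exact ⟨μ', fun _ _ _ => h4⟩
    · exact ⟨μ, fun h4 h5 h6 => absurd ⟨h4, h5, h6⟩ h3⟩
  choose d hd using hd
  have haw : ∀ ν : Nm K, ∃ i : K, F A (ν.map h) ∈ A →
      F A (ν.map h) = F A (((prn A i (r i)).map g).map h) := by
    intro ν
    by_cases h3 : F A (ν.map h) ∈ A
    · obtain ⟨i, hi⟩ := (C.hA _).1 h3
      exact ⟨i, fun _ => hi.symm⟩
    · obtain ⟨k⟩ : Nonempty K := RegK.nonempty
      exact ⟨k, fun h4 => absurd h4 h3⟩
  choose aw haw using haw
  have hW := hb.2
  choose w1 hw1 w2 hw2 hw3 hw4 using hW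
  have hw0 : ∀ ν : Nm K, ∃ i0 : K, ν.wf (ltH h) → hltN (ltH h) ν nu → ∀ i j, i0 ≤ i →
      opr i j ∈ F A (ν.map h) → (∀ j' < j, ¬ opr i j' ∈ F A (ν.map h)) → j < x i := by
    intro ν
    by_cases h3 : ν.wf (ltH h) ∧ hltN (ltH h) ν nu
    · have h4 : ¬ Bad A x (ν.map h) := by
        intro h5
        refine nu0_min h5 ?_
        rw [← hν0, ← hnu]
        exact (hltN_map (lt := ltH h) (lt' := fun a b : Ordinal.{u} => a < b) (f := h)
          (fun _ _ => Iff.rfl) hinj ν nu).2 h3.2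
      have h5 : Wf (ν.map h) := (wf_map (lt := ltH h) (lt' := fun a b : Ordinal.{u} => a < b)
        (f := h) (fun _ _ => Iff.rfl) ν).2 h3.1
      have h6 : ¬ WW x (fun i j => opr i j ∈ F A (ν.map h)) := fun h7 => h4 ⟨h5, h7⟩
      unfold WW at h6
      rw [not_forall] at h6
      obtain ⟨i0, hi0⟩ := h6
      refine ⟨i0, fun _ _ i j hi hj hj' => ?_⟩
      by_contra h7
      push Not at h7
      exact hi0 ⟨i, hi, j, hj, hj', h7⟩
    · obtain ⟨k⟩ : Nonempty K := RegK.nonempty
      exact ⟨k, fun h4 h5 => absurd ⟨h4, h5⟩ h3⟩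
  choose w0 hw0 using hw0
  have hpr : ∀ i j : K, F A (((prn A i j).map g).map h) = opr i j := fun i j => by
    rw [hmg, prn_eq]
  let c : Cd K :=
    { lt := ltH h
      m := fun μ ν => F A (μ.map h) ∈ F A (ν.map h)
      q := fun μ ν => F A (μ.map h) = F A (ν.map h)
      a := fun ν => F A (ν.map h) ∈ A
      w := wI A h
      v := v
      d := d
      g := g
      aw := aw
      nu := nu
      w1 := w1
      w2 := w2
      w0 := w0
      f := f }
  refine ⟨c, ?_, rfl⟩
  refine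
    { irr := fun i => lt_irrefl (h i)
      tr := fun i j k h1 h2 => lt_trans (a := h i) (b := h j) (c := h k) h1 h2
      tri := ?_
      wf := ?_
      g1 := fun i j hij => (hltg i j).1 hij
      g2 := ?_
      tF := C.tF
      tE := fun b n ps μ s t h1 h2 h3 => C.tE b n ps μ h1 h2 h3 s t
      tM := fun b n ps μ ts h1 h2 h3 => C.tM b n ps μ h1 h2 h3 ts
      tP := fun b n ps μ ts h1 h2 h3 => C.tP b n ps μ h1 h2 h3 ts
      tI := fun b n ps μ φ ψ h1 h2 h3 => C.tI b n ps μ h1 h2 h3 φ ψ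
      tA := fun b n ps μ φ h1 h2 h3 => C.tA b n ps μ h1 h2 h3 φ
      t2 := C.t2
      t3 := fun μ ν h1 h2 h3 => hv μ ν h1 h2 h3
      t3' := C.t3'
      t4 := C.t4
      t4' := fun μ ν h1 h2 h3 => hd μ ν h1 h2 h3
      h0m := ?_
      h0q := ?_
      h0a := ?_
      ha1 := fun ν _ h2 => haw ν h2
      ha2 := ?_
      nuwf := hnuwf
      top := ?_
      W1 := hw1
      W2 := ?_
      W3 := ?_
      W4 := hw4
      mn := ?_ }
  · intro i j
    rcases lt_trichotomy (h i) (h j) with h2 | h2 | h2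
    · exact Or.inl h2
    · exact Or.inr (Or.inl (hinj h2))
    · exact Or.inr (Or.inr h2)
  · intro s hs
    have h2 := wellFounded_iff_isEmpty_descending_chain.1
      (InvImage.wf h (wellFounded_lt (α := Ordinal.{u})))
    exact h2.false ⟨s, hs⟩
  · intro i k hk
    have h2 : h k < h (g i) := hk
    rw [hg] at h2
    obtain ⟨j, hj⟩ := exists_od (h2.trans (od_lt i))
    rw [← hj, od_lt_iff] at h2
    refine ⟨j, h2, hinj ?_⟩
    change h k = h (g j)
    rw [hg, hj]
  · intro μ ν _ _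
    change F A ((μ.map g).map h) ∈ F A ((ν.map g).map h) ↔ _
    rw [hmg, hmg]
  · intro μ ν _ _
    change F A ((μ.map g).map h) = F A ((ν.map g).map h) ↔ _
    rw [hmg, hmg]
  · intro ν _
    change F A ((ν.map g).map h) ∈ A ↔ _
    rw [hmg]
  · intro ν i _ h2
    change F A (ν.map h) = F A (((prn A i (r i)).map g).map h) at h2
    change F A (ν.map h) ∈ A
    rw [h2, hpr, hAdef, opr_mem_graph]
  · intro k
    rcases (hle k).lt_or_eq with h2 | h2
    · left
      change h k < h nu.head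
      rw [hhead]
      exact h2
    · right
      apply hinj
      change h k = h nu.head
      rw [hhead]
      exact h2
  · intro i
    change F A (((prn A (w1 i) (w2 i)).map g).map h) ∈ F A (nu.map h)
    rw [hpr, hnu]
    exact hw2 i
  · intro i j hj
    change ¬ F A (((prn A (w1 i) j).map g).map h) ∈ F A (nu.map h)
    rw [hpr, hnu]
    exact hw3 i j hj
  · intro ν i j h2 h3 h4 h5 h6
    refine hw0 ν h2 h3 i j h4 ?_ ?_
    · change F A (((prn A i j).map g).map h) ∈ F A (ν.map h) at h5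
      rw [hpr] at h5
      exact h5
    · intro j' hj'
      have h7 := h6 j' hj'
      change ¬ F A (((prn A i j').map g).map h) ∈ F A (ν.map h) at h7
      rw [hpr] at h7
      exact h7

end Pool.Agent.helper82.LV
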