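import Pool.Agent.helper82.LV.Code

/-!
Good codes.
-/

set_option autoImplicit false

universe u v w

namespace Pool.Agent.helper82.LV

open FirstOrder ZFSet Nm Order Cardinal

variable {K : Type u} [LinearOrder K] [RegK K]

section loc

variable {f g : Om K → K} {μ ν : Om K → Nm K}

theorem Loc.cc (n : ℕ) (μ ν : Nm K) : Loc (fun p : Om K => cc p.2 n μ ν) :=
  (Loc.snd _).comp (eD K)

theorem Loc.dlt (hf : Loc f) (hg : Loc g) : Loc (fun p => (dec p.2).lt (f p) (g p)) :=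
  Loc.bind (g := fun y p => (dec p.2).lt y (g p)) hf fun y =>
    Loc.bind (g := fun z p => (dec p.2).lt y z) hg fun z =>
      (Loc.cc 0 (io y) (io z)).comp (fun x => x.head = (two K).1)

theorem Loc.dm (hf : Loc μ) (hg : Loc ν) : Loc (fun p => (dec p.2).m (μ p) (ν p)) :=
  Loc.bind (g := fun y p => (dec p.2).m y (ν p)) hf fun y =>
    Loc.bind (g := fun z p => (dec p.2).m y z) hg fun z =>
      (Loc.cc 1 y z).comp (fun x => x.head = (two K).1)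

theorem Loc.dq (hf : Loc μ) (hg : Loc ν) : Loc (fun p => (dec p.2).q (μ p) (ν p)) :=
  Loc.bind (g := fun y p => (dec p.2).q y (ν p)) hf fun y =>
    Loc.bind (g := fun z p => (dec p.2).q y z) hg fun z =>
      (Loc.cc 2 y z).comp (fun x => x.head = (two K).1)

theorem Loc.da (hf : Loc μ) : Loc (fun p => (dec p.2).a (μ p)) :=
  Loc.bind (g := fun y p => (dec p.2).a y) hf fun y =>
    (Loc.cc 3 y y).comp (fun x => x.head = (two K).1)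

theorem Loc.dw (hf : Loc μ) : Loc (fun p => (dec p.2).w (μ p)) :=
  Loc.bind (g := fun y p => (dec p.2).w y) hf fun y => Loc.cc 4 y y

theorem Loc.dv (hf : Loc μ) (hg : Loc ν) : Loc (fun p => (dec p.2).v (μ p) (ν p)) :=
  Loc.bind (g := fun y p => (dec p.2).v y (ν p)) hf fun y =>
    Loc.bind (g := fun z p => (dec p.2).v y z) hg fun z => Loc.cc 5 y z

theorem Loc.dd (hf : Loc μ) (hg : Loc ν) : Loc (fun p => (dec p.2).d (μ p) (ν p)) :=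
  Loc.bind (g := fun y p => (dec p.2).d y (ν p)) hf fun y =>
    Loc.bind (g := fun z p => (dec p.2).d y z) hg fun z => Loc.cc 6 y z

theorem Loc.dg (hf : Loc f) : Loc (fun p => (dec p.2).g (f p)) :=
  Loc.bind (g := fun y p => (dec p.2).g y) hf fun y =>
    (Loc.cc 7 (io y) (io y)).comp (fun x => x.head)

theorem Loc.daw (hf : Loc μ) : Loc (fun p => (dec p.2).aw (μ p)) :=
  Loc.bind (g := fun y p => (dec p.2).aw y) hf fun y =>
    (Loc.cc 8 y y).comp (fun x => x.head)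

theorem Loc.dnu : Loc (fun p : Om K => (dec p.2).nu) := Loc.cc 9 _ _

theorem Loc.dw1 (hf : Loc f) : Loc (fun p => (dec p.2).w1 (f p)) :=
  Loc.bind (g := fun y p => (dec p.2).w1 y) hf fun y =>
    (Loc.cc 10 (io y) (io y)).comp (fun x => x.head)

theorem Loc.dw2 (hf : Loc f) : Loc (fun p => (dec p.2).w2 (f p)) :=
  Loc.bind (g := fun y p => (dec p.2).w2 y) hf fun y =>
    (Loc.cc 11 (io y) (io y)).comp (fun x => x.head)

theorem Loc.dw0 (hf : Loc μ) : Loc (fun p => (dec p.2).w0 (μ p)) :=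
  Loc.bind (g := fun y p => (dec p.2).w0 y) hf fun y =>
    (Loc.cc 12 y y).comp (fun x => x.head)

theorem Loc.df (hf : Loc f) : Loc (fun p => (dec p.2).f (f p)) :=
  Loc.bind (g := fun y p => (dec p.2).f y) hf fun y =>
    (Loc.cc 13 (io y) (io y)).comp (fun x => x.head)

theorem Loc.hd (hf : Loc μ) : Loc (fun p => (μ p).head) := hf.comp (fun x => x.head)

theorem Loc.dwf (hf : Loc μ) : Loc (fun p => (μ p).wf (dec p.2).lt) :=
  Loc.bind (g := fun y p => y.wf (dec p.2).lt) hf fun y =>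
    Loc.wf (lt := fun i j p => (dec p.2).lt i j) (fun _ _ => Loc.dlt (Loc.const _) (Loc.const _)) y

theorem Loc.mapg (hf : Loc μ) : Loc (fun p => (μ p).map (dec p.2).g) :=
  Loc.bind (g := fun y p => y.map (dec p.2).g) hf fun y =>
    Loc.map (f := fun i p => (dec p.2).g i) (fun _ => Loc.dg (Loc.const _)) y

theorem Loc.dltN (hf : Loc μ) (hg : Loc ν) :
    Loc (fun p => Nm.ltN (dec p.2).lt (μ p) (ν p)) :=
  Loc.bind (g := fun y p => Nm.ltN (dec p.2).lt y (ν p)) hf fun y =>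
    Loc.bind (g := fun z p => Nm.ltN (dec p.2).lt y z) hg fun z =>
      Loc.ltN (lt := fun i j p => (dec p.2).lt i j)
        (fun _ _ => Loc.dlt (Loc.const _) (Loc.const _)) y z

theorem Loc.wit (hf : Loc μ) :
    Loc (fun p => Wit (dec p.2).lt (dec p.2).m (dec p.2).w (μ p)) :=
  (Loc.dwf (Loc.dw hf)).and ((Loc.dlt (Loc.hd (Loc.dw hf)) (Loc.hd hf)).and
    (Loc.dm (Loc.dw hf) hf))

theorem Loc.fstv (hf : Loc f) : Loc (fun p => p.1 (f p)) :=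
  Loc.bind (g := fun y p => p.1 y) hf fun y => Loc.fst y

theorem Loc.prn [WellFoundedLT K] (A : ZFSet.{u}) (hf : Loc f) (hg : Loc g) :
    Loc (fun p => prn A (f p) (g p)) :=
  Loc.bind (g := fun y p => Pool.Agent.helper82.LV.prn A y (g p)) hf fun y =>
    hg.comp (fun z => Pool.Agent.helper82.LV.prn A y z)

end loc

variable [WellFoundedLT K]

/-- Good codes for `x`. -/
@[mk_iff] structure Good (r x : K → K) (c : Cd K) : Prop where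
  irr : ∀ i, ¬ c.lt i i
  tr : ∀ i j k, c.lt i j → c.lt j k → c.lt i k
  tri : ∀ i j, c.lt i j ∨ i = j ∨ c.lt j i
  wf : ∀ s : ℕ → K, ¬ ∀ n, c.lt (s (n + 1)) (s n)
  g1 : ∀ i j, i < j → c.lt (c.g i) (c.g j)
  g2 : ∀ i k, c.lt k (c.g i) → ∃ j < i, k = c.g j
  tF : ∀ (b : K) (n : ℕ) (ps : Fin n → Nm K) (μ : Nm K),
    (∀ i, c.lt (ps i).head b ∧ (ps i).wf c.lt) → μ.wf c.lt → c.lt μ.head b →
    ¬ c.m μ (Nm.mk b n .falsum ps)
  tE : ∀ (b : K) (n : ℕ) (ps : Fin n → Nm K) (μ : Nm K) (s t : lang.Term (Empty ⊕ Fin (n + 1))),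
    (∀ i, c.lt (ps i).head b ∧ (ps i).wf c.lt) → μ.wf c.lt → c.lt μ.head b →
    (c.m μ (Nm.mk b n (.equal s t) ps) ↔ c.q (snc ps μ (tv s)) (snc ps μ (tv t)))
  tM : ∀ (b : K) (n : ℕ) (ps : Fin n → Nm K) (μ : Nm K)
    (ts : Fin 2 → lang.Term (Empty ⊕ Fin (n + 1))),
    (∀ i, c.lt (ps i).head b ∧ (ps i).wf c.lt) → μ.wf c.lt → c.lt μ.head b →
    (c.m μ (Nm.mk b n (.rel (l := 2) SRel.mem ts) ps) ↔
      c.m (snc ps μ (tv (ts 0))) (snc ps μ (tv (ts 1))))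
  tP : ∀ (b : K) (n : ℕ) (ps : Fin n → Nm K) (μ : Nm K)
    (ts : Fin 1 → lang.Term (Empty ⊕ Fin (n + 1))),
    (∀ i, c.lt (ps i).head b ∧ (ps i).wf c.lt) → μ.wf c.lt → c.lt μ.head b →
    (c.m μ (Nm.mk b n (.rel (l := 1) SRel.prd ts) ps) ↔ c.a (snc ps μ (tv (ts 0))))
  tI : ∀ (b : K) (n : ℕ) (ps : Fin n → Nm K) (μ : Nm K) (φ ψ : BF (n + 1)),
    (∀ i, c.lt (ps i).head b ∧ (ps i).wf c.lt) → μ.wf c.lt → c.lt μ.head b →
    (c.m μ (Nm.mk b n (.imp φ ψ) ps) ↔ (c.m μ (Nm.mk b n φ ps) → c.m μ (Nm.mk b n ψ ps)))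
  tA : ∀ (b : K) (n : ℕ) (ps : Fin n → Nm K) (μ : Nm K) (φ : BF (n + 1 + 1)),
    (∀ i, c.lt (ps i).head b ∧ (ps i).wf c.lt) → μ.wf c.lt → c.lt μ.head b →
    (c.m μ (Nm.mk b n (.all φ) ps) ↔ ¬ Wit c.lt c.m c.w (Nm.mk b (n + 1) (nF φ) (snc ps μ)))
  t2 : ∀ μ ν : Nm K, μ.wf c.lt → ν.wf c.lt → c.lt μ.head ν.head → c.m μ ν →
    Wit c.lt c.m c.w ν ∧ ¬ ltN c.lt μ (c.w ν)
  t3 : ∀ μ ν : Nm K, μ.wf c.lt → ν.wf c.lt → c.m μ ν →
    (c.v μ ν).wf c.lt ∧ c.lt (c.v μ ν).head ν.head ∧ c.q μ (c.v μ ν) ∧ c.m (c.v μ ν) ν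
  t3' : ∀ μ ν μ' : Nm K, μ.wf c.lt → ν.wf c.lt → μ'.wf c.lt → c.lt μ'.head ν.head →
    c.q μ μ' → c.m μ' ν → c.m μ ν
  t4 : ∀ μ ν μ' : Nm K, μ.wf c.lt → ν.wf c.lt → μ'.wf c.lt → c.q μ ν → (c.m μ' μ ↔ c.m μ' ν)
  t4' : ∀ μ ν : Nm K, μ.wf c.lt → ν.wf c.lt → ¬ c.q μ ν →
    (c.d μ ν).wf c.lt ∧ (c.lt (c.d μ ν).head μ.head ∨ c.lt (c.d μ ν).head ν.head) ∧
      ¬ (c.m (c.d μ ν) μ ↔ c.m (c.d μ ν) ν)
  h0m : ∀ μ ν : Nm K, μ.wf (· < ·) → ν.wf (· < ·) →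
    (c.m (μ.map c.g) (ν.map c.g) ↔ F (graph r) (μ.map od) ∈ F (graph r) (ν.map od))
  h0q : ∀ μ ν : Nm K, μ.wf (· < ·) → ν.wf (· < ·) →
    (c.q (μ.map c.g) (ν.map c.g) ↔ F (graph r) (μ.map od) = F (graph r) (ν.map od))
  h0a : ∀ ν : Nm K, ν.wf (· < ·) →
    (c.a (ν.map c.g) ↔ F (graph r) (ν.map od) ∈ graph r)
  ha1 : ∀ ν : Nm K, ν.wf c.lt → c.a ν →
    c.q ν ((prn (graph r) (c.aw ν) (r (c.aw ν))).map c.g)
  ha2 : ∀ (ν : Nm K) (i : K), ν.wf c.lt → c.q ν ((prn (graph r) i (r i)).map c.g) → c.a ν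
  nuwf : c.nu.wf c.lt
  top : ∀ k, c.lt k c.nu.head ∨ k = c.nu.head
  W1 : ∀ i, i ≤ c.w1 i
  W2 : ∀ i, c.m ((prn (graph r) (c.w1 i) (c.w2 i)).map c.g) c.nu
  W3 : ∀ i j, j < c.w2 i → ¬ c.m ((prn (graph r) (c.w1 i) j).map c.g) c.nu
  W4 : ∀ i, x (c.w1 i) ≤ c.w2 i
  mn : ∀ (ν : Nm K) (i j : K), ν.wf c.lt →
    (c.lt ν.head c.nu.head ∨ (ν.head = c.nu.head ∧ ltN c.lt ν c.nu)) → c.w0 ν ≤ i →
    c.m ((prn (graph r) i j).map c.g) ν →
    (∀ j' < j, ¬ c.m ((prn (graph r) i j').map c.g) ν) → j < x i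

end Pool.Agent.helper82.LV
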