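import Mathlib

/-!
The relative constructible hierarchy `L_α[A]` inside `ZFSet`, for a set `A` used as a unary
predicate.
-/

set_option autoImplicit false

universe u

namespace Pool.Agent.helper82.LV

open FirstOrder ZFSet

/-- Relation symbols of the language of set theory with one extra unary predicate. -/
inductive SRel : ℕ → Type
  | mem : SRel 2
  | prd : SRel 1

/-- The first-order language with a binary symbol (membership) and a unary predicate. -/
def lang : FirstOrder.Language.{0, 0} := ⟨fun _ => Empty, SRel⟩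

/-- The structure `(M, ∈, A ∩ M)`. -/
@[reducible] def str (A M : ZFSet.{u}) : lang.Structure {z : ZFSet.{u} // z ∈ M} where
  funMap := fun f => f.elim
  RelMap := fun {_} R => match R with
    | .mem => fun xs => (xs 0).1 ∈ (xs 1).1
    | .prd => fun xs => (xs 0).1 ∈ A

/-- `X` is a subset of `M` first-order definable, with parameters, over `(M, ∈, A ∩ M)`. -/
def DefOver (A M X : ZFSet.{u}) : Prop :=
  X ⊆ M ∧ ∃ (n : ℕ) (φ : lang.BoundedFormula Empty (n + 1)) (p : Fin n → {z : ZFSet.{u} // z ∈ M}),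
    ∀ z : {z : ZFSet.{u} // z ∈ M},
      z.1 ∈ X ↔ @FirstOrder.Language.BoundedFormula.Realize lang _ (str A M) _ _ φ Empty.elim
        (Fin.snoc (α := fun _ => {z : ZFSet.{u} // z ∈ M}) p z)

/-- The definable power set of `(M, ∈, A ∩ M)`. -/
noncomputable def DefSet (A M : ZFSet.{u}) : ZFSet.{u} :=
  ZFSet.sep (fun X => DefOver A M X) (powerset M)

/-- `L_α[A]`, as the union of the definable power sets of the earlier levels. -/
noncomputable def Lev (A : ZFSet.{u}) (α : Ordinal.{u}) : ZFSet.{u} :=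
  ZFSet.sUnion (ZFSet.range (fun β : Set.Iio α => DefSet A (Lev A β.1)))
termination_by α
decreasing_by exact β.2

/-- `X` belongs to `L[A]`. -/
def InL (A X : ZFSet.{u}) : Prop := ∃ α : Ordinal.{u}, X ∈ Lev A α

theorem mem_DefSet {A M X : ZFSet.{u}} : X ∈ DefSet A M ↔ DefOver A M X := by
  unfold DefSet
  rw [ZFSet.mem_sep, ZFSet.mem_powerset]
  exact ⟨fun h => h.2, fun h => ⟨h.1, h⟩⟩

theorem mem_Lev {A X : ZFSet.{u}} {α : Ordinal.{u}} :
    X ∈ Lev A α ↔ ∃ β < α, DefOver A (Lev A β) X := by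
  rw [Lev]
  simp only [ZFSet.mem_sUnion, ZFSet.mem_range]
  constructor
  · rintro ⟨z, ⟨⟨β, hβ⟩, rfl⟩, hX⟩
    exact ⟨β, hβ, mem_DefSet.1 hX⟩
  · rintro ⟨β, hβ, hX⟩
    exact ⟨_, ⟨⟨β, hβ⟩, rfl⟩, mem_DefSet.2 hX⟩

/-! ### Satisfaction with environments in `ZFSet` -/

/-- The index of the variable which a term is. -/
def tv {n : ℕ} : lang.Term (Empty ⊕ Fin n) → Fin n
  | .var (.inl e) => e.elim
  | .var (.inr i) => i
  | .func f _ => f.elim

/-- Satisfaction in `(M, ∈, A ∩ M)`, the environment being a tuple of sets. -/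
def Sat (A M : ZFSet.{u}) : {n : ℕ} → lang.BoundedFormula Empty n → (Fin n → ZFSet.{u}) → Prop
  | _, .falsum, _ => False
  | _, .equal s t, e => e (tv s) = e (tv t)
  | _, .rel R ts, e => match R, ts with
    | .mem, ts => e (tv (ts 0)) ∈ e (tv (ts 1))
    | .prd, ts => e (tv (ts 0)) ∈ A
  | _, .imp φ ψ, e => Sat A M φ e → Sat A M ψ e
  | _, .all φ, e => ∀ z ∈ M, Sat A M φ (Fin.snoc (α := fun _ => ZFSet.{u}) e z)

theorem realize_tv {A M : ZFSet.{u}} {n : ℕ} (t : lang.Term (Empty ⊕ Fin n))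
    (e : Fin n → {z : ZFSet.{u} // z ∈ M}) :
    @FirstOrder.Language.Term.realize lang _ (str A M) _ (Sum.elim Empty.elim e) t = e (tv t) := by
  match t with
  | .var (.inl e) => exact e.elim
  | .var (.inr i) => rfl
  | .func f _ => exact f.elim

theorem snoc_val {M : ZFSet.{u}} {n : ℕ} (e : Fin n → {z : ZFSet.{u} // z ∈ M})
    (z : {z : ZFSet.{u} // z ∈ M}) :
    (fun i => (Fin.snoc (α := fun _ => {z : ZFSet.{u} // z ∈ M}) e z i).1) =
      Fin.snoc (α := fun _ => ZFSet.{u}) (fun i => (e i).1) z.1 := by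
  funext i
  refine Fin.lastCases ?_ (fun j => ?_) i
  · simp
  · simp

theorem sat_iff_realize {A M : ZFSet.{u}} {n : ℕ} (φ : lang.BoundedFormula Empty n) :
    ∀ (e : Fin n → {z : ZFSet.{u} // z ∈ M}),
    Sat A M φ (fun i => (e i).1) ↔
      @FirstOrder.Language.BoundedFormula.Realize lang _ (str A M) _ _ φ Empty.elim e := by
  induction φ with
  | falsum => intro e; exact Iff.rfl
  | equal s t =>
    intro e
    simp only [Sat, FirstOrder.Language.BoundedFormula.Realize, realize_tv]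
    exact ⟨fun h => Subtype.ext h, fun h => congrArg _ h⟩
  | rel R ts =>
    intro e
    cases R with
    | mem =>
      simp only [Sat, FirstOrder.Language.BoundedFormula.Realize, realize_tv]
      exact Iff.rfl
    | prd =>
      simp only [Sat, FirstOrder.Language.BoundedFormula.Realize, realize_tv]
      exact Iff.rfl
  | imp φ ψ h1 h2 =>
    intro e
    simp only [Sat, FirstOrder.Language.BoundedFormula.Realize]
    rw [h1, h2]
  | all φ h =>
    intro e
    simp only [Sat, FirstOrder.Language.BoundedFormula.Realize]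
    constructor
    · intro H z
      rw [← h, snoc_val]
      exact H z.1 z.2
    · intro H z hz
      have h3 := (h _).2 (H ⟨z, hz⟩)
      rw [snoc_val] at h3
      exact h3

/-- Definability in terms of `Sat`. -/
theorem defOver_iff {A M X : ZFSet.{u}} : DefOver A M X ↔ X ⊆ M ∧
    ∃ (n : ℕ) (φ : lang.BoundedFormula Empty (n + 1)) (p : Fin n → ZFSet.{u}),
      (∀ i, p i ∈ M) ∧ ∀ z ∈ M, z ∈ X ↔ Sat A M φ (Fin.snoc (α := fun _ => ZFSet.{u}) p z) := by
  constructor
  · rintro ⟨h0, n, φ, p, h⟩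
    refine ⟨h0, n, φ, fun i => (p i).1, fun i => (p i).2, fun z hz => ?_⟩
    have := h ⟨z, hz⟩
    rw [← sat_iff_realize, snoc_val] at this
    exact this
  · rintro ⟨h0, n, φ, p, hp, h⟩
    refine ⟨h0, n, φ, fun i => ⟨p i, hp i⟩, fun z => ?_⟩
    rw [← sat_iff_realize, snoc_val]
    exact h z.1 z.2

/-! ### Basic facts on the hierarchy -/

theorem sat_congr {A M : ZFSet.{u}} {n : ℕ} {φ : lang.BoundedFormula Empty n}
    {e e' : Fin n → ZFSet.{u}} (h : e = e') : Sat A M φ e ↔ Sat A M φ e' := by rw [h]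

theorem Lev_mono {A : ZFSet.{u}} {α β : Ordinal.{u}} (h : α ≤ β) : Lev A α ⊆ Lev A β := by
  intro X hX
  rw [mem_Lev] at hX ⊢
  obtain ⟨γ, hγ, h2⟩ := hX
  exact ⟨γ, hγ.trans_le h, h2⟩

theorem Lev_trans (A : ZFSet.{u}) (α : Ordinal.{u}) {X z : ZFSet.{u}} (hX : X ∈ Lev A α)
    (hz : z ∈ X) : z ∈ Lev A α := by
  rw [mem_Lev] at hX
  obtain ⟨β, hβ, h2⟩ := hX
  exact Lev_mono hβ.le (h2.1 hz)

theorem Lev_transitive (A : ZFSet.{u}) (α : Ordinal.{u}) : (Lev A α).IsTransitive :=
  fun _ hX _ hz => Lev_trans A α hX hz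

theorem rank_lt_of_mem_Lev {A : ZFSet.{u}} (α : Ordinal.{u}) :
    ∀ {X : ZFSet.{u}}, X ∈ Lev A α → X.rank < α := by
  induction α using WellFoundedLT.induction with
  | ind α ih =>
    intro X hX
    rw [mem_Lev] at hX
    obtain ⟨β, hβ, h2⟩ := hX
    refine lt_of_le_of_lt ?_ hβ
    rw [ZFSet.rank_le_iff]
    intro z hz
    exact ih β hβ (h2.1 hz)

end Pool.Agent.helper82.LV
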