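import Pool.Agent.helper82.LV.Laver2

/-!
Null and meager sets, and the combinatorial core.
-/

set_option autoImplicit false

universe u v

namespace Pool.Agent.helper82.LV

open Order Set Cardinal

variable {K : Type u} [LinearOrder K] [SuccOrder K]

theorem LNull.mono {A B : Set (K → K)} (h : LNull B) (hAB : A ⊆ B) : LNull A := by
  intro T hT
  obtain ⟨S, h1, h2, h3⟩ := h T hT
  refine ⟨S, h1, h2, ?_⟩
  rw [← subset_empty_iff, ← h3]
  exact inter_subset_inter_right _ hAB

theorem lnull_empty : LNull (∅ : Set (K → K)) := fun T hT => ⟨T, hT, Subset.rfl, inter_empty _⟩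

theorem LMeager.mono {A B : Set (K → K)} (h : LMeager B) (hAB : A ⊆ B) : LMeager A := by
  obtain ⟨N, h1, h2⟩ := h
  refine ⟨fun i => N i ∩ A, fun i => (h1 i).mono inter_subset_left, ?_⟩
  rw [← iUnion_inter, ← h2]
  exact (inter_eq_right.2 hAB).symm

variable [WellFoundedLT K] [RegK K]

theorem LNull.meager {A : Set (K → K)} (h : LNull A) : LMeager A := by
  have : Nonempty K := RegK.nonempty
  exact ⟨fun _ => A, fun _ => h, (iUnion_const A).symm⟩

theorem LMeager.iUnion {ι : Type u} (hι : #ι ≤ #K) {M : ι → Set (K → K)}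
    (h : ∀ i, LMeager (M i)) : LMeager (⋃ i, M i) := by
  classical
  choose N h1 h2 using h
  have h3 : #(ι × K) ≤ #K := by
    rw [mk_prod, lift_id, lift_id]
    exact (mul_le_mul' hι le_rfl).trans (mul_eq_self RegK.unc.le).le
  obtain ⟨g⟩ := h3
  refine ⟨fun k => if hk : ∃ p, g p = k then N hk.choose.1 hk.choose.2 else ∅, fun k => ?_, ?_⟩
  · dsimp only
    by_cases hk : ∃ p, g p = k
    · rw [dif_pos hk]
      exact h1 _ _
    · rw [dif_neg hk]
      exact lnull_empty
  · ext x
    simp only [mem_iUnion]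
    constructor
    · rintro ⟨i, hx⟩
      rw [h2 i, mem_iUnion] at hx
      obtain ⟨k, hk⟩ := hx
      have h4 : ∃ p, g p = g (i, k) := ⟨_, rfl⟩
      refine ⟨g (i, k), ?_⟩
      rw [dif_pos h4]
      have h5 := g.injective h4.choose_spec
      rw [h5]
      exact hk
    · rintro ⟨k, hk⟩
      by_cases h4 : ∃ p, g p = k
      · rw [dif_pos h4] at hk
        refine ⟨h4.choose.1, ?_⟩
        rw [h2, mem_iUnion]
        exact ⟨_, hk⟩
      · rw [dif_neg h4] at hk
        exact absurd hk (notMem_empty x)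

theorem LMeager.union {A B : Set (K → K)} (hA : LMeager A) (hB : LMeager B) :
    LMeager (A ∪ B) := by
  have h1 : #(ULift.{u} Bool) ≤ #K := by
    rw [mk_uLift, mk_bool]
    refine le_trans ?_ RegK.unc.le
    simp
  have h2 := LMeager.iUnion (K := K) h1 (M := fun b => if b.down then A else B) (by
    rintro ⟨_ | _⟩
    · exact hB
    · exact hA)
  refine h2.mono ?_
  rintro x (hx | hx)
  · exact mem_iUnion.2 ⟨⟨true⟩, hx⟩
  · exact mem_iUnion.2 ⟨⟨false⟩, hx⟩

theorem mk_node : #(Node K) ≤ #K := by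
  have h1 : #(Node K) ≤ #(Σ a : K, (Set.Iio a → K)) := by
    refine ⟨⟨fun s => ⟨s.len, s.val⟩, ?_⟩⟩
    rintro ⟨l, v⟩ ⟨l', v'⟩ h
    simp only [Sigma.mk.injEq] at h
    obtain ⟨rfl, h2⟩ := h
    rw [eq_of_heq h2]
  refine h1.trans ?_
  rw [mk_sigma]
  have h2 : ∀ a : K, #(Set.Iio a → K) ≤ #K := by
    intro a
    rw [← power_def]
    exact (le_powerlt _ (RegK.small a)).trans RegK.pow.le
  refine (sum_le_sum _ (fun _ => #K) h2).trans ?_
  rw [sum_const']
  exact (mul_eq_self RegK.unc.le).le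

/-- Functions not dominating `f` form a null set. -/
theorem null_of_bound (f : K → K) : LNull {x : K → K | ∀ i, ∃ i', i ≤ i' ∧ x i' ≤ f i'} := by
  intro T hT
  obtain ⟨x, a, h⟩ := hT.exists_lav
  let S : Set (Node K) := {t | t ∈ T ∧ ∀ i : Set.Iio t.len, a ≤ i.1 → f i.1 < t.val i}
  have hS : ∀ y b, restr y b ∈ S ↔ restr y b ∈ T ∧ ∀ i < b, a ≤ i → f i < y i := by
    intro y b
    constructor
    · rintro ⟨h1, h2⟩
      exact ⟨h1, fun i hi => h2 ⟨i, hi⟩⟩
    · rintro ⟨h1, h2⟩
      exact ⟨h1, fun i => h2 i.1 i.2⟩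
  have hL : Lav x a S := by
    refine ⟨?_, ?_, ?_, ?_, ?_, ?_⟩
    · intro y b hy
      exact h.mono y b hy.1
    · intro y b c hc hy
      rw [hS] at hy ⊢
      exact ⟨h.tree _ _ _ hc hy.1, fun i hi => hy.2 i (hi.trans_le hc)⟩
    · intro y b hb hy
      rw [hS]
      refine ⟨h.closed _ _ hb fun c hc => (hy c hc).1, fun i hi hai => ?_⟩
      exact ((hS _ _).1 (hy _ (hb.succ_lt hi))).2 i (lt_succ i) hai
    · rw [hS]
      exact ⟨h.mem, fun i hi hai => absurd hi (not_lt_of_ge hai)⟩
    · intro y b hy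
      exact h.cmp y b hy.1
    · intro y b hy hab
      have h1 := (h.club y b hy.1 hab).inter cof_ne (club_gt (fun _ => f b) (succ b))
      have h2 : {c : K | restr (upd y b c) (succ b) ∈ S} =
          {c : K | restr (upd y b c) (succ b) ∈ T} ∩ {c | ∀ i < succ b, f b < c} := by
        ext c
        change restr (upd y b c) (succ b) ∈ S ↔
          restr (upd y b c) (succ b) ∈ T ∧ ∀ i < succ b, f b < c
        rw [hS]
        refine and_congr_right fun _ => ?_
        constructor
        · intro h3 i _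
          have := h3 b (lt_succ b) hab
          rwa [upd_self] at this
        · intro h3 i hi hai
          rcases (lt_succ_iff.1 hi).lt_or_eq with h4 | h4
          · rw [upd_lt h4]
            exact ((hS _ _).1 hy).2 i h4 hai
          · subst h4
            rw [upd_self]
            exact h3 i hi
      rw [h2]
      exact h1
  refine ⟨S, hL.isLaver, fun t ht => ht.1, ?_⟩
  rw [eq_empty_iff_forall_notMem]
  rintro z ⟨h1, h2⟩
  obtain ⟨i', h3, h4⟩ := h2 a
  exact absurd (((hS _ _).1 (h1 (succ i'))).2 i' (lt_succ i') h3) (not_lt_of_ge h4)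

theorem exists_laver : ∃ T : Set (Node K), IsLaver T := by
  have hne : Nonempty K := RegK.nonempty
  let a : K := (wellFounded_lt (α := K)).min univ ⟨Classical.arbitrary K, trivial⟩
  have ha : ∀ b, ¬ b < a := fun b => WellFounded.not_lt_min _ (s := univ) trivial
  have h := Lav.interI (K := K) (ι := PEmpty) (by rw [mk_pempty]; exact aleph0_pos.trans RegK.unc)
    (T := fun _ => ∅) (x := fun k => k) (a := a) (fun i j _ hj => absurd hj (ha _))
    (fun i => i.elim) (fun i => i.elim)
  exact ⟨_, h.isLaver⟩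

theorem not_meager_body {T : Set (Node K)} (hT : IsLaver T) : ¬ LMeager (body T) := by
  rintro ⟨N, h1, h2⟩
  obtain ⟨z, h3, h4⟩ := baire hT h1
  rw [h2, mem_iUnion] at h3
  obtain ⟨i, hi⟩ := h3
  exact h4 i hi

theorem not_meager_univ : ¬ LMeager (univ : Set (K → K)) := by
  intro h
  obtain ⟨T, hT⟩ := exists_laver (K := K)
  exact not_meager_body hT (h.mono (subset_univ _))

theorem LMeas.diff {A B : Set (K → K)} (hA : LMeas A) (hB : LMeas B) : LMeas (A \ B) := by
  intro T hT
  obtain ⟨S, h1, h2, h3⟩ := hA T hT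
  obtain ⟨S', h4, h5, h6⟩ := hB S h1
  refine ⟨S', h4, h5.trans h2, ?_⟩
  have hb : body S' ⊆ body S := fun z hz b => h5 (hz b)
  rcases h3 with h3 | h3
  · rcases h6 with h6 | h6
    · right
      refine h6.mono ?_
      rintro z ⟨hz, _, hz2⟩
      exact ⟨hz, hz2⟩
    · left
      refine (h3.union h6).mono ?_
      rintro z ⟨hz, hz2⟩
      by_cases hz3 : z ∈ A
      · right
        refine ⟨hz, ?_⟩
        by_contra h7
        exact hz2 ⟨hz3, h7⟩
      · left
        exact ⟨hb hz, hz3⟩
  · right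
    refine h3.mono ?_
    rintro z ⟨hz, hz2, _⟩
    exact ⟨hb hz, hz2⟩

/-- A measurable non-meager set contains most of the branches of a Laver tree. -/
theorem exists_mostly {A : Set (K → K)} (hA : LMeas A) (hn : ¬ LMeager A) :
    ∃ x a S, Lav x a S ∧ LMeager (body S \ A) := by
  classical
  by_contra hcon
  push Not at hcon
  apply hn
  have h1 : ∀ T : Set (Node K), IsLaver T → ∃ x a S, Lav x a S ∧ S ⊆ T ∧ LMeager (body S ∩ A) := by
    intro T hT
    obtain ⟨S, h1, h2, h3⟩ := hA T hT
    obtain ⟨x, a, hS⟩ := h1.exists_lav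
    exact ⟨x, a, S, hS, h2, h3.resolve_left (hcon x a S hS)⟩
  let P : Node K → Set (Node K) → Prop := fun s S =>
    (∃ x a, s = restr x a ∧ Lav x a S) ∧ LMeager (body S ∩ A)
  let M : Node K → Set (Node K) := fun s => if h : ∃ S, P s S then h.choose else ∅
  have hM : ∀ s, LMeager (body (M s) ∩ A) := by
    intro s
    by_cases h : ∃ S, P s S
    · have : M s = h.choose := dif_pos h
      rw [this]
      exact h.choose_spec.2
    · have h2 : M s = ∅ := dif_neg h
      rw [h2]
      refine lnull_empty.meager.mono ?_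
      rintro z ⟨hz, _⟩
      obtain ⟨k⟩ : Nonempty K := RegK.nonempty
      exact hz k
  have hN : LNull (A \ ⋃ s, body (M s)) := by
    intro T hT
    obtain ⟨x, a, S, hS, hST, hSA⟩ := h1 T hT
    have h2 : ∃ S, P (restr x a) S := ⟨S, ⟨x, a, rfl, hS⟩, hSA⟩
    have h3 : M (restr x a) = h2.choose := dif_pos h2
    obtain ⟨⟨x', a', h4, h5⟩, _⟩ := h2.choose_spec
    obtain ⟨h6, h7⟩ := restr_eq_iff.1 h4
    subst h6
    rw [← h3] at h5
    have h8 : Lav x a (M (restr x a)) := h5.cong fun i hi => (h7 i hi).symm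
    refine ⟨S ∩ M (restr x a), (hS.inter h8).isLaver, fun t ht => hST ht.1, ?_⟩
    rw [eq_empty_iff_forall_notMem]
    rintro z ⟨h9, _, h10⟩
    exact h10 (mem_iUnion.2 ⟨restr x a, fun b => (h9 b).2⟩)
  refine (hN.meager.union (LMeager.iUnion mk_node hM)).mono ?_
  intro z hz
  by_cases h : z ∈ ⋃ s, body (M s)
  · right
    rw [mem_iUnion] at h ⊢
    obtain ⟨s, hs⟩ := h
    exact ⟨s, hs, hz⟩
  · left
    exact ⟨hz, h⟩

/-- The combinatorial core. -/
theorem comb {Tt : Type u} (hT : #Tt ≤ #K) {E : Type u} (hE : #K < #E)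
    (D : Tt → E → Set (K → K)) (hdisj : ∀ t e e', e ≠ e' → ∀ x, x ∈ D t e → x ∉ D t e')
    (hm : ∀ t e, LMeas (D t e)) (hs : ∀ e, LMeager {x | ∀ t, x ∉ D t e}) : False := by
  have h1 : ∀ e, ∃ t x a S, Lav x a S ∧ LMeager (body S \ D t e) := by
    intro e
    by_contra hcon
    have h2 : ∀ t, LMeager (D t e) := by
      intro t
      by_contra h3
      obtain ⟨x, a, S, h4⟩ := exists_mostly (hm t e) h3
      exact hcon ⟨t, x, a, S, h4⟩
    apply not_meager_univ (K := K)
    refine ((hs e).union (LMeager.iUnion hT h2)).mono ?_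
    intro z _
    by_cases h : ∀ t, z ∉ D t e
    · exact Or.inl h
    · right
      push Not at h
      exact mem_iUnion.2 h
  choose t x a S hS hSm using h1
  have h2 : ¬ Function.Injective (fun e => (t e, restr (x e) (a e))) := by
    intro hinj
    have h3 := mk_le_of_injective hinj
    rw [mk_prod, lift_id, lift_id] at h3
    have h4 := h3.trans ((mul_le_mul' hT mk_node).trans (mul_eq_self RegK.unc.le).le)
    exact absurd hE (not_lt_of_ge h4)
  unfold Function.Injective at h2
  push Not at h2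
  obtain ⟨e, e', h3, h4⟩ := h2
  simp only [Prod.mk.injEq] at h3
  obtain ⟨h5, h6⟩ := h3
  obtain ⟨h7, h8⟩ := restr_eq_iff.1 h6
  have h9 : Lav (x e) (a e) (S e') := by
    rw [h7]
    exact (hS e').cong fun i hi => (h8 i (h7 ▸ hi)).symm
  have h10 := ((hS e).inter h9).isLaver
  apply not_meager_body h10
  refine ((hSm e).union (hSm e')).mono ?_
  intro z hz
  by_cases h11 : z ∈ D (t e) e
  · right
    refine ⟨fun b => (hz b).2, ?_⟩
    rw [← h5]
    exact hdisj _ _ _ h4 z h11
  · left
    exact ⟨fun b => (hz b).1, h11⟩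

end Pool.Agent.helper82.LV
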