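import Pool.Agent.helper82.LV.Cond
import Pool.Agent.helper82.LV.Laver3

/-!
The least name and its hull.
-/

set_option autoImplicit false

universe u v w

namespace Pool.Agent.helper82.LV

open FirstOrder ZFSet Nm Order Cardinal

/-! ### Ranks -/

section rho

variable {Tt : Type u}

instance instWfH (H : Tt → Ordinal.{u}) : IsWellFounded Tt (fun a b => H a < H b) :=
  ⟨InvImage.wf H wellFounded_lt⟩

/-- The position of `t` in the order of values of `H`. -/
noncomputable def rho (H : Tt → Ordinal.{u}) (t : Tt) : Ordinal.{u} :=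
  IsWellFounded.rank (fun a b => H a < H b) t

variable {H : Tt → Ordinal.{u}}

theorem rho_lt {a b : Tt} (h : H a < H b) : rho H a < rho H b :=
  IsWellFounded.rank_lt_of_rel (r := fun a b => H a < H b) h

theorem rho_le_of {a : Tt} {o : Ordinal.{u}} (h : ∀ c, H c < H a → rho H c < o) : rho H a ≤ o := by
  unfold rho
  rw [IsWellFounded.rank_eq]
  refine Ordinal.iSup_le ?_
  rintro ⟨c, hc⟩
  exact succ_le_of_lt (h c hc)

theorem rho_le {a b : Tt} (h : H a ≤ H b) : rho H a ≤ rho H b :=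
  rho_le_of fun _ hc => rho_lt (hc.trans_le h)

theorem rho_lt_iff {a b : Tt} : rho H a < rho H b ↔ H a < H b := by
  constructor
  · intro h
    by_contra h1
    push Not at h1
    exact absurd h (not_lt_of_ge (rho_le h1))
  · exact rho_lt

theorem exists_rho {t : Tt} {β : Ordinal.{u}} (h : β ≤ rho H t) : ∃ t', rho H t' = β :=
  IsWellFounded.mem_range_rank_of_le (r := fun a b => H a < H b) h

theorem card_rho (t : Tt) : (rho H t).card ≤ #Tt := by
  have h1 : ∀ i : (rho H t).ToType, ∃ t', rho H t' = Ordinal.typein (α := (rho H t).ToType)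
      (· < ·) i := fun i => exists_rho (Ordinal.typein_lt_self i).le
  choose f hf using h1
  have h2 : Function.Injective f := by
    intro i j hij
    have h3 := hf i
    rw [hij, hf j] at h3
    exact (Ordinal.typein_injective _ h3).symm
  have h3 := mk_le_of_injective h2
  rwa [mk_toType] at h3

end rho

/-! ### Ordinals below the type of `K` -/

section od

variable {K : Type u} [LinearOrder K] [WellFoundedLT K]

/-- The ordinal of an element of a well-order. -/
noncomputable def od (k : K) : Ordinal.{u} := Ordinal.typein (α := K) (· < ·) k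

/-- The type of `K`. -/
noncomputable def kap (K : Type u) [LinearOrder K] [WellFoundedLT K] : Ordinal.{u} :=
  Ordinal.type (α := K) (· < ·)

theorem od_lt_iff {i j : K} : od i < od j ↔ i < j := Ordinal.typein_lt_typein (α := K) (· < ·)

theorem od_inj : Function.Injective (od : K → Ordinal.{u}) := Ordinal.typein_injective _

theorem od_lt (k : K) : od k < kap K := Ordinal.typein_lt_type _ k

theorem exists_od {β : Ordinal.{u}} (h : β < kap K) : ∃ k : K, od k = β :=
  Ordinal.typein_surj (α := K) (· < ·) h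

theorem kap_limit [RegK K] : IsSuccLimit (kap K) := by
  obtain ⟨k⟩ : Nonempty K := RegK.nonempty
  refine ⟨fun h => ?_, fun β hβ => ?_⟩
  · exact absurd (h (od_lt k).le) (not_le_of_gt (od_lt k))
  · obtain ⟨i, hi⟩ := exists_od hβ.lt
    obtain ⟨j, hj⟩ := exists_gt' i
    have h1 : succ β ≤ od j := by
      rw [succ_le_iff, ← hi]
      exact od_lt_iff.2 hj
    rw [hβ.succ_eq] at h1
    exact absurd (od_lt j) (not_lt_of_ge h1)

/-- The graph of `y`, as a set. -/
noncomputable def graph (y : K → K) : ZFSet.{u} :=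
  ZFSet.range (fun i : K => ZFSet.pair (od i).toZFSet (od (y i)).toZFSet)

/-- A pair of elements of `K`, as a set. -/
noncomputable def opr (i j : K) : ZFSet.{u} := ZFSet.pair (od i).toZFSet (od j).toZFSet

theorem mem_graph {y : K → K} {z : ZFSet.{u}} : z ∈ graph y ↔ ∃ i, opr i (y i) = z := by
  unfold graph opr
  rw [ZFSet.mem_range]

theorem opr_inj {i j i' j' : K} (h : opr i j = opr i' j') : i = i' ∧ j = j' := by
  unfold opr at h
  have := ZFSet.pair_injective h
  exact ⟨od_inj (Ordinal.toZFSet_injective this.1), od_inj (Ordinal.toZFSet_injective this.2)⟩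

theorem opr_mem_graph {y : K → K} {i j : K} : opr i j ∈ graph y ↔ y i = j := by
  rw [mem_graph]
  constructor
  · rintro ⟨i', h⟩
    obtain ⟨rfl, h2⟩ := opr_inj h
    exact h2
  · rintro rfl
    exact ⟨i, rfl⟩

theorem opr_mem_Lev [RegK K] {A : ZFSet.{u}} (i j : K) : opr i j ∈ Lev A (kap K) :=
  opair_ord_mem_Lev kap_limit (od_lt i) (od_lt j)

/-- `x` does not dominate the function coded by `Y`. -/
def WW (x : K → K) (P : K → K → Prop) : Prop :=
  ∀ i, ∃ i', i ≤ i' ∧ ∃ j, P i' j ∧ (∀ j' < j, ¬ P i' j') ∧ x i' ≤ j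

theorem WW_null [SuccOrder K] [RegK K] (P : K → K → Prop) : LNull {x : K → K | WW x P} := by
  classical
  have h : ∀ i, ∃ f : K, ∀ j, P i j → (∀ j' < j, ¬ P i j') → j ≤ f := by
    intro i
    by_cases h1 : ∃ j, P i j ∧ ∀ j' < j, ¬ P i j'
    · obtain ⟨j, h2, h3⟩ := h1
      refine ⟨j, fun j' h4 h5 => ?_⟩
      by_contra h6
      push Not at h6
      exact h5 j h6 h2
    · refine ⟨i, fun j h2 h3 => absurd ⟨j, h2, h3⟩ h1⟩
  choose f hf using h
  refine (null_of_bound f).mono ?_
  intro x hx i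
  obtain ⟨i', h1, j, h2, h3, h4⟩ := hx i
  exact ⟨i', h1, h4.trans (hf i' j h2 h3)⟩

end od

/-! ### The least name -/

/-- The order of names. -/
def hltN {I : Type v} (lt : I → I → Prop) (μ ν : Nm I) : Prop :=
  lt μ.head ν.head ∨ (μ.head = ν.head ∧ ltN lt μ ν)

theorem hltN_wf {I : Type v} {lt : I → I → Prop} (h : WellFounded lt) : WellFounded (hltN lt) := by
  have h1 : WellFounded (Prod.Lex lt (ltN lt)) := WellFounded.prod_lex h (ltN_wf h)
  have h2 := InvImage.wf (fun ν : Nm I => (ν.head, ν)) h1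
  refine Subrelation.wf ?_ h2
  intro μ ν h
  change Prod.Lex lt (ltN lt) _ _
  rw [Prod.lex_def]
  exact h

theorem hltN_trich (μ ν : Nm Ordinal.{u}) :
    hltN (· < ·) μ ν ∨ μ = ν ∨ hltN (· < ·) ν μ := by
  rcases lt_trichotomy μ.head ν.head with h | h | h
  · exact Or.inl (Or.inl h)
  · rcases ltN_trich (lt := fun a b : Ordinal.{u} => a < b) ord_trich μ ν with h1 | h1 | h1
    · exact Or.inl (Or.inr ⟨h, h1⟩)
    · exact Or.inr (Or.inl h1)
    · exact Or.inr (Or.inr (Or.inr ⟨h.symm, h1⟩))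
  · exact Or.inr (Or.inr (Or.inl h))

theorem hltN_map {I : Type v} {J : Type w} {lt : I → I → Prop} {lt' : J → J → Prop} {f : I → J}
    (h : ∀ a b, lt a b ↔ lt' (f a) (f b)) (hf : Function.Injective f) (μ ν : Nm I) :
    hltN lt' (μ.map f) (ν.map f) ↔ hltN lt μ ν := by
  unfold hltN
  rw [head_map, head_map, ltN_map h hf, ← h, hf.eq_iff]

section hull

variable {K : Type u} [LinearOrder K] [WellFoundedLT K]

/-- Being a name which witnesses that `x` is not dominating. -/
def Bad (A : ZFSet.{u}) (x : K → K) (ν : Nm Ordinal.{u}) : Prop :=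
  Wf ν ∧ WW x (fun i j => opr i j ∈ F A ν)

open Classical in
/-- The least bad name. -/
noncomputable def nu0 (A : ZFSet.{u}) (x : K → K) : Nm Ordinal.{u} :=
  if h : ∃ ν, Bad A x ν then
    (hltN_wf (wellFounded_lt (α := Ordinal.{u}))).min {ν | Bad A x ν} h
  else .mk 0 0 .falsum Fin.elim0

variable {A : ZFSet.{u}} {x : K → K}

theorem nu0_bad (h : ∃ ν, Bad A x ν) : Bad A x (nu0 A x) := by
  unfold nu0
  rw [dif_pos h]
  exact WellFounded.min_mem _ {ν | Bad A x ν} h

theorem nu0_min {ν : Nm Ordinal.{u}} (h : Bad A x ν) : ¬ hltN (· < ·) ν (nu0 A x) := by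
  unfold nu0
  rw [dif_pos ⟨ν, h⟩]
  exact WellFounded.not_lt_min _ (s := {ν | Bad A x ν}) h

theorem nu0_unique {ν : Nm Ordinal.{u}} (h : Bad A x ν)
    (hmin : ∀ μ, Bad A x μ → ¬ hltN (· < ·) μ ν) : ν = nu0 A x := by
  rcases hltN_trich ν (nu0 A x) with h1 | h1 | h1
  · exact absurd h1 (nu0_min h)
  · exact h1
  · exact absurd h1 (hmin _ (nu0_bad ⟨ν, h⟩))

theorem rank_opr_gt (i j : K) : od i < (opr i j).rank := by
  unfold opr
  have h1 : (od i).toZFSet.rank < ({(od i).toZFSet} : ZFSet.{u}).rank :=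
    ZFSet.rank_lt_of_mem (by simp)
  have h2 : ({(od i).toZFSet} : ZFSet.{u}).rank <
      (ZFSet.pair (od i).toZFSet (od j).toZFSet).rank :=
    ZFSet.rank_lt_of_mem (by simp [ZFSet.pair])
  rw [Ordinal.rank_toZFSet] at h1
  exact h1.trans h2

theorem kap_le_head {ν : Nm Ordinal.{u}} (h : Bad A x ν) : kap K ≤ ν.head := by
  by_contra h1
  push Not at h1
  obtain ⟨i, hi⟩ := exists_od h1
  obtain ⟨i', h2, j, h3, _⟩ := h.2 i
  have h4 := rank_lt_of_mem_Lev _ (F_subset ν h3)
  have h5 := (rank_opr_gt i' j).trans h4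
  rw [← hi, od_lt_iff] at h5
  exact absurd h5 (not_lt_of_ge h2)

/-! ### The hull -/

section enum

variable (K) [RegK K]

omit [WellFoundedLT K] in
theorem exists_surj_of_card {β : Type u} [Nonempty β] (h : #β ≤ #K) :
    ∃ f : K → β, Function.Surjective f := by
  obtain ⟨g⟩ := h
  exact ⟨Function.invFun g, Function.invFun_surjective g.injective⟩

omit [WellFoundedLT K] in
theorem exists_e0 : ∃ f : K → K ⊕ ℕ, Function.Surjective f := by
  have : Nonempty K := RegK.nonempty
  apply exists_surj_of_card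
  rw [mk_sum, mk_nat, lift_aleph0, lift_uzero]
  exact (add_le_add le_rfl RegK.unc.le).trans (add_eq_self RegK.unc.le).le

omit [WellFoundedLT K] in
theorem mk_nm : #(Nm K) ≤ #K := card_le.trans (max_le le_rfl RegK.unc.le)

omit [WellFoundedLT K] in
theorem exists_psi : ∃ f : K → K ⊕ (Nm K × ℕ), Function.Surjective f := by
  have : Nonempty K := RegK.nonempty
  apply exists_surj_of_card
  have h1 : #(Nm K × ℕ) ≤ #K := by
    rw [mk_prod, mk_nat, lift_aleph0, lift_uzero]
    exact (mul_le_mul' (mk_nm K) RegK.unc.le).trans (mul_eq_self RegK.unc.le).le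
  rw [mk_sum, lift_id, lift_id]
  exact (add_le_add le_rfl h1).trans (add_eq_self RegK.unc.le).le

/-- A surjection. -/
noncomputable def e0 : K → K ⊕ ℕ := (exists_e0 K).choose

/-- A surjection. -/
noncomputable def psi : K → K ⊕ (Nm K × ℕ) := (exists_psi K).choose

omit [WellFoundedLT K] in
theorem e0_surj : Function.Surjective (e0 K) := (exists_e0 K).choose_spec

omit [WellFoundedLT K] in
theorem psi_surj : Function.Surjective (psi K) := (exists_psi K).choose_spec

end enum

end hull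

/-- The `j`-th level of a name. -/
def getL {I : Type v} (ν : Nm I) (j : ℕ) : I := ν.levels.getD j ν.head

theorem getL_mem {I : Type v} (ν : Nm I) (j : ℕ) : getL ν j ∈ ν.levels := by
  unfold getL
  by_cases h : j < ν.levels.length
  · rw [List.getD_eq_getElem _ _ h]
    exact List.getElem_mem h
  · rw [List.getD_eq_default _ _ (not_lt.1 h)]
    exact head_mem_levels ν

theorem exists_getL {I : Type v} {ν : Nm I} {a : I} (h : a ∈ ν.levels) : ∃ j, getL ν j = a := by
  obtain ⟨j, hj, h1⟩ := List.mem_iff_getElem.1 h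
  refine ⟨j, ?_⟩
  unfold getL
  rw [List.getD_eq_getElem _ _ hj, h1]

theorem getL_map {I : Type v} {J : Type w} (f : I → J) (ν : Nm I) (j : ℕ) :
    getL (ν.map f) j = f (getL ν j) := by
  unfold getL
  rw [levels_map, head_map, List.getD_map]

section hull2

variable {K : Type u} [LinearOrder K] [WellFoundedLT K] [RegK K]

open Classical in
/-- The enumeration of the hull of the levels of `ν0`. -/
noncomputable def Hs (A : ZFSet.{u}) (ν0 : Nm Ordinal.{u}) : ℕ → K → Ordinal.{u}
  | 0, k => match e0 K k with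
    | .inl i => od i
    | .inr j => getL ν0 j
  | n + 1, k => match psi K k with
    | .inl i => Hs A ν0 n i
    | .inr (μ, j) =>
      if Wf (μ.map (Hs A ν0 n)) ∧ ∃ μ', MemN A (μ.map (Hs A ν0 n)) μ' then
        getL (wst A (μ.map (Hs A ν0 n))) j else ν0.head

variable {A : ZFSet.{u}} {ν0 : Nm Ordinal.{u}}

theorem Hs_mono (n : ℕ) {a : Ordinal.{u}} (h : a ∈ Set.range (Hs (K := K) A ν0 n)) :
    a ∈ Set.range (Hs (K := K) A ν0 (n + 1)) := by
  obtain ⟨i, rfl⟩ := h
  obtain ⟨k, hk⟩ := psi_surj K (.inl i)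
  refine ⟨k, ?_⟩
  rw [Hs, hk]

theorem Hs_mono' {m n : ℕ} (hmn : m ≤ n) {a : Ordinal.{u}}
    (h : a ∈ Set.range (Hs (K := K) A ν0 m)) : a ∈ Set.range (Hs (K := K) A ν0 n) := by
  induction hmn with
  | refl => exact h
  | step _ ih => exact Hs_mono _ ih

/-- The enumeration of the hull, on all stages. -/
noncomputable def HH (K : Type u) [LinearOrder K] [WellFoundedLT K] [RegK K] (A : ZFSet.{u})
    (ν0 : Nm Ordinal.{u}) (t : ℕ × K) : Ordinal.{u} := Hs A ν0 t.1 t.2

theorem HH_od (i : K) : ∃ t, HH K A ν0 t = od i := by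
  obtain ⟨k, hk⟩ := e0_surj K (.inl i)
  refine ⟨(0, k), ?_⟩
  rw [HH, Hs, hk]

theorem HH_lev {a : Ordinal.{u}} (h : a ∈ ν0.levels) : ∃ t, HH K A ν0 t = a := by
  obtain ⟨j, hj⟩ := exists_getL h
  obtain ⟨k, hk⟩ := e0_surj K (.inr j)
  refine ⟨(0, k), ?_⟩
  rw [HH, Hs, hk]
  exact hj

theorem HH_closed : ClJ A (Set.range (HH K A ν0)) := by
  intro ν hν hm
  have h1 : ∀ l : List Ordinal.{u}, (∀ a ∈ l, a ∈ Set.range (HH K A ν0)) →
      ∃ n, ∀ a ∈ l, a ∈ Set.range (Hs (K := K) A ν0 n) := by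
    intro l
    induction l with
    | nil => intro _; exact ⟨0, fun a ha => absurd ha (List.not_mem_nil)⟩
    | cons b l ih =>
      intro h
      obtain ⟨n, hn⟩ := ih fun a ha => h a (List.mem_cons_of_mem _ ha)
      obtain ⟨⟨m, k⟩, hk⟩ := h b List.mem_cons_self
      refine ⟨max m n, fun a ha => ?_⟩
      rcases List.mem_cons.1 ha with rfl | ha
      · exact Hs_mono' (le_max_left m n) ⟨k, hk⟩
      · exact Hs_mono' (le_max_right m n) (hn a ha)
  obtain ⟨n, hn⟩ := h1 ν.levels (mem_levels_iff_all.1 hν.2)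
  obtain ⟨μ, hμ⟩ := exists_map (f := Hs (K := K) A ν0 n) (mem_levels_iff_all.2 hn)
  rw [mem_levels_iff_all]
  intro a ha
  obtain ⟨j, hj⟩ := exists_getL ha
  obtain ⟨k, hk⟩ := psi_surj K (.inr (μ, j))
  refine ⟨(n + 1, k), ?_⟩
  rw [HH, Hs, hk]
  dsimp only
  rw [hμ, if_pos ⟨hν.1, hm⟩]
  exact hj

/-- The collapse of the hull. -/
noncomputable def colH (K : Type u) [LinearOrder K] [WellFoundedLT K] [RegK K] (A : ZFSet.{u})
    (ν0 : Nm Ordinal.{u}) (i : Set.range (HH K A ν0)) : Ordinal.{u} :=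
  rho (HH K A ν0) i.2.choose

theorem colH_eq {i : Set.range (HH K A ν0)} {t : ℕ × K} (h : HH K A ν0 t = i.1) :
    colH K A ν0 i = rho (HH K A ν0) t := by
  have h1 := i.2.choose_spec
  unfold colH
  refine le_antisymm (rho_le ?_) (rho_le ?_)
  · rw [h1, h]
  · rw [h1, h]

theorem collapse_HH : Collapse (Subtype.val : Set.range (HH K A ν0) → Ordinal.{u}) (kap K)
    (colH K A ν0) := by
  refine ⟨Subtype.val_injective, ?_, ?_, ?_⟩
  · intro i j
    obtain ⟨t, ht⟩ := i.2
    obtain ⟨s, hs⟩ := j.2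
    rw [colH_eq ht, colH_eq hs, rho_lt_iff, ht, hs]
    exact Iff.rfl
  · intro i β hβ
    obtain ⟨t, ht⟩ := i.2
    rw [colH_eq ht] at hβ
    obtain ⟨s, hs⟩ := exists_rho hβ.le
    exact ⟨⟨_, s, rfl⟩, (colH_eq rfl).trans hs⟩
  · intro β hβ
    obtain ⟨i, rfl⟩ := exists_od hβ
    obtain ⟨t, ht⟩ := HH_od (A := A) (ν0 := ν0) i
    exact ⟨⟨_, t, rfl⟩, ht⟩

/-- A name over `K` of a pair. -/
theorem exists_prn (A : ZFSet.{u}) (i j : K) :
    ∃ μ : Nm K, μ.wf (· < ·) ∧ F A (μ.map od) = opr i j := by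
  obtain ⟨ν, h1, h2, h3⟩ := exists_name (kap K) (opr_mem_Lev (A := A) i j)
  have h4 : ν.All (fun b => b ∈ Set.range (od : K → Ordinal.{u})) := by
    refine all_mono ?_ (all_of_wf
        (lt := fun a b : Ordinal.{u} => a < b) (fun _ _ _ h h' => lt_trans h h') h1 h2)
    intro a ha
    exact exists_od ha
  obtain ⟨μ, rfl⟩ := exists_map h4
  refine ⟨μ, ?_, h3⟩
  exact (wf_map (lt := fun a b : K => a < b) (lt' := fun a b : Ordinal.{u} => a < b) (f := od)
    (fun _ _ => od_lt_iff.symm) μ).1 h1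

/-- A name over `K` of a pair. -/
noncomputable def prn (A : ZFSet.{u}) (i j : K) : Nm K := (exists_prn A i j).choose

theorem prn_wf (A : ZFSet.{u}) (i j : K) : (prn A i j).wf (· < ·) :=
  (exists_prn A i j).choose_spec.1

theorem prn_eq (A : ZFSet.{u}) (i j : K) : F A ((prn A i j).map od) = opr i j :=
  (exists_prn A i j).choose_spec.2

theorem WW_congr {x : K → K} {P Q : K → K → Prop} (h : ∀ i j, P i j ↔ Q i j) (hP : WW x P) :
    WW x Q := by
  have : P = Q := by
    funext i j
    exact propext (h i j)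
  rw [← this]
  exact hP

theorem bad_collapse (hA : ∀ z ∈ A, z ∈ Lev A (kap K)) {x : K → K} (h : Bad A x ν0) :
    ∃ ν1 : Nm Ordinal.{u}, Bad A x ν1 ∧ ∃ t, rho (HH K A ν0) t = ν1.head := by
  have hJ := HH_closed (K := K) (A := A) (ν0 := ν0)
  have hc := collapse_HH (K := K) (A := A) (ν0 := ν0)
  have hJ' : ClJ A (Set.range (Subtype.val : Set.range (HH K A ν0) → Ordinal.{u})) := by
    rw [Subtype.range_coe]
    exact hJ
  have h1 : NJ (Set.range (Subtype.val : Set.range (HH K A ν0) → Ordinal.{u})) ν0 := by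
    refine ⟨h.1, ?_⟩
    rw [mem_levels_iff_all]
    intro a ha
    rw [Subtype.range_coe]
    exact HH_lev ha
  obtain ⟨μ, hμ⟩ := exists_nmJ h1
  have hwf : μ.wf (ltH (Subtype.val : Set.range (HH K A ν0) → Ordinal.{u})) := by
    apply wf_of_nj
    rw [hμ]
    exact h1
  refine ⟨μ.map (colH K A ν0), ⟨?_, ?_⟩, ?_⟩
  · exact (wf_map (lt' := fun a b : Ordinal.{u} => a < b) hc.lt_iff μ).2 hwf
  · refine WW_congr (fun i j => ?_) h.2
    have h2 : NJ (Set.range (Subtype.val : Set.range (HH K A ν0) → Ordinal.{u}))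
        ((prn A i j).map od) := by
      refine ⟨(wf_map (lt := fun a b : K => a < b) (lt' := fun a b : Ordinal.{u} => a < b)
        (f := od) (fun _ _ => od_lt_iff.symm) _).2 (prn_wf A i j), ?_⟩
      rw [all_map]
      refine all_true (fun a => ?_) _
      rw [Subtype.range_coe]
      exact HH_od a
    obtain ⟨p, hp⟩ := exists_nmJ h2
    have h3 : p.wf (ltH (Subtype.val : Set.range (HH K A ν0) → Ordinal.{u})) := by
      apply wf_of_nj
      rw [hp]
      exact h2
    have h4 : (p.head : Ordinal.{u}) < kap K := by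
      have h5 := head_map (Subtype.val : Set.range (HH K A ν0) → Ordinal.{u}) p
      rw [hp, head_map] at h5
      rw [← h5]
      exact od_lt _
    have h5 := condensation hJ' hc hA h3 hwf
    rw [hμ, ← hc.low h3 h4, hp, prn_eq] at h5
    exact h5
  · rw [head_map]
    obtain ⟨t, ht⟩ := μ.head.2
    exact ⟨t, (colH_eq ht).symm⟩

theorem mk_tt : #(ℕ × K) ≤ #K := by
  rw [mk_prod, mk_nat, lift_aleph0, lift_uzero]
  exact (mul_le_mul' RegK.unc.le le_rfl).trans (mul_eq_self RegK.unc.le).le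

theorem card_head (hA : ∀ z ∈ A, z ∈ Lev A (kap K)) {x : K → K} (h : ∃ ν, Bad A x ν) :
    (nu0 A x).head.card ≤ #K := by
  obtain ⟨ν1, h1, t, h2⟩ := bad_collapse hA (nu0_bad h)
  have h3 := nu0_min h1
  have h4 : (nu0 A x).head ≤ ν1.head := by
    by_contra h5
    push Not at h5
    exact h3 (Or.inl h5)
  refine (Ordinal.card_le_card h4).trans ?_
  rw [← h2]
  exact (card_rho t).trans mk_tt

theorem small_meager [SuccOrder K] (hA : ∀ z ∈ A, z ∈ Lev A (kap K))
    (hall : ∀ x : K → K, ∃ ν, Bad A x ν) {η : Ordinal.{u}} (hη : η.card ≤ #K) :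
    LMeager {x : K → K | ∀ t, rho (HH K A (nu0 A x)) t ≠ η} := by
  have h1 : #(Nm η.ToType) ≤ #K := by
    refine card_le.trans (max_le ?_ RegK.unc.le)
    rw [mk_toType]
    exact hη
  have h2 : ∀ μ : Nm η.ToType, LMeager {x : K → K | WW x (fun i j => opr i j ∈
      F A (μ.map (Ordinal.typein (α := η.ToType) (· < ·))))} := fun μ => (WW_null _).meager
  refine (LMeager.iUnion h1 h2).mono ?_
  intro x hx
  obtain ⟨ν1, h3, t, h4⟩ := bad_collapse hA (nu0_bad (hall x))
  have h5 : ν1.head < η := by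
    by_contra h6
    push Not at h6
    rw [← h4] at h6
    obtain ⟨s, hs⟩ := exists_rho h6
    exact hx s hs
  have h6 : ν1.All (fun b => b ∈ Set.range (Ordinal.typein (α := η.ToType) (· < ·))) := by
    refine all_mono ?_ (all_of_wf
        (lt := fun a b : Ordinal.{u} => a < b) (fun _ _ _ h h' => lt_trans h h') h3.1 h5)
    intro a ha
    exact Ordinal.typein_surj (α := η.ToType) (· < ·) (by rw [Ordinal.type_toType]; exact ha)
  obtain ⟨μ, rfl⟩ := exists_map h6
  exact Set.mem_iUnion.2 ⟨μ, h3.2⟩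

end hull2

end Pool.Agent.helper82.LV
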