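import Pool.Agent.helper82.LV.Defs

/-!
Combinatorics of Laver trees.
-/

set_option autoImplicit false

universe u v

namespace Pool.Agent.helper82.LV

open Order Set Cardinal

/-- `K` is a regular uncountable cardinal with `κ^{<κ} = κ`, as a well-ordered type. -/
class RegK (K : Type u) [LinearOrder K] : Prop where
  cof : Order.cof K = #K
  unc : ℵ₀ < #K
  small : ∀ a : K, #(Set.Iio a) < #K
  pow : #K ^< #K = #K

variable {K : Type u} [LinearOrder K] [WellFoundedLT K] [SuccOrder K]

section basic

omit [WellFoundedLT K] [SuccOrder K]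

theorem exists_bound [RegK K] {ι : Type u} (hι : #ι < #K) (f : ι → K) : ∃ b, ∀ i, f i < b := by
  have h : ¬ IsCofinal (Set.range f) := by
    intro h
    have h1 := Order.cof_le h
    rw [RegK.cof] at h1
    exact absurd (h1.trans mk_range_le) hι.not_ge
  unfold IsCofinal at h
  push Not at h
  obtain ⟨b, hb⟩ := h
  exact ⟨b, fun i => hb _ ⟨i, rfl⟩⟩

theorem exists_bound2 [RegK K] {ι : Type u} (hι : #ι < #K) (f : ι → K) (c : K) :
    ∃ b, c < b ∧ ∀ i, f i < b := by
  have h0 : #(Option ι) < #K := by
    rw [mk_option]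
    exact add_lt_of_lt RegK.unc.le hι (one_lt_aleph0.trans RegK.unc)
  obtain ⟨b, hb⟩ := exists_bound h0 (fun o => o.elim c f)
  exact ⟨b, hb none, fun i => hb (some i)⟩

theorem RegK.nonempty [RegK K] : Nonempty K := by
  rw [← mk_ne_zero_iff]
  intro h
  have := RegK.unc (K := K)
  rw [h] at this
  exact absurd this (not_lt_of_ge zero_le)

theorem exists_gt' [RegK K] (a : K) : ∃ b, a < b := by
  obtain ⟨b, hb, _⟩ := exists_bound2 (K := K) (ι := PEmpty)
    (by rw [mk_pempty]; exact aleph0_pos.trans RegK.unc) (fun i => i.elim) a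
  exact ⟨b, hb⟩

instance (priority := 100) [RegK K] : NoMaxOrder K := ⟨exists_gt'⟩

theorem cof_ne [RegK K] : Order.cof K ≠ ℵ₀ := by
  rw [RegK.cof]
  exact RegK.unc.ne'

end basic

/-! ### Nodes -/

section nodes

omit [WellFoundedLT K] [SuccOrder K]

theorem restr_len (x : K → K) (a : K) : (restr x a).len = a := rfl

theorem restr_eq_iff {x y : K → K} {a b : K} :
    restr x a = restr y b ↔ a = b ∧ ∀ i < a, x i = y i := by
  constructor
  · intro h
    have h1 : a = b := congrArg Node.len h
    subst h1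
    refine ⟨rfl, fun i hi => ?_⟩
    unfold restr at h
    simp only [Node.mk.injEq, heq_eq_eq, true_and] at h
    exact congrFun h ⟨i, hi⟩
  · rintro ⟨rfl, h⟩
    unfold restr
    simp only [Node.mk.injEq, heq_eq_eq, true_and]
    funext i
    exact h i.1 i.2

theorem restr_congr {x y : K → K} {a : K} (h : ∀ i < a, x i = y i) : restr x a = restr y a :=
  restr_eq_iff.2 ⟨rfl, h⟩

theorem le_restr {x y : K → K} {a b : K} :
    (restr x a).Le (restr y b) ↔ a ≤ b ∧ ∀ i < a, x i = y i := by
  constructor
  · rintro ⟨h, h1⟩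
    exact ⟨h, fun i hi => h1 ⟨i, hi⟩⟩
  · rintro ⟨h, h1⟩
    exact ⟨h, fun i => h1 i.1 i.2⟩

theorem exists_restr [Nonempty K] (s : Node K) : ∃ x : K → K, s = restr x s.len := by
  classical
  refine ⟨fun i => if h : i < s.len then s.val ⟨i, h⟩ else Classical.arbitrary K, ?_⟩
  unfold restr
  cases s with
  | mk len val =>
    simp only [Node.mk.injEq, heq_eq_eq, true_and]
    funext i
    rw [dif_pos (show i.1 < len from i.2)]

end nodes

/-- The function equal to `x` except for the value `c` at `b`. -/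
abbrev upd (x : K → K) (b c : K) : K → K := Function.update x b c

omit [WellFoundedLT K] in
theorem snoc_restr [NoMaxOrder K] (x : K → K) (a c : K) :
    (restr x a).snoc c = restr (upd x a c) (succ a) := by
  unfold restr Node.snoc
  simp only [Node.mk.injEq, heq_eq_eq, true_and]
  funext i
  by_cases h : i.1 < a
  · rw [dif_pos h, upd, Function.update_of_ne h.ne]
  · have h1 : i.1 = a := le_antisymm (lt_succ_iff.1 i.2) (not_lt.1 h)
    rw [dif_neg h, upd, h1, Function.update_self]

/-- A Laver tree with a given stem, in terms of total functions. -/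
structure Lav (x : K → K) (a : K) (T : Set (Node K)) : Prop where
  mono : ∀ y b, restr y b ∈ T → ∀ i j, i < j → j < b → y i < y j
  tree : ∀ y b c, c ≤ b → restr y b ∈ T → restr y c ∈ T
  closed : ∀ y b, IsSuccLimit b → (∀ c < b, restr y c ∈ T) → restr y b ∈ T
  mem : restr x a ∈ T
  cmp : ∀ y b, restr y b ∈ T → ∀ i < a, i < b → y i = x i
  club : ∀ y b, restr y b ∈ T → a ≤ b → IsClub {c : K | restr (upd y b c) (succ b) ∈ T}

section lav

variable [RegK K]

omit [WellFoundedLT K] in
theorem Lav.isLaver {x : K → K} {a : K} {T : Set (Node K)} (h : Lav x a T) : IsLaver T := by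
  have : Nonempty K := RegK.nonempty
  refine ⟨?_, ?_, ?_, ?_, ?_⟩
  · intro t ht
    obtain ⟨y, hy⟩ := exists_restr t
    rw [hy] at ht
    have h1 := h.mono y _ ht
    rw [hy]
    intro i j hij
    exact h1 i.1 j.1 hij j.2
  · intro t ht s hs
    obtain ⟨y, hy⟩ := exists_restr t
    obtain ⟨z, hz⟩ := exists_restr s
    rw [hy] at ht hs
    rw [hz, le_restr] at hs
    rw [hz, restr_congr hs.2]
    exact h.tree _ _ _ hs.1 ht
  · intro t ht
    obtain ⟨y, hy⟩ := exists_restr t
    rw [hy] at ht
    by_cases h1 : a ≤ t.len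
    · obtain ⟨c, hc⟩ := (h.club y _ ht h1).nonempty
      refine ⟨_, hc, ?_, ?_⟩
      · rw [hy, le_restr]
        refine ⟨(lt_succ _).le, fun i hi => ?_⟩
        have h2 : i ≠ (restr y t.len).len := hi.ne
        rw [upd, Function.update_of_ne h2]
      · rw [restr_len]; exact lt_succ _
    · push Not at h1
      refine ⟨restr x a, h.mem, ?_, h1⟩
      rw [hy, le_restr]
      exact ⟨h1.le, fun i hi => h.cmp y _ ht i (hi.trans h1) hi⟩
  · intro t ht hs
    obtain ⟨y, hy⟩ := exists_restr t
    rw [hy]
    refine h.closed y _ ht fun c hc => ?_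
    refine hs _ ?_ hc
    rw [hy, le_restr]
    exact ⟨hc.le, fun i _ => rfl⟩
  · refine ⟨restr x a, h.mem, fun t ht => ?_, fun t ht hs => ?_⟩
    · obtain ⟨y, hy⟩ := exists_restr t
      rw [hy] at ht
      rcases le_total t.len a with h1 | h1
      · left
        rw [hy, le_restr]
        exact ⟨h1, fun i hi => h.cmp y _ ht i (hi.trans_le h1) hi⟩
      · right
        rw [hy, le_restr]
        exact ⟨h1, fun i hi => (h.cmp y _ ht i hi (hi.trans_le h1)).symm⟩
    · obtain ⟨y, hy⟩ := exists_restr t
      rw [hy] at ht hs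
      rw [le_restr] at hs
      have h1 := h.club y _ ht hs.1
      rw [hy]
      simp only [snoc_restr]
      exact h1

omit [WellFoundedLT K] in
theorem IsLaver.exists_lav {T : Set (Node K)} (h : IsLaver T) : ∃ x a, Lav x a T := by
  have : Nonempty K := RegK.nonempty
  obtain ⟨s, hs, h1, h2⟩ := h.stem
  obtain ⟨x, hx⟩ := exists_restr s
  refine ⟨x, s.len, ?_, ?_, ?_, ?_, ?_, ?_⟩
  · intro y b hy i j hij hj
    have := h.incr _ hy (a := ⟨i, hij.trans hj⟩) (b := ⟨j, hj⟩) hij
    exact this
  · intro y b c hc hy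
    refine h.tree _ hy _ ?_
    rw [le_restr]
    exact ⟨hc, fun _ _ => rfl⟩
  · intro y b hb hc
    refine h.closed _ hb fun t ht hlt => ?_
    obtain ⟨z, hz⟩ := exists_restr t
    rw [hz, le_restr] at ht
    rw [hz, restr_congr ht.2]
    exact hc _ hlt
  · rw [← hx]; exact hs
  · intro y b hy i hi hib
    rcases h1 _ hy with h3 | h3
    · rw [hx, le_restr] at h3
      exact h3.2 i hib
    · rw [hx, le_restr] at h3
      exact (h3.2 i hi).symm
  · intro y b hy hb
    have h3 : s.Le (restr y b) := by
      rcases h1 _ hy with h3 | h3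
      · rw [hx, le_restr] at h3
        rw [hx, le_restr]
        exact ⟨hb, fun i hi => (h3.2 i (hi.trans_le hb)).symm⟩
      · exact h3
    have h4 := h2 _ hy h3
    simp only [snoc_restr] at h4
    exact h4

end lav

end Pool.Agent.helper82.LV
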