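import Pool.Agent.helper82.LV.Laver

/-!
Intersections of Laver trees and the Baire category theorem.
-/

set_option autoImplicit false

universe u v

namespace Pool.Agent.helper82.LV

open Order Set Cardinal

variable {K : Type u} [LinearOrder K] [WellFoundedLT K] [SuccOrder K] [RegK K]

/-- Nodes agreeing with `x` below `a`. -/
def cone (x : K → K) (a : K) : Set (Node K) :=
  {t | ∀ i : Set.Iio t.len, i.1 < a → t.val i = x i.1}

omit [WellFoundedLT K] [SuccOrder K] [RegK K] in
theorem mem_cone {x y : K → K} {a b : K} :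
    restr y b ∈ cone x a ↔ ∀ i < a, i < b → y i = x i := by
  constructor
  · intro h i hi hb
    exact h ⟨i, hb⟩ hi
  · intro h i hi
    exact h i.1 hi i.2

/-- Increasing nodes. -/
def incN (K : Type u) [LinearOrder K] : Set (Node K) := {t | StrictMono t.val}

omit [WellFoundedLT K] [SuccOrder K] [RegK K] in
theorem mem_incN {y : K → K} {b : K} :
    restr y b ∈ incN K ↔ ∀ i j, i < j → j < b → y i < y j := by
  constructor
  · intro h i j hij hj
    exact h (a := ⟨i, hij.trans hj⟩) (b := ⟨j, hj⟩) hij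
  · intro h i j hij
    exact h i.1 j.1 hij j.2

omit [WellFoundedLT K] [SuccOrder K] in
theorem club_gt (y : K → K) (b : K) : IsClub {c : K | ∀ i < b, y i < c} := by
  refine ⟨?_, ?_⟩
  · intro d hd ⟨e, he⟩ _ a ha i hi
    exact (hd he i hi).trans_le (ha.1 he)
  · intro c
    obtain ⟨b', h1, h2⟩ := exists_bound2 (RegK.small b) (fun i : Set.Iio b => y i.1) c
    exact ⟨b', fun i hi => h2 ⟨i, hi⟩, h1.le⟩

omit [WellFoundedLT K] in
theorem upd_lt {y : K → K} {b c i : K} (h : i < b) : upd y b c i = y i := by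
  rw [upd, Function.update_of_ne h.ne]

omit [WellFoundedLT K] [SuccOrder K] [RegK K] in
theorem upd_self {y : K → K} {b c : K} : upd y b c b = c := by
  rw [upd, Function.update_self]

theorem Lav.interI {ι : Type u} (hι : #ι < #K) {T : ι → Set (Node K)} {x : K → K} {a : K}
    (hx : ∀ i j, i < j → j < a → x i < x j) (h : ∀ i, ∃ x' a', a' ≤ a ∧ Lav x' a' (T i))
    (hm : ∀ i, restr x a ∈ T i) :
    Lav x a {t | t ∈ incN K ∧ t ∈ cone x a ∧ ∀ i, t ∈ T i} := by
  refine ⟨?_, ?_, ?_, ?_, ?_, ?_⟩
  · intro y b hy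
    exact mem_incN.1 hy.1
  · intro y b c hc hy
    refine ⟨mem_incN.2 fun i j hij hj => mem_incN.1 hy.1 i j hij (hj.trans_le hc),
      mem_cone.2 fun i hi hb => mem_cone.1 hy.2.1 i hi (hb.trans_le hc), fun i => ?_⟩
    obtain ⟨x', a', _, h1⟩ := h i
    exact h1.tree _ _ _ hc (hy.2.2 i)
  · intro y b hb hy
    refine ⟨mem_incN.2 fun i j hij hj => ?_, mem_cone.2 fun i hi hib => ?_, fun i => ?_⟩
    · exact mem_incN.1 (hy _ (hb.succ_lt hj)).1 i j hij (lt_succ _)
    · exact mem_cone.1 (hy _ (hb.succ_lt hib)).2.1 i hi (lt_succ _)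
    · obtain ⟨x', a', _, h1⟩ := h i
      exact h1.closed _ _ hb fun c hc => (hy c hc).2.2 i
  · exact ⟨mem_incN.2 hx, mem_cone.2 fun _ _ _ => rfl, hm⟩
  · intro y b hy
    exact mem_cone.1 hy.2.1
  · intro y b hy hab
    have h1 : IsClub (⋂ i, {c : K | restr (upd y b c) (succ b) ∈ T i}) := by
      refine IsClub.iInter (cof_ne) ?_ fun i => ?_
      · rw [lift_id, lift_id, RegK.cof]
        exact hι
      · obtain ⟨x', a', h2, h3⟩ := h i
        exact h3.club _ _ (hy.2.2 i) (h2.trans hab)
    have h2 := (club_gt y b).inter cof_ne h1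
    have h3 : {c : K | restr (upd y b c) (succ b) ∈
        {t | t ∈ incN K ∧ t ∈ cone x a ∧ ∀ i, t ∈ T i}} =
        {c : K | ∀ i < b, y i < c} ∩ ⋂ i, {c : K | restr (upd y b c) (succ b) ∈ T i} := by
      ext c
      simp only [Set.mem_inter_iff, Set.mem_iInter, Set.mem_ofPred_eq]
      constructor
      · rintro ⟨h4, h5, h6⟩
        refine ⟨fun i hi => ?_, h6⟩
        have := mem_incN.1 h4 i b hi (lt_succ b)
        rwa [upd_lt hi, upd_self] at this
      · rintro ⟨h4, h6⟩
        refine ⟨mem_incN.2 fun i j hij hj => ?_, mem_cone.2 fun i hi hb => ?_, h6⟩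
        · rcases (lt_succ_iff.1 hj).lt_or_eq with h7 | h7
          · rw [upd_lt h7, upd_lt (hij.trans h7)]
            exact mem_incN.1 hy.1 i j hij h7
          · subst h7
            rw [upd_lt hij, upd_self]
            exact h4 i hij
        · have h7 : i < b := hi.trans_le hab
          rw [upd_lt h7]
          exact mem_cone.1 hy.2.1 i hi h7
    rw [h3]
    exact h2

omit [WellFoundedLT K] in
theorem Lav.cong {x x' : K → K} {a : K} {T : Set (Node K)} (h : Lav x a T)
    (hx : ∀ i < a, x i = x' i) : Lav x' a T := by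
  refine ⟨h.mono, h.tree, h.closed, ?_, ?_, h.club⟩
  · rw [← restr_congr hx]; exact h.mem
  · intro y b hy i hi hb
    rw [← hx i hi]
    exact h.cmp y b hy i hi hb

theorem Lav.inter {x : K → K} {a : K} {T T' : Set (Node K)} (h : Lav x a T) (h' : Lav x a T') :
    Lav x a (T ∩ T') := by
  refine ⟨fun y b hy => h.mono y b hy.1, fun y b c hc hy => ⟨h.tree y b c hc hy.1,
    h'.tree y b c hc hy.2⟩, fun y b hb hc => ⟨h.closed y b hb fun c h => (hc c h).1,
    h'.closed y b hb fun c h => (hc c h).2⟩, ⟨h.mem, h'.mem⟩, fun y b hy => h.cmp y b hy.1, ?_⟩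
  intro y b hy hab
  exact (h.club y b hy.1 hab).inter cof_ne (h'.club y b hy.2 hab)

/-- Passing to the part of a tree above a node. -/
theorem Lav.above {x y : K → K} {a b : K} {T : Set (Node K)} (h : Lav x a T)
    (hy : restr y b ∈ T) (hab : a ≤ b) : ∃ S, Lav y b S ∧ S ⊆ T := by
  refine ⟨_, Lav.interI (ι := PUnit) (by rw [mk_punit]; exact one_lt_aleph0.trans RegK.unc)
    (T := fun _ => T) (h.mono y b hy) (fun _ => ⟨x, a, hab, h⟩) (fun _ => hy), ?_⟩
  rintro t ⟨_, _, ht⟩
  exact ht ⟨⟩

omit [WellFoundedLT K] in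
theorem Lav.stem_le {x x' : K → K} {a a' : K} {S T : Set (Node K)} (h : Lav x a T)
    (h' : Lav x' a' S) (hST : S ⊆ T) : a ≤ a' ∧ ∀ i < a, x' i = x i := by
  have h1 : a ≤ a' := by
    by_contra hlt
    push Not at hlt
    have hne : Nonempty K := RegK.nonempty
    have h2 := h'.club x' a' h'.mem le_rfl
    obtain ⟨c, hc⟩ := h2.nonempty
    obtain ⟨d, hd⟩ := exists_gt c
    obtain ⟨e, he, hde⟩ := h2.isCofinal d
    have h3 := h.cmp _ _ (hST hc) a' hlt (lt_succ _)
    have h4 := h.cmp _ _ (hST he) a' hlt (lt_succ _)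
    rw [upd_self] at h3 h4
    rw [← h4] at h3
    exact absurd h3 (hd.trans_le hde).ne
  exact ⟨h1, fun i hi => h.cmp _ _ (hST h'.mem) i hi (hi.trans_le h1)⟩

/-- There is a branch through the stem. -/
theorem Lav.exists_branch {x : K → K} {a : K} {T : Set (Node K)} (h : Lav x a T) :
    ∃ z ∈ body T, ∀ i < a, z i = x i := by
  classical
  have hne : Nonempty K := RegK.nonempty
  have h0 : ∀ t : Node K, t ∈ T → a ≤ t.len → ∃ c, t.snoc c ∈ T := by
    intro t ht hat
    obtain ⟨y, hy⟩ := exists_restr t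
    rw [hy] at ht
    obtain ⟨c, hc⟩ := (h.club y _ ht hat).nonempty
    refine ⟨c, ?_⟩
    rw [hy, snoc_restr]
    exact hc
  choose! pick hpick using h0
  let z : K → K := (wellFounded_lt (α := K)).fix
    (fun k ih => if k < a then x k else pick ⟨k, fun i => ih i.1 i.2⟩)
  have hz : ∀ k, z k = if k < a then x k else pick (restr z k) := by
    intro k
    exact WellFounded.fix_eq _ _ k
  have hza : ∀ i < a, z i = x i := by
    intro i hi
    rw [hz, if_pos hi]
  refine ⟨z, ?_, hza⟩
  intro k
  induction k using WellFoundedLT.induction with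
  | ind k ih =>
    by_cases h1 : k ≤ a
    · rw [restr_congr (y := x) (fun i hi => hza i (hi.trans_le h1))]
      exact h.tree _ _ _ h1 h.mem
    · push Not at h1
      by_cases h2 : IsSuccLimit k
      · exact h.closed _ _ h2 ih
      · have h3 : ∃ j, succ j = k := by
          by_contra h4
          apply h2
          refine ⟨fun h5 => ?_, ?_⟩
          · exact absurd (h5 h1.le) (not_le_of_gt h1)
          · intro j hj
            exact h4 ⟨j, hj.succ_eq⟩
        obtain ⟨j, rfl⟩ := h3
        have haj : a ≤ j := lt_succ_iff.1 h1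
        have h4 := hpick (restr z j) (ih j (lt_succ j)) haj
        rw [snoc_restr] at h4
        have h5 : restr z (succ j) = restr (upd z j (pick (restr z j))) (succ j) := by
          refine restr_congr fun i hi => ?_
          rcases (lt_succ_iff.1 hi).lt_or_eq with h6 | h6
          · rw [upd_lt h6]
          · subst h6
            rw [upd_self, hz, if_neg (not_lt.2 haj)]
        rw [h5]
        exact h4

theorem Lav.extend {x : K → K} {a : K} {T : Set (Node K)} (h : Lav x a T) (b : K) :
    ∃ z c S, Lav z c S ∧ S ⊆ T ∧ b < c ∧ a ≤ c ∧ ∀ i < a, z i = x i := by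
  obtain ⟨z, hz, hza⟩ := h.exists_branch
  obtain ⟨c, hc⟩ := exists_gt (max a b)
  have h1 : a ≤ c := (le_max_left a b).trans hc.le
  obtain ⟨S, hS, hST⟩ := h.above (hz c) h1
  exact ⟨z, c, S, hS, hST, (le_max_right a b).trans_lt hc, h1, hza⟩

/-- The intersection of a small chain of Laver trees contains a Laver tree. -/
theorem Lav.chain {ι : Type u} [Nonempty ι] (hι : #ι < #K) {x : ι → K → K} {a : ι → K}
    {T : ι → Set (Node K)} (h : ∀ o, Lav (x o) (a o) (T o))
    (hch : ∀ o o', T o ⊆ T o' ∨ T o' ⊆ T o) :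
    ∃ y b S, Lav y b S ∧ ∀ o, S ⊆ T o := by
  classical
  have hne : Nonempty K := RegK.nonempty
  obtain ⟨b0, hb0⟩ := exists_bound hι a
  let ub : Set K := {c | ∀ o, a o ≤ c}
  have hub : ub.Nonempty := ⟨b0, fun o => (hb0 o).le⟩
  let b : K := (wellFounded_lt (α := K)).min ub hub
  have hb : ∀ o, a o ≤ b := WellFounded.min_mem _ ub hub
  have hmin : ∀ c < b, ∃ o, c < a o := by
    intro c hc
    by_contra h2
    push Not at h2
    exact WellFounded.not_lt_min _ (s := ub) (h2 : c ∈ ub) hc
  let y : K → K := fun k => if h : ∃ o, k < a o then x h.choose k else k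
  have hy : ∀ o, ∀ k < a o, y k = x o k := by
    intro o k hk
    have h0 : ∃ o, k < a o := ⟨o, hk⟩
    have h1 : y k = x h0.choose k := dif_pos h0
    rw [h1]
    have h2 := h0.choose_spec
    rcases hch o h0.choose with h3 | h3
    · exact (((h _).stem_le (h _) h3).2 k h2).symm
    · exact ((h _).stem_le (h _) h3).2 k hk
  have hlt : ∀ o, ∀ c < b, restr y c ∈ T o := by
    intro o c hc
    obtain ⟨o', ho'⟩ := hmin c hc
    rcases hch o' o with h3 | h3
    · rw [restr_congr (y := x o') fun k hk => hy o' k (hk.trans ho')]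
      exact h3 ((h o').tree _ _ _ ho'.le (h o').mem)
    · have h4 := ((h o').stem_le (h o) h3).1
      rw [restr_congr (y := x o) fun k hk => hy o k ((hk.trans ho').trans_le h4)]
      exact (h o).tree _ _ _ (ho'.le.trans h4) (h o).mem
  have hmem : ∀ o, restr y b ∈ T o := by
    intro o
    by_cases h1 : ∃ o', a o' = b
    · obtain ⟨o', ho'⟩ := h1
      rcases hch o' o with h3 | h3
      · rw [restr_congr (y := x o') fun k hk => hy o' k (hk.trans_eq ho'.symm), ← ho']
        exact h3 (h o').mem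
      · have h4 := ((h o').stem_le (h o) h3).1
        have h5 : a o = b := le_antisymm (hb o) (ho'.symm.trans_le h4)
        rw [restr_congr (y := x o) fun k hk => hy o k (hk.trans_eq h5.symm), ← h5]
        exact (h o).mem
    · push Not at h1
      have h2 : ∀ o, a o < b := fun o => lt_of_le_of_ne (hb o) (h1 o)
      refine (h o).closed _ _ ⟨fun h6 => absurd (h6 (h2 o).le) (not_le_of_gt (h2 o)), ?_⟩
        (hlt o)
      intro j hj
      obtain ⟨o', ho'⟩ := hmin j hj.lt
      have h3 := hj.succ_eq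
      have h4 := succ_le_of_lt ho'
      rw [h3] at h4
      exact absurd h4 (not_le_of_gt (h2 o'))
  have hinc : ∀ k l, k < l → l < b → y k < y l := by
    intro k l hkl hl
    obtain ⟨o, ho⟩ := hmin l hl
    rw [hy o l ho, hy o k (hkl.trans ho)]
    exact (h o).mono _ _ (h o).mem k l hkl ho
  refine ⟨y, b, _, Lav.interI hι hinc (fun o => ⟨x o, a o, hb o, h o⟩) hmem, ?_⟩
  rintro o t ⟨_, _, ht⟩
  exact ht o

/-- The step of the construction in the Baire category theorem. -/
structure Stg (T0 : Set (Node K)) (N : K → Set (K → K)) (i : K)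
    (prev : ∀ j : K, j < i → (K → K) × K × Set (Node K)) (t : (K → K) × K × Set (Node K)) :
    Prop where
  lav : Lav t.1 t.2.1 t.2.2
  sub0 : t.2.2 ⊆ T0
  sub : ∀ j hj, t.2.2 ⊆ (prev j hj).2.2
  nul : body t.2.2 ∩ N i = ∅
  big : i < t.2.1

theorem exists_stg {T0 : Set (Node K)} (hT0 : IsLaver T0) {N : K → Set (K → K)}
    (hN : ∀ i, LNull (N i)) (i : K) (F : K → (K → K) × K × Set (Node K))
    (hF : ∀ j < i, Stg T0 N j (fun k _ => F k) (F j)) :
    ∃ t, Stg T0 N i (fun k _ => F k) t := by
  obtain ⟨x0, a0, h0⟩ := hT0.exists_lav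
  have h1 : #(Option (Set.Iio i)) < #K := by
    rw [mk_option]
    exact add_lt_of_lt RegK.unc.le (RegK.small i) (one_lt_aleph0.trans RegK.unc)
  obtain ⟨y, b, S, hS, hSo⟩ := Lav.chain h1 (x := fun o => o.elim x0 (fun j => (F j.1).1))
    (a := fun o => o.elim a0 (fun j => (F j.1).2.1))
    (T := fun o => o.elim T0 (fun j => (F j.1).2.2)) (by
      rintro (_ | j)
      · exact h0
      · exact (hF j.1 j.2).lav) (by
      rintro (_ | j) (_ | j')
      · exact Or.inl (fun _ h => h)
      · exact Or.inr (hF j'.1 j'.2).sub0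
      · exact Or.inl (hF j.1 j.2).sub0
      · rcases lt_trichotomy j.1 j'.1 with h | h | h
        · exact Or.inr ((hF j'.1 j'.2).sub j.1 h)
        · exact Or.inl (fun t ht => by
            change t ∈ (F j'.1).2.2
            rw [← h]
            exact ht)
        · exact Or.inl ((hF j.1 j.2).sub j'.1 h))
  obtain ⟨z, c, S', hS', h3, h4, _, _⟩ := hS.extend i
  obtain ⟨S'', h5, h6, h7⟩ := hN i S' hS'.isLaver
  obtain ⟨z', c', h8⟩ := h5.exists_lav
  have h9 := (hS'.stem_le h8 h6).1
  refine ⟨⟨z', c', S''⟩, h8, ?_, ?_, h7, h4.trans_le h9⟩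
  · exact (h6.trans h3).trans (hSo none)
  · intro j hj
    exact (h6.trans h3).trans (hSo (some ⟨j, hj⟩))

/-- The Baire category theorem for Laver trees. -/
theorem baire {T0 : Set (Node K)} (hT0 : IsLaver T0) {N : K → Set (K → K)}
    (hN : ∀ i, LNull (N i)) : ∃ z ∈ body T0, ∀ i, z ∉ N i := by
  classical
  have hne : Nonempty K := RegK.nonempty
  have hinh : Nonempty ((K → K) × K × Set (Node K)) :=
    ⟨⟨fun k => k, Classical.arbitrary K, ∅⟩⟩
  let F : K → (K → K) × K × Set (Node K) := (wellFounded_lt (α := K)).fix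
    (fun i prev => if h : ∃ t, Stg T0 N i prev t then h.choose else Classical.arbitrary _)
  have hFe : ∀ i, F i = if h : ∃ t, Stg T0 N i (fun k _ => F k) t then h.choose
      else Classical.arbitrary _ := fun i => WellFounded.fix_eq _ _ i
  have hF : ∀ i, Stg T0 N i (fun k _ => F k) (F i) := by
    intro i
    induction i using WellFoundedLT.induction with
    | ind i ih =>
      have h := exists_stg hT0 hN i F ih
      have h1 := hFe i
      rw [dif_pos h] at h1
      rw [h1]
      exact h.choose_spec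
  let z : K → K := fun k => (F k).1 k
  have hz : ∀ i, ∀ k < (F i).2.1, z k = (F i).1 k := by
    intro i k hk
    rcases lt_trichotomy i k with h | h | h
    · exact ((hF i).lav.stem_le (hF k).lav ((hF k).sub i h)).2 k hk
    · rw [h]
    · exact (((hF k).lav.stem_le (hF i).lav ((hF i).sub k h)).2 k (hF k).big).symm
  have hbody : ∀ i, z ∈ body (F i).2.2 := by
    intro i b
    have h1 : b < (F (max i b)).2.1 := (le_max_right i b).trans_lt (hF _).big
    rw [restr_congr (y := (F (max i b)).1) fun k hk => hz _ k (hk.trans h1)]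
    have h2 := (hF (max i b)).lav.tree _ _ _ h1.le (hF (max i b)).lav.mem
    rcases (le_max_left i b).eq_or_lt with h | h
    · rw [← h] at h2 ⊢
      exact h2
    · exact (hF _).sub i h h2
  refine ⟨z, fun b => (hF b).sub0 (hbody b b), fun i hi => ?_⟩
  have h1 : z ∈ body (F i).2.2 ∩ N i := ⟨hbody i, hi⟩
  rw [(hF i).nul] at h1
  exact h1

end Pool.Agent.helper82.LV
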