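import Pool.Agent.helper82.LV.Hull

/-!
Locally determined functions on the square of the generalized Baire space.
-/

set_option autoImplicit false

universe u v w

namespace Pool.Agent.helper82.LV

open FirstOrder ZFSet Nm Order Cardinal

/-- Pairs of functions. -/
abbrev Om (K : Type u) : Type u := (K → K) × (K → K)

/-- Agreement below `a`. -/
def Agr {K : Type u} [LinearOrder K] (a : K) (p q : Om K) : Prop :=
  (∀ i < a, p.1 i = q.1 i) ∧ ∀ i < a, p.2 i = q.2 i

section

variable {K : Type u} [LinearOrder K]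

theorem Agr.mono {a b : K} {p q : Om K} (h : Agr b p q) (hab : a ≤ b) : Agr a p q :=
  ⟨fun i hi => h.1 i (hi.trans_le hab), fun i hi => h.2 i (hi.trans_le hab)⟩

/-- Locally determined functions. -/
def Loc {Y : Type v} (f : Om K → Y) : Prop := ∀ p, ∃ a, ∀ q, Agr a p q → f q = f p

/-- Complements of locally determined sets, possibly infinitely many intersected. -/
def LClosed (P : Om K → Prop) : Prop := ∀ p, ¬ P p → ∃ a, ∀ q, Agr a p q → ¬ P q

variable {Y : Type v} {Z : Type w}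

theorem Loc.comp {f : Om K → Y} (hf : Loc f) (g : Y → Z) : Loc (fun p => g (f p)) := by
  intro p
  obtain ⟨a, ha⟩ := hf p
  exact ⟨a, fun q hq => by dsimp only; rw [ha q hq]⟩

theorem Loc.bind {f : Om K → Y} (hf : Loc f) {g : Y → Om K → Z} (hg : ∀ y, Loc (g y)) :
    Loc (fun p => g (f p) p) := by
  intro p
  obtain ⟨a, ha⟩ := hf p
  obtain ⟨b, hb⟩ := hg (f p) p
  refine ⟨max a b, fun q hq => ?_⟩
  dsimp only
  rw [ha q (hq.mono (le_max_left a b)), hb q (hq.mono (le_max_right a b))]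

theorem Loc.closed {P : Om K → Prop} (h : Loc P) : LClosed P := by
  intro p hp
  obtain ⟨a, ha⟩ := h p
  exact ⟨a, fun q hq => by rw [ha q hq]; exact hp⟩

theorem LClosed.all {ι : Sort*} {P : ι → Om K → Prop} (h : ∀ i, LClosed (P i)) :
    LClosed (fun p => ∀ i, P i p) := by
  intro p hp
  rw [not_forall] at hp
  obtain ⟨i, hi⟩ := hp
  obtain ⟨a, ha⟩ := h i p hi
  exact ⟨a, fun q hq hq' => ha q hq (hq' i)⟩

theorem LClosed.and {P Q : Om K → Prop} (h : LClosed P) (h' : LClosed Q) :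
    LClosed (fun p => P p ∧ Q p) := by
  intro p hp
  by_cases h1 : P p
  · obtain ⟨a, ha⟩ := h' p (fun h2 => hp ⟨h1, h2⟩)
    exact ⟨a, fun q hq hq' => ha q hq hq'.2⟩
  · obtain ⟨a, ha⟩ := h p h1
    exact ⟨a, fun q hq hq' => ha q hq hq'.1⟩

variable [RegK K]

theorem Loc.const (y : Y) : Loc (fun _ : Om K => y) := by
  intro p
  obtain ⟨a⟩ : Nonempty K := RegK.nonempty
  exact ⟨a, fun _ _ => rfl⟩

theorem Loc.pi {ι : Type u} (hι : #ι < #K) {Y : ι → Type v} {f : (i : ι) → Om K → Y i}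
    (hf : ∀ i, Loc (f i)) : Loc (fun p i => f i p) := by
  intro p
  choose a ha using fun i => hf i p
  obtain ⟨b, hb⟩ := exists_bound hι a
  refine ⟨b, fun q hq => ?_⟩
  funext i
  exact ha i q (hq.mono (hb i).le)

theorem Loc.piFin {n : ℕ} {f : Fin n → Om K → Y} (hf : ∀ i, Loc (f i)) :
    Loc (fun p i => f i p) := by
  have h : #(ULift.{u} (Fin n)) < #K := by
    rw [mk_uLift, mk_fin]
    exact (by simp : (lift.{u} (n : Cardinal.{0})) < ℵ₀).trans RegK.unc
  have h1 := Loc.pi h (f := fun i : ULift.{u} (Fin n) => f i.down) (fun i => hf i.down)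
  exact h1.comp (fun g i => g ⟨i⟩)

theorem Loc.piNat {f : ℕ → Om K → Y} (hf : ∀ i, Loc (f i)) :
    Loc (fun p i => f i p) := by
  have h : #(ULift.{u} ℕ) < #K := by
    rw [mk_uLift, mk_nat, lift_aleph0]
    exact RegK.unc
  have h1 := Loc.pi h (f := fun i : ULift.{u} ℕ => f i.down) (fun i => hf i.down)
  exact h1.comp (fun g i => g ⟨i⟩)

theorem Loc.and {P Q : Om K → Prop} (hP : Loc P) (hQ : Loc Q) : Loc (fun p => P p ∧ Q p) :=
  Loc.bind (g := fun y p => y ∧ Q p) hP (fun y => hQ.comp (fun z => y ∧ z))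

theorem Loc.or {P Q : Om K → Prop} (hP : Loc P) (hQ : Loc Q) : Loc (fun p => P p ∨ Q p) :=
  Loc.bind (g := fun y p => y ∨ Q p) hP (fun y => hQ.comp (fun z => y ∨ z))

theorem Loc.imp {P Q : Om K → Prop} (hP : Loc P) (hQ : Loc Q) : Loc (fun p => P p → Q p) :=
  Loc.bind (g := fun y p => y → Q p) hP (fun y => hQ.comp (fun z => y → z))

theorem Loc.iff {P Q : Om K → Prop} (hP : Loc P) (hQ : Loc Q) : Loc (fun p => P p ↔ Q p) :=
  Loc.bind (g := fun y p => y ↔ Q p) hP (fun y => hQ.comp (fun z => y ↔ z))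

theorem Loc.not {P : Om K → Prop} (hP : Loc P) : Loc (fun p => ¬ P p) :=
  hP.comp (fun z => ¬ z)

theorem Loc.eq {f g : Om K → Y} (hf : Loc f) (hg : Loc g) : Loc (fun p => f p = g p) :=
  Loc.bind (g := fun y p => y = g p) hf (fun y => hg.comp (fun z => y = z))

theorem Loc.lt' {f g : Om K → K} (hf : Loc f) (hg : Loc g) : Loc (fun p => f p < g p) :=
  Loc.bind (g := fun y p => y < g p) hf (fun y => hg.comp (fun z => y < z))

theorem Loc.le' {f g : Om K → K} (hf : Loc f) (hg : Loc g) : Loc (fun p => f p ≤ g p) :=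
  Loc.bind (g := fun y p => y ≤ g p) hf (fun y => hg.comp (fun z => y ≤ z))

theorem Loc.allLt {j : K} {P : K → Om K → Prop} (h : ∀ i, Loc (P i)) :
    Loc (fun p => ∀ i < j, P i p) := by
  have h1 := Loc.pi (RegK.small j) (f := fun i : Set.Iio j => P i.1) (fun i => h i.1)
  have h2 := h1.comp (fun g => ∀ i, g i)
  have h3 : (fun p => ∀ i < j, P i p) = (fun p => ∀ i : Set.Iio j, P i.1 p) := by
    funext p
    exact propext ⟨fun h i => h i.1 i.2, fun h i hi => h ⟨i, hi⟩⟩
  rw [h3]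
  exact h2

theorem Loc.exLt {j : K} {P : K → Om K → Prop} (h : ∀ i, Loc (P i)) :
    Loc (fun p => ∃ i < j, P i p) := by
  have h1 := (Loc.allLt (j := j) (fun i => (h i).not)).not
  have h3 : (fun p => ∃ i < j, P i p) = (fun p => ¬ ∀ i < j, ¬ P i p) := by
    funext p
    apply propext
    push Not
    exact Iff.rfl
  rw [h3]
  exact h1

theorem Loc.allFin {n : ℕ} {P : Fin n → Om K → Prop} (h : ∀ i, Loc (P i)) :
    Loc (fun p => ∀ i, P i p) := (Loc.piFin h).comp (fun g => ∀ i, g i)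

theorem Loc.allNat {P : ℕ → Om K → Prop} (h : ∀ i, Loc (P i)) :
    Loc (fun p => ∀ i, P i p) := (Loc.piNat h).comp (fun g => ∀ i, g i)

/-- Coordinates of the first function. -/
theorem Loc.fst (i : K) : Loc (fun p : Om K => p.1 i) := by
  intro p
  obtain ⟨b, hb⟩ := exists_gt' i
  exact ⟨b, fun q hq => (hq.1 i hb).symm⟩

/-- Coordinates of the second function. -/
theorem Loc.snd (i : K) : Loc (fun p : Om K => p.2 i) := by
  intro p
  obtain ⟨b, hb⟩ := exists_gt' i
  exact ⟨b, fun q hq => (hq.2 i hb).symm⟩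

/-- Names with locally determined levels. -/
theorem Loc.map {I : Type v} {J : Type w} {f : I → Om K → J} (hf : ∀ i, Loc (f i)) (μ : Nm I) :
    Loc (fun p => μ.map (fun i => f i p)) := by
  induction μ with
  | mk b n φ ps ih =>
    refine Loc.bind (g := fun y p => Nm.mk y n φ (fun i => (ps i).map (fun i => f i p))) (hf b)
      (fun y => ?_)
    exact (Loc.piFin ih).comp (fun g => Nm.mk y n φ g)

theorem Loc.wf {I : Type v} {lt : I → I → Om K → Prop} (h : ∀ i j, Loc (lt i j)) (μ : Nm I) :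
    Loc (fun p => μ.wf (fun i j => lt i j p)) := by
  induction μ with
  | mk b n φ ps ih => exact Loc.allFin fun i => (h _ _).and (ih i)

theorem Loc.ltN {I : Type u} {lt : I → I → Om K → Prop} (h : ∀ i j, Loc (lt i j))
    (μ ν : Nm I) : Loc (fun p => ltN (fun i j => lt i j p) μ ν) := by
  let S : Set I := {a | a ∈ μ.levels ∨ a ∈ ν.levels}
  have hS : S.Finite := (μ.levels ++ ν.levels).finite_toSet.subset (by
    intro a ha
    exact List.mem_append.2 ha)
  obtain ⟨μ', hμ'⟩ := exists_map (f := (Subtype.val : S → I)) (ν := μ) (by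
    rw [mem_levels_iff_all, Subtype.range_coe]
    exact fun a ha => Or.inl ha)
  obtain ⟨ν', hν'⟩ := exists_map (f := (Subtype.val : S → I)) (ν := ν) (by
    rw [mem_levels_iff_all, Subtype.range_coe]
    exact fun a ha => Or.inr ha)
  have hc : #(S × S) < #K := by
    have : Finite S := hS
    exact (lt_aleph0_of_finite _).trans RegK.unc
  have h1 := Loc.pi hc (f := fun d : S × S => lt d.1.1 d.2.1) (fun d => h _ _)
  have h2 := h1.comp (fun g => Nm.ltN (fun i j => g (i, j)) μ' ν')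
  have h3 : (fun p => Nm.ltN (fun i j => lt i j p) μ ν) =
      (fun p => Nm.ltN (fun i j : S => lt i.1 j.1 p) μ' ν') := by
    funext p
    rw [← hμ', ← hν']
    exact propext (ltN_map (lt := fun i j : S => lt i.1 j.1 p) (lt' := fun i j => lt i j p)
      (f := Subtype.val) (fun _ _ => Iff.rfl) Subtype.val_injective μ' ν')
  rw [h3]
  exact h2

end

/-! ### Closed sets -/

section top

variable {K : Type u} [LinearOrder K] [RegK K]

theorem isOpen_cyl (x : K → K) (a : K) :
    IsOpen ({y | ∀ i < a, x i = y i} : Set (GBaire K)) := by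
  refine TopologicalSpace.isOpen_generateFrom_of_mem ⟨restr x a, ?_⟩
  ext y
  constructor
  · intro h i
    exact (h i.1 i.2).symm
  · intro h i hi
    exact (h ⟨i, hi⟩).symm

theorem LClosed.isClosed {P : Om K → Prop} (h : LClosed P) :
    IsClosed ({p | P p} : Set (GBaire K × GBaire K)) := by
  rw [← isOpen_compl_iff, isOpen_iff_forall_mem_open]
  rintro ⟨x, y⟩ hp
  obtain ⟨a, ha⟩ := h (x, y) hp
  refine ⟨({z | ∀ i < a, x i = z i} : Set (GBaire K)) ×ˢ
    ({z | ∀ i < a, y i = z i} : Set (GBaire K)), ?_, (isOpen_cyl x a).prod (isOpen_cyl y a),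
    ⟨fun _ _ => rfl, fun _ _ => rfl⟩⟩
  rintro ⟨x', y'⟩ ⟨h1, h2⟩
  exact ha (x', y') ⟨h1, h2⟩

theorem sigma_of_closed {P : Om K → Prop} (h : LClosed P) : Sigma11 {x : K → K | ∃ y, P (x, y)} :=
  ⟨{p | P p}, h.isClosed, rfl⟩

end top

end Pool.Agent.helper82.LV
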