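import Pool.Agent.helper82.LV.Exist

/-!
The sets used in the proof are boldface Delta-one-one, and the main theorem.
-/

set_option autoImplicit false

universe u v w

namespace Pool.Agent.helper82.LV

open FirstOrder ZFSet Nm Order Cardinal

section

variable {K : Type u} [LinearOrder K] [RegK K] [WellFoundedLT K]

omit [WellFoundedLT K] in
theorem Loc.comp2 {Y : Type v} {Z : Type w} {W : Type*} {f : Om K → Y} {g : Om K → Z}
    (hf : Loc f) (hg : Loc g) (F : Y → Z → W) : Loc (fun p => F (f p) (g p)) :=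
  Loc.bind (g := fun y p => F y (g p)) hf fun y => hg.comp (fun z => F y z)

theorem exists_eT : ∃ f : ℕ × K → K, Function.Injective f := by
  obtain ⟨g⟩ := mk_tt (K := K)
  exact ⟨g, g.injective⟩

/-- The position of `t` in the hull for `x`. -/
noncomputable def ro (r : K → K) (t : ℕ × K) (x : K → K) : Ordinal.{u} :=
  rho (HH K (graph r) (nu0 (graph r) x)) t

theorem sigma_lt {r : K → K} (hall : ∀ x : K → K, ∃ ν, Bad (graph r) x ν) (t : ℕ × K)
    {η : Ordinal.{u}} (h1 : kap K ≤ η) (h2 : η.card ≤ #K) : Sigma11 {x | ro r t x < η} := by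
  classical
  obtain ⟨e, he1, he2⟩ := exists_enum_lt (K := K) h1 h2
  obtain ⟨eT, heT⟩ := exists_eT (K := K)
  have hne : Nonempty K := RegK.nonempty
  have hcl : LClosed (fun p : Om K => Good r p.1 (dec p.2) ∧ ∀ t1 t2 : ℕ × K,
      (dec p.2).lt (Hc (dec p.2) t1.1 t1.2) (Hc (dec p.2) t2.1 t2.2) →
      ¬ (dec p.2).lt (Hc (dec p.2) t.1 t.2) (Hc (dec p.2) t2.1 t2.2) →
      e ((dec p.2).f (eT t1)) < e ((dec p.2).f (eT t2))) := by
    refine (closed_good r).and (LClosed.all fun t1 => LClosed.all fun t2 => Loc.closed ?_)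
    refine (Loc.dlt (Loc.Hc _ _) (Loc.Hc _ _)).imp ((Loc.dlt (Loc.Hc _ _) (Loc.Hc _ _)).not.imp ?_)
    exact Loc.comp2 (Loc.df (Loc.const _)) (Loc.df (Loc.const _)) (fun a b => e a < e b)
  have h3 := sigma_of_closed hcl
  have h4 : {x : K → K | ro r t x < η} = {x : K → K | ∃ y : K → K,
      Good r x (dec y) ∧ ∀ t1 t2 : ℕ × K,
      (dec y).lt (Hc (dec y) t1.1 t1.2) (Hc (dec y) t2.1 t2.2) →
      ¬ (dec y).lt (Hc (dec y) t.1 t.2) (Hc (dec y) t2.1 t2.2) →
      e ((dec y).f (eT t1)) < e ((dec y).f (eT t2))} := by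
    ext x
    constructor
    · intro hx
      have hx : ro r t x < η := hx
      have h5 : ∀ k : K, ∃ j : K, ∀ s : ℕ × K, eT s = k → ro r s x < η → e j = ro r s x := by
        intro k
        by_cases h : ∃ s, eT s = k ∧ ro r s x < η
        · obtain ⟨s, hs1, hs2⟩ := h
          obtain ⟨j, hj⟩ := (he2 _).1 hs2
          refine ⟨j, fun s' hs' _ => ?_⟩
          rw [← hs1] at hs'
          rw [heT hs']
          exact hj
        · refine ⟨k, fun s hs1 hs2 => absurd ⟨s, hs1, hs2⟩ h⟩
      choose f hf using h5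
      obtain ⟨c, hc, hcf⟩ := exists_good (hall x) f
      obtain ⟨y, rfl⟩ := exists_dec c
      refine ⟨y, hc, fun t1 t2 h6 h7 => ?_⟩
      rw [hc.lt_Hc] at h6 h7
      have h8 : ro r t1 x < ro r t2 x := rho_lt h6
      have h9 : ro r t2 x ≤ ro r t x := rho_le (not_lt.1 h7)
      rw [hcf, hf _ t1 rfl (h8.trans_le (h9.trans hx.le)), hf _ t2 rfl (h9.trans_lt hx)]
      exact h8
    · rintro ⟨y, hc, h5⟩
      have h6 : ∀ (β : Ordinal.{u}) (t2 : ℕ × K),
          HH K (graph r) (nu0 (graph r) x) t2 = β →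
          ¬ HH K (graph r) (nu0 (graph r) x) t < β →
          ro r t2 x ≤ e ((dec y).f (eT t2)) := by
        intro β
        induction β using WellFoundedLT.induction with
        | ind β ih =>
          intro t2 ht2 hle
          apply rho_le_of
          intro s hs
          have h7 := ih _ (ht2 ▸ hs) s rfl (fun h => hle (h.trans (ht2 ▸ hs)))
          refine h7.trans_lt (h5 s t2 ?_ ?_)
          · rw [hc.lt_Hc]; exact hs
          · rw [hc.lt_Hc, ht2]; exact hle
      exact (h6 _ t rfl (lt_irrefl _)).trans_lt ((he2 _).2 ⟨_, rfl⟩)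
  rw [h4]
  exact h3

theorem sigma_ge {r : K → K} (hall : ∀ x : K → K, ∃ ν, Bad (graph r) x ν) (t : ℕ × K)
    {η : Ordinal.{u}} (h1 : kap K ≤ η) (h2 : η.card ≤ #K) : Sigma11 {x | ro r t x < η}ᶜ := by
  classical
  obtain ⟨e, he1, he2⟩ := exists_enum_lt (K := K) h1 h2
  have hne : Nonempty K := RegK.nonempty
  obtain ⟨sT, hsT⟩ := exists_surj_of_card K (β := ℕ × K) (mk_tt (K := K))
  have hcl : LClosed (fun p : Om K => Good r p.1 (dec p.2) ∧
      (∀ a b : K, e a < e b →
        (dec p.2).lt (Hc (dec p.2) (sT ((dec p.2).f a)).1 (sT ((dec p.2).f a)).2)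
          (Hc (dec p.2) (sT ((dec p.2).f b)).1 (sT ((dec p.2).f b)).2)) ∧
      (∀ a : K, (dec p.2).lt (Hc (dec p.2) (sT ((dec p.2).f a)).1 (sT ((dec p.2).f a)).2)
          (Hc (dec p.2) t.1 t.2))) := by
    have h0 : ∀ a : K, Loc (fun p : Om K =>
        Hc (dec p.2) (sT ((dec p.2).f a)).1 (sT ((dec p.2).f a)).2) := fun a =>
      Loc.bind (g := fun y p => Hc (dec p.2) (sT y).1 (sT y).2) (Loc.df (Loc.const a))
        fun y => Loc.Hc _ _
    refine (closed_good r).and (LClosed.and (LClosed.all fun a => LClosed.all fun b =>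
      LClosed.all fun _ => Loc.closed ?_) (LClosed.all fun a => Loc.closed ?_))
    · exact Loc.dlt (h0 a) (h0 b)
    · exact Loc.dlt (h0 a) (Loc.Hc _ _)
  have h3 := sigma_of_closed hcl
  have h4 : {x : K → K | ro r t x < η}ᶜ = {x : K → K | ∃ y : K → K,
      Good r x (dec y) ∧
      (∀ a b : K, e a < e b →
        (dec y).lt (Hc (dec y) (sT ((dec y).f a)).1 (sT ((dec y).f a)).2)
          (Hc (dec y) (sT ((dec y).f b)).1 (sT ((dec y).f b)).2)) ∧
      (∀ a : K, (dec y).lt (Hc (dec y) (sT ((dec y).f a)).1 (sT ((dec y).f a)).2)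
          (Hc (dec y) t.1 t.2))} := by
    ext x
    constructor
    · intro hx
      have hx : ¬ ro r t x < η := hx
      push Not at hx
      have h5 : ∀ a : K, ∃ k : K, ro r (sT k) x = e a := by
        intro a
        have h6 : e a ≤ ro r t x := ((he2 _).2 ⟨a, rfl⟩).le.trans hx
        obtain ⟨s, hs⟩ := exists_rho h6
        obtain ⟨k, rfl⟩ := hsT s
        exact ⟨k, hs⟩
      choose f hf using h5
      obtain ⟨c, hc, hcf⟩ := exists_good (hall x) f
      obtain ⟨y, rfl⟩ := exists_dec c
      refine ⟨y, hc, fun a b hab => ?_, fun a => ?_⟩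
      · rw [hc.lt_Hc, hcf, ← rho_lt_iff]
        change ro r _ x < ro r _ x
        rw [hf, hf]
        exact hab
      · rw [hc.lt_Hc, hcf, ← rho_lt_iff]
        change ro r _ x < ro r _ x
        rw [hf]
        exact ((he2 _).2 ⟨a, rfl⟩).trans_le hx
    · rintro ⟨y, hc, h5, h6⟩ hx
      have hx : ro r t x < η := hx
      have h7 : ∀ (β : Ordinal.{u}) (a : K), e a = β → e a ≤ ro r (sT ((dec y).f a)) x := by
        intro β
        induction β using WellFoundedLT.induction with
        | ind β ih =>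
          intro a ha
          by_contra hlt
          push Not at hlt
          obtain ⟨b, hb⟩ := (he2 _).1 (hlt.trans ((he2 _).2 ⟨a, rfl⟩))
          have h8 : e b < e a := by rw [hb]; exact hlt
          have h9 := ih _ (ha ▸ h8) b rfl
          have h10 := h5 b a h8
          rw [hc.lt_Hc, ← rho_lt_iff] at h10
          change ro r _ x < ro r _ x at h10
          rw [← hb] at h10
          exact absurd h10 (not_lt_of_ge h9)
      obtain ⟨a, ha⟩ := (he2 _).1 hx
      have h8 := h7 _ a rfl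
      have h9 := h6 a
      rw [hc.lt_Hc, ← rho_lt_iff] at h9
      change ro r _ x < ro r _ x at h9
      rw [ha] at h8
      exact absurd h9 (not_lt_of_ge h8)
  rw [h4]
  exact h3

/-- The main theorem, for well-ordered types. -/
theorem main_K [SuccOrder K] (hD : ∀ A : Set (K → K), Delta11 A → LMeas A) (r : K → K) :
    ∃ x : K → K, ∀ y : K → K, InL (graph r) (graph y) → ∃ a, ∀ i, a ≤ i → y i < x i := by
  by_contra hcon
  push Not at hcon
  have hall : ∀ x : K → K, ∃ ν, Bad (graph r) x ν := by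
    intro x
    obtain ⟨y, ⟨α, hα⟩, h1⟩ := hcon x
    obtain ⟨ν, h2, _, h3⟩ := exists_name α hα
    refine ⟨ν, h2, fun i => ?_⟩
    obtain ⟨i', h4, h5⟩ := h1 i
    refine ⟨i', h4, y i', ?_, ?_, h5⟩
    · change opr i' (y i') ∈ F (graph r) ν
      rw [h3, opr_mem_graph]
    · intro j hj
      change ¬ opr i' j ∈ F (graph r) ν
      rw [h3, opr_mem_graph]
      exact hj.ne'
  have hA := graph_mem_Lev r
  let E : Type u := (succ #K).ord.ToType
  let et : E → Ordinal.{u} := fun e => kap K + Ordinal.typein (α := E) (· < ·) e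
  have het1 : ∀ e, kap K ≤ et e := fun e => le_add_of_nonneg_right zero_le
  have het2 : ∀ e, (et e).card ≤ #K := by
    intro e
    change (kap K + Ordinal.typein (α := E) (· < ·) e).card ≤ #K
    rw [Ordinal.card_add]
    have h1 : (kap K).card = #K := Ordinal.card_type _
    have h2 : (Ordinal.typein (α := E) (· < ·) e).card ≤ #K := by
      rw [← lt_succ_iff]
      exact card_typein_toType_lt _ e
    rw [h1]
    exact (add_le_add le_rfl h2).trans (add_eq_self RegK.unc.le).le
  have hmeas : ∀ t {η : Ordinal.{u}}, kap K ≤ η → η.card ≤ #K →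
      LMeas {x : K → K | ro r t x < η} := fun t η h1 h2 =>
    hD _ ⟨sigma_lt hall t h1 h2, sigma_ge hall t h1 h2⟩
  refine comb (K := K) (Tt := ℕ × K) mk_tt (E := E) ?_ (fun t e => {x | ro r t x = et e})
    ?_ ?_ ?_
  · rw [mk_ord_toType]
    exact lt_succ _
  · intro t e e' hne x hx hx'
    have h1 : ro r t x = et e := hx
    have h2 : ro r t x = et e' := hx'
    rw [h1] at h2
    have h3 := (add_right_inj (kap K)).1 h2
    exact hne (Ordinal.typein_injective _ h3)
  · intro t e
    have h1 := hmeas t (het1 e) (het2 e)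
    have h2 := hmeas t (η := et e + 1) ((het1 e).trans (le_add_of_nonneg_right zero_le))
      (card_add_one_le (het2 e))
    have h3 : {x : K → K | ro r t x = et e} =
        {x : K → K | ro r t x < et e + 1} \ {x : K → K | ro r t x < et e} := by
      ext x
      change ro r t x = et e ↔ ro r t x < et e + 1 ∧ ¬ ro r t x < et e
      rw [Order.lt_add_one_iff, not_lt]
      exact le_antisymm_iff
    rw [h3]
    exact h2.diff h1
  · intro e
    exact small_meager hA hall (het2 e)

end

theorem regK_of {κ : Cardinal.{u}} (hκ : κ.IsRegular) (h0 : ℵ₀ < κ) (hp : κ ^< κ = κ) :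
    RegK κ.ord.ToType := by
  refine ⟨?_, ?_, ?_, ?_⟩
  · rw [mk_ord_toType, Ordinal.cof_toType, hκ.cof_ord]
  · rw [mk_ord_toType]; exact h0
  · intro a
    rw [mk_ord_toType]
    exact mk_Iio_toType_ord_lt a
  · rw [mk_ord_toType]; exact hp

end Pool.Agent.helper82.LV
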