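import Pool.Agent.helper82.LV.Hier

/-!
Formula toolkit and names for the elements of the hierarchy.
-/

set_option autoImplicit false

universe u v w

namespace Pool.Agent.helper82.LV

open FirstOrder ZFSet

/-- Formulas with `n` free variables. -/
abbrev BF (n : ℕ) := lang.BoundedFormula Empty n

/-! ### Formula builders -/

/-- `x_i ∈ x_j` -/
def mF {n : ℕ} (i j : Fin n) : BF n :=
  .rel (n := n) (l := 2) SRel.mem ![.var (.inr i), .var (.inr j)]

/-- `x_i = x_j` -/
def eF {n : ℕ} (i j : Fin n) : BF n := .equal (.var (.inr i)) (.var (.inr j))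

/-- negation -/
def nF {n : ℕ} (φ : BF n) : BF n := .imp φ .falsum

/-- conjunction -/
def aF {n : ℕ} (φ ψ : BF n) : BF n := nF (.imp φ (nF ψ))

/-- disjunction -/
def oF {n : ℕ} (φ ψ : BF n) : BF n := .imp (nF φ) ψ

/-- equivalence -/
def iF {n : ℕ} (φ ψ : BF n) : BF n := aF (.imp φ ψ) (.imp ψ φ)

variable {A M : ZFSet.{u}}

theorem sat_mF {n : ℕ} {i j : Fin n} {e : Fin n → ZFSet.{u}} :
    Sat A M (mF i j) e ↔ e i ∈ e j := Iff.rfl

theorem sat_eF {n : ℕ} {i j : Fin n} {e : Fin n → ZFSet.{u}} :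
    Sat A M (eF i j) e ↔ e i = e j := Iff.rfl

theorem sat_imp {n : ℕ} {φ ψ : BF n} {e : Fin n → ZFSet.{u}} :
    Sat A M (.imp φ ψ) e ↔ (Sat A M φ e → Sat A M ψ e) := Iff.rfl

theorem sat_nF {n : ℕ} {φ : BF n} {e : Fin n → ZFSet.{u}} :
    Sat A M (nF φ) e ↔ ¬ Sat A M φ e := Iff.rfl

theorem sat_all {n : ℕ} {φ : BF (n + 1)} {e : Fin n → ZFSet.{u}} :
    Sat A M (.all φ) e ↔ ∀ z ∈ M, Sat A M φ (Fin.snoc (α := fun _ => ZFSet.{u}) e z) := Iff.rfl

theorem sat_aF {n : ℕ} {φ ψ : BF n} {e : Fin n → ZFSet.{u}} :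
    Sat A M (aF φ ψ) e ↔ Sat A M φ e ∧ Sat A M ψ e := by
  unfold aF
  rw [sat_nF, sat_imp, sat_nF]
  tauto

theorem sat_oF {n : ℕ} {φ ψ : BF n} {e : Fin n → ZFSet.{u}} :
    Sat A M (oF φ ψ) e ↔ Sat A M φ e ∨ Sat A M ψ e := by
  unfold oF
  rw [sat_imp, sat_nF]
  tauto

theorem sat_iF {n : ℕ} {φ ψ : BF n} {e : Fin n → ZFSet.{u}} :
    Sat A M (iF φ ψ) e ↔ (Sat A M φ e ↔ Sat A M ψ e) := by
  unfold iF
  rw [sat_aF, sat_imp, sat_imp]
  tauto

/-- Extending a map of variables by the last variable. -/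
def lft {n m : ℕ} (f : Fin n → Fin m) : Fin (n + 1) → Fin (m + 1) :=
  Fin.snoc (α := fun _ => Fin (m + 1)) (fun i => (f i).castSucc) (Fin.last m)

theorem snoc_lft {X : Type v} {n m : ℕ} (f : Fin n → Fin m) (e : Fin m → X) (z : X) :
    (fun i => Fin.snoc (α := fun _ => X) e z (lft f i)) =
      Fin.snoc (α := fun _ => X) (fun i => e (f i)) z := by
  funext i
  refine Fin.lastCases ?_ (fun j => ?_) i
  · simp [lft]
  · simp [lft]

/-- Renaming in terms. -/
def rnT {n m : ℕ} (f : Fin n → Fin m) (t : lang.Term (Empty ⊕ Fin n)) :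
    lang.Term (Empty ⊕ Fin m) := .var (.inr (f (tv t)))

/-- Renaming of variables in formulas. -/
def rn : {n m : ℕ} → (Fin n → Fin m) → BF n → BF m
  | _, _, _, .falsum => .falsum
  | _, _, f, .equal s t => .equal (rnT f s) (rnT f t)
  | _, _, f, .rel R ts => .rel R (fun i => rnT f (ts i))
  | _, _, f, .imp φ ψ => .imp (rn f φ) (rn f ψ)
  | _, _, f, .all φ => .all (rn (lft f) φ)

theorem sat_rn {n : ℕ} (φ : BF n) : ∀ {m : ℕ} (f : Fin n → Fin m) (e : Fin m → ZFSet.{u}),
    Sat A M (rn f φ) e ↔ Sat A M φ (fun i => e (f i)) := by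
  induction φ with
  | falsum => intro m f e; exact Iff.rfl
  | equal s t => intro m f e; exact Iff.rfl
  | rel R ts =>
    intro m f e
    cases R with
    | mem => exact Iff.rfl
    | prd => exact Iff.rfl
  | imp φ ψ h1 h2 =>
    intro m f e
    simp only [rn, Sat]
    rw [h1, h2]
  | all φ h =>
    intro m f e
    simp only [rn, Sat]
    refine forall_congr' fun z => forall_congr' fun hz => ?_
    rw [h, snoc_lft]

/-! ### Names -/

/-- Names: `mk b n φ ps` names the subset of the `b`-th level defined by `φ` from the sets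
named by `ps`. -/
inductive Nm (I : Type v) : Type v
  | mk (b : I) (n : ℕ) (φ : BF (n + 1)) (ps : Fin n → Nm I) : Nm I

namespace Nm

variable {I : Type v} {J : Type w}

/-- The level of a name. -/
def head : Nm I → I
  | mk b _ _ _ => b

/-- Changing the levels. -/
def map (f : I → J) : Nm I → Nm J
  | mk b n φ ps => mk (f b) n φ (fun i => (ps i).map f)

/-- Parameters are of lower level, hereditarily. -/
def wf (lt : I → I → Prop) : Nm I → Prop
  | mk b _ _ ps => ∀ i, lt (ps i).head b ∧ (ps i).wf lt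

@[simp] theorem head_mk (b : I) (n : ℕ) (φ : BF (n + 1)) (ps : Fin n → Nm I) :
    (mk b n φ ps).head = b := rfl

@[simp] theorem map_mk (f : I → J) (b : I) (n : ℕ) (φ : BF (n + 1)) (ps : Fin n → Nm I) :
    (mk b n φ ps).map f = mk (f b) n φ (fun i => (ps i).map f) := rfl

theorem wf_mk (lt : I → I → Prop) (b : I) (n : ℕ) (φ : BF (n + 1)) (ps : Fin n → Nm I) :
    (mk b n φ ps).wf lt ↔ ∀ i, lt (ps i).head b ∧ (ps i).wf lt := Iff.rfl

@[simp] theorem head_map (f : I → J) (ν : Nm I) : (ν.map f).head = f ν.head := by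
  cases ν; rfl

theorem map_map {L : Type*} (f : I → J) (g : J → L) (ν : Nm I) :
    (ν.map f).map g = ν.map (g ∘ f) := by
  induction ν with
  | mk b n φ ps ih => simp only [map_mk, Function.comp, ih]

theorem wf_map {lt : I → I → Prop} {lt' : J → J → Prop} {f : I → J}
    (h : ∀ a b, lt a b ↔ lt' (f a) (f b)) (ν : Nm I) : (ν.map f).wf lt' ↔ ν.wf lt := by
  induction ν with
  | mk b n φ ps ih =>
    simp only [map_mk, wf_mk, head_map]
    exact forall_congr' fun i => by rw [ih, h]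

theorem map_injective {f : I → J} (hf : Function.Injective f) :
    Function.Injective (map f) := by
  intro μ
  induction μ with
  | mk b n φ ps ih =>
    intro ν h
    cases ν with
    | mk b' n' φ' ps' =>
      simp only [map_mk, mk.injEq] at h
      obtain ⟨h1, h2, h3, h4⟩ := h
      subst h2
      have h3 := eq_of_heq h3
      have h4 := eq_of_heq h4
      subst h3
      have : b = b' := hf h1
      subst this
      have : ps = ps' := by
        funext i
        exact ih i (congrFun h4 i)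
      rw [this]

/-- All levels occurring in the name satisfy `P`. -/
def All (P : I → Prop) : Nm I → Prop
  | mk b _ _ ps => P b ∧ ∀ i, (ps i).All P

theorem all_mk (P : I → Prop) (b : I) (n : ℕ) (φ : BF (n + 1)) (ps : Fin n → Nm I) :
    (mk b n φ ps).All P ↔ P b ∧ ∀ i, (ps i).All P := Iff.rfl

theorem all_mono {P Q : I → Prop} (h : ∀ a, P a → Q a) {ν : Nm I} (hν : ν.All P) : ν.All Q := by
  induction ν with
  | mk b n φ ps ih => exact ⟨h _ hν.1, fun i => ih i (hν.2 i)⟩

theorem exists_map {f : I → J} {ν : Nm J} (h : ν.All (fun b => b ∈ Set.range f)) :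
    ∃ μ : Nm I, μ.map f = ν := by
  induction ν with
  | mk b n φ ps ih =>
    obtain ⟨⟨a, ha⟩, h2⟩ := h
    choose g hg using fun i => ih i (h2 i)
    refine ⟨mk a n φ g, ?_⟩
    rw [map_mk, ha]
    congr 1
    funext i
    exact hg i

theorem all_map {f : I → J} {P : J → Prop} {ν : Nm I} :
    (ν.map f).All P ↔ ν.All (fun a => P (f a)) := by
  induction ν with
  | mk b n φ ps ih => simp only [map_mk, all_mk, ih]

theorem all_of_wf {lt : I → I → Prop} (htr : ∀ a b c, lt a b → lt b c → lt a c) {ν : Nm I}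
    (h : ν.wf lt) {β : I} (hβ : lt ν.head β) : ν.All (fun b => lt b β) := by
  induction ν with
  | mk b n φ ps ih =>
    exact ⟨hβ, fun i => ih i (h i).2 (htr _ _ _ (h i).1 hβ)⟩

theorem map_congr {f g : I → J} {ν : Nm I} (h : ν.All (fun a => f a = g a)) :
    ν.map f = ν.map g := by
  induction ν with
  | mk b n φ ps ih =>
    rw [map_mk, map_mk, h.1]
    congr 1
    funext i
    exact ih i (h.2 i)

theorem map_id' (ν : Nm I) : ν.map (fun a => a) = ν := by
  induction ν with
  | mk b n φ ps ih =>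
    rw [map_mk]
    congr 1
    funext i
    exact ih i

theorem all_true {P : I → Prop} (h : ∀ a, P a) (ν : Nm I) : ν.All P := by
  induction ν with
  | mk b n φ ps ih => exact ⟨h _, ih⟩

end Nm

/-! ### The set named by a name -/

/-- The set named by a name over the ordinals. -/
noncomputable def F (A : ZFSet.{u}) : Nm Ordinal.{u} → ZFSet.{u}
  | .mk b _ φ ps => ZFSet.sep (fun z => Sat A (Lev A b) φ
      (Fin.snoc (α := fun _ => ZFSet.{u}) (fun i => F A (ps i)) z)) (Lev A b)

theorem mem_F {b : Ordinal.{u}} {n : ℕ} {φ : BF (n + 1)} {ps : Fin n → Nm Ordinal.{u}}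
    {z : ZFSet.{u}} : z ∈ F A (.mk b n φ ps) ↔ z ∈ Lev A b ∧ Sat A (Lev A b) φ
      (Fin.snoc (α := fun _ => ZFSet.{u}) (fun i => F A (ps i)) z) := by
  rw [F, ZFSet.mem_sep]

theorem F_subset (ν : Nm Ordinal.{u}) : F A ν ⊆ Lev A ν.head := by
  cases ν with
  | mk b n φ ps => intro z hz; exact (mem_F.1 hz).1

/-- Well-formed names over the ordinals. -/
abbrev Wf (ν : Nm Ordinal.{u}) : Prop := ν.wf (· < ·)

theorem F_mem_Lev {ν : Nm Ordinal.{u}} (h : Wf ν) : ∀ {β : Ordinal.{u}}, ν.head < β →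
    F A ν ∈ Lev A β := by
  induction ν with
  | mk b n φ ps ih =>
    intro β hβ
    rw [mem_Lev]
    refine ⟨b, hβ, ?_⟩
    rw [defOver_iff]
    refine ⟨fun z hz => (mem_F.1 hz).1, n, φ, fun i => F A (ps i), fun i => ?_, fun z hz => ?_⟩
    · exact ih i (h i).2 (h i).1
    · rw [mem_F]
      exact ⟨fun h => h.2, fun h => ⟨hz, h⟩⟩

theorem exists_name (β : Ordinal.{u}) : ∀ {X : ZFSet.{u}}, X ∈ Lev A β →
    ∃ ν : Nm Ordinal.{u}, Wf ν ∧ ν.head < β ∧ F A ν = X := by
  induction β using WellFoundedLT.induction with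
  | ind β ih =>
    intro X hX
    rw [mem_Lev] at hX
    obtain ⟨γ, hγ, h⟩ := hX
    rw [defOver_iff] at h
    obtain ⟨h1, n, φ, p, hp, h2⟩ := h
    choose g hg using fun i => ih γ hγ (hp i)
    refine ⟨.mk γ n φ g, fun i => ⟨(hg i).2.1, (hg i).1⟩, hγ, ?_⟩
    ext z
    rw [mem_F]
    have : (fun i => F A (g i)) = p := funext fun i => (hg i).2.2
    rw [this]
    constructor
    · rintro ⟨h3, h4⟩
      exact (h2 z h3).2 h4
    · intro h3
      exact ⟨h1 h3, (h2 z (h1 h3)).1 h3⟩

end Pool.Agent.helper82.LV
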