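import Pool.Agent.helper82.LV.Names

/-!
Cardinality of the set of names, and a canonical ordering of names.
-/

set_option autoImplicit false

universe u v w

namespace Pool.Agent.helper82.LV

open FirstOrder ZFSet Cardinal

instance : Countable (Σ l, lang.Relations l) := by
  have : Function.Injective (fun x : (Σ l, lang.Relations l) => x.1) := by
    rintro ⟨l, R⟩ ⟨l', R'⟩ h
    simp only at h
    subst h
    congr 1
    change SRel l at R
    change SRel l at R'
    cases R with
    | mem => cases R'; rfl
    | prd => cases R'; rfl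
  exact this.countable

instance : Countable (Σ l, lang.Functions l) := by
  have : IsEmpty (Σ l, lang.Functions l) := ⟨fun x => (x.2 : Empty).elim⟩
  infer_instance

instance : Countable lang.Symbols :=
  inferInstanceAs (Countable ((Σ l, lang.Functions l) ⊕ (Σ l, lang.Relations l)))

instance countable_form : Countable (Σ n, BF (n + 1)) := by
  have : Function.Injective
      (fun x : (Σ n, BF (n + 1)) => (⟨x.1 + 1, x.2⟩ : Σ n, lang.BoundedFormula Empty n)) := by
    rintro ⟨n, φ⟩ ⟨m, ψ⟩ h
    simp only [Sigma.mk.injEq, add_left_inj] at h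
    obtain ⟨h1, h2⟩ := h
    subst h1
    rw [eq_of_heq h2]
  exact this.countable

namespace Nm

variable {I : Type v} {J : Type w}

/-- Names as well-founded trees. -/
def toW : Nm I → WType (fun a : I × (Σ n, BF (n + 1)) => Fin a.2.1)
  | mk b n φ ps => WType.mk (b, ⟨n, φ⟩) (fun i => (ps i).toW)

theorem toW_injective : Function.Injective (toW : Nm I → _) := by
  intro μ
  induction μ with
  | mk b n φ ps ih =>
    intro ν h
    cases ν with
    | mk b' n' φ' ps' =>
      simp only [toW, WType.mk.injEq, Prod.mk.injEq, Sigma.mk.injEq] at h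
      obtain ⟨⟨h1, h2, h3⟩, h4⟩ := h
      subst h1
      subst h2
      have h3 := eq_of_heq h3
      subst h3
      have h4 := eq_of_heq h4
      congr 1
      funext i
      exact ih i (congrFun h4 i)

theorem card_le : #(Nm I) ≤ max #I ℵ₀ := by
  refine (Cardinal.mk_le_of_injective toW_injective).trans ?_
  refine (WType.cardinalMk_le_max_aleph0_of_finite').trans ?_
  refine max_le ?_ (le_max_right _ _)
  rw [Cardinal.lift_uzero, Cardinal.mk_prod, Cardinal.lift_id']
  have h1 : Cardinal.lift.{v, 0} #(Σ n, BF (n + 1)) ≤ ℵ₀ := by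
    rw [Cardinal.lift_le_aleph0]
    exact Cardinal.mk_le_aleph0
  calc #I * Cardinal.lift.{v, 0} #(Σ n, BF (n + 1)) ≤ max #I ℵ₀ * max #I ℵ₀ :=
        mul_le_mul' (le_max_left _ _) (h1.trans (le_max_right _ _))
    _ = max #I ℵ₀ := Cardinal.mul_eq_self (le_max_right _ _)

instance countable_unit : Countable (Nm Unit) := by
  rw [← Cardinal.mk_le_aleph0_iff]
  refine card_le.trans ?_
  simp

/-- The shape of a name. -/
def shape (ν : Nm I) : Nm Unit := ν.map (fun _ => ())

/-- The list of levels of a name. -/
def levels : Nm I → List I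
  | mk b _ _ ps => b :: (List.ofFn (fun i => (ps i).levels)).flatten

@[simp] theorem levels_mk (b : I) (n : ℕ) (φ : BF (n + 1)) (ps : Fin n → Nm I) :
    (mk b n φ ps).levels = b :: (List.ofFn (fun i => (ps i).levels)).flatten := rfl

theorem shape_mk (b : I) (n : ℕ) (φ : BF (n + 1)) (ps : Fin n → Nm I) :
    (mk b n φ ps).shape = mk () n φ (fun i => (ps i).shape) := rfl

theorem shape_map (f : I → J) (ν : Nm I) : (ν.map f).shape = ν.shape := by
  unfold shape
  rw [map_map]

theorem levels_map (f : I → J) (ν : Nm I) : (ν.map f).levels = ν.levels.map f := by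
  induction ν with
  | mk b n φ ps ih =>
    simp only [map_mk, levels_mk, List.map_cons, List.map_flatten, List.map_ofFn]
    congr 3
    funext i
    exact ih i

theorem length_levels_of_shape {μ : Nm I} : ∀ {ν : Nm J}, μ.shape = ν.shape →
    μ.levels.length = ν.levels.length := by
  induction μ with
  | mk b n φ ps ih =>
    intro ν h
    cases ν with
    | mk b' n' φ' ps' =>
      simp only [shape_mk, mk.injEq, true_and] at h
      obtain ⟨h2, h3, h4⟩ := h
      subst h2
      have h4 := eq_of_heq h4
      simp only [levels_mk, List.length_cons, List.length_flatten, List.map_ofFn]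
      congr 3
      funext i
      exact ih i (congrFun h4 i)

theorem ext_of_shape_levels {μ : Nm I} : ∀ {ν : Nm I}, μ.shape = ν.shape →
    μ.levels = ν.levels → μ = ν := by
  induction μ with
  | mk b n φ ps ih =>
    intro ν h hl
    cases ν with
    | mk b' n' φ' ps' =>
      simp only [shape_mk, mk.injEq, true_and] at h
      obtain ⟨h2, h3, h4⟩ := h
      subst h2
      have h3 := eq_of_heq h3
      subst h3
      have h4 := eq_of_heq h4
      simp only [levels_mk, List.cons.injEq] at hl
      obtain ⟨rfl, hl⟩ := hl
      have hlen : List.map List.length (List.ofFn (fun i => (ps i).levels)) =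
          List.map List.length (List.ofFn (fun i => (ps' i).levels)) := by
        rw [List.map_ofFn, List.map_ofFn]
        congr 1
        funext i
        exact length_levels_of_shape (congrFun h4 i)
      have := List.eq_iff_flatten_eq.2 ⟨hl, hlen⟩
      have h5 := List.ofFn_injective this
      congr 1
      funext i
      exact ih i (congrFun h4 i) (congrFun h5 i)

theorem mem_levels_iff_all {P : I → Prop} {ν : Nm I} : ν.All P ↔ ∀ a ∈ ν.levels, P a := by
  induction ν with
  | mk b n φ ps ih =>
    simp only [all_mk, ih, levels_mk, List.mem_cons, List.mem_flatten, List.mem_ofFn]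
    constructor
    · rintro ⟨h1, h2⟩ a (rfl | ⟨l, ⟨i, rfl⟩, ha⟩)
      · exact h1
      · exact h2 i a ha
    · intro h
      exact ⟨h b (Or.inl rfl), fun i a ha => h a (Or.inr ⟨_, ⟨i, rfl⟩, ha⟩)⟩

theorem head_mem_levels (ν : Nm I) : ν.head ∈ ν.levels := by
  cases ν; simp

/-- A fixed injection of shapes into the natural numbers. -/
noncomputable def enc : Nm Unit → ℕ := (exists_injective_nat (Nm Unit)).choose

theorem enc_injective : Function.Injective enc := (exists_injective_nat (Nm Unit)).choose_spec

/-- The canonical ordering of names over an ordered set of levels. -/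
def ltN (lt : I → I → Prop) (μ ν : Nm I) : Prop :=
  Prod.Lex (· < ·) (List.Shortlex lt) (enc μ.shape, μ.levels) (enc ν.shape, ν.levels)

theorem ltN_wf {lt : I → I → Prop} (h : WellFounded lt) : WellFounded (ltN lt) :=
  InvImage.wf _ (WellFounded.prod_lex Nat.lt_wfRel.wf (List.Shortlex.wf h))

theorem lex_trich {lt : I → I → Prop} (h : ∀ a b, lt a b ∨ a = b ∨ lt b a) :
    ∀ {l l' : List I}, l.length = l'.length → List.Lex lt l l' ∨ l = l' ∨ List.Lex lt l' l
  | [], [], _ => Or.inr (Or.inl rfl)
  | [], _ :: _, e => by simp at e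
  | _ :: _, [], e => by simp at e
  | a :: l, b :: l', e => by
    rcases h a b with h1 | rfl | h1
    · exact Or.inl (List.Lex.rel h1)
    · rcases lex_trich h (l := l) (l' := l') (by simpa using e) with h2 | rfl | h2
      · exact Or.inl (List.Lex.cons h2)
      · exact Or.inr (Or.inl rfl)
      · exact Or.inr (Or.inr (List.Lex.cons h2))
    · exact Or.inr (Or.inr (List.Lex.rel h1))

theorem ltN_trich {lt : I → I → Prop} (h : ∀ a b, lt a b ∨ a = b ∨ lt b a) (μ ν : Nm I) :
    ltN lt μ ν ∨ μ = ν ∨ ltN lt ν μ := by
  rcases lt_trichotomy (enc μ.shape) (enc ν.shape) with h1 | h1 | h1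
  · exact Or.inl (Prod.Lex.left _ _ h1)
  · have hs := enc_injective h1
    have hl := length_levels_of_shape hs
    rcases lex_trich h hl with h2 | h2 | h2
    · refine Or.inl ?_
      unfold ltN
      rw [h1]
      exact Prod.Lex.right _ ((List.shortlex_iff_lex hl).2 h2)
    · exact Or.inr (Or.inl (ext_of_shape_levels hs h2))
    · refine Or.inr (Or.inr ?_)
      unfold ltN
      rw [h1]
      exact Prod.Lex.right _ ((List.shortlex_iff_lex hl.symm).2 h2)
  · exact Or.inr (Or.inr (Prod.Lex.left _ _ h1))

theorem lex_cons_cons {lt : I → I → Prop} {a b : I} {l l' : List I} :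
    List.Lex lt (a :: l) (b :: l') ↔ lt a b ∨ (a = b ∧ List.Lex lt l l') := by
  constructor
  · intro h
    cases h with
    | rel h => exact Or.inl h
    | cons h => exact Or.inr ⟨rfl, h⟩
  · rintro (h | ⟨rfl, h⟩)
    · exact List.Lex.rel h
    · exact List.Lex.cons h

theorem lex_map {lt : I → I → Prop} {lt' : J → J → Prop} {f : I → J}
    (h : ∀ a b, lt a b ↔ lt' (f a) (f b)) (hf : Function.Injective f) :
    ∀ {l l' : List I}, List.Lex lt' (l.map f) (l'.map f) ↔ List.Lex lt l l'
  | [], [] => by simp
  | [], _ :: _ => by simp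
  | _ :: _, [] => by simp
  | a :: l, b :: l' => by
    rw [List.map_cons, List.map_cons, lex_cons_cons, lex_cons_cons, lex_map h hf (l := l),
      ← h, hf.eq_iff]

theorem ltN_map {lt : I → I → Prop} {lt' : J → J → Prop} {f : I → J}
    (h : ∀ a b, lt a b ↔ lt' (f a) (f b)) (hf : Function.Injective f) (μ ν : Nm I) :
    ltN lt' (μ.map f) (ν.map f) ↔ ltN lt μ ν := by
  unfold ltN
  rw [shape_map, shape_map, levels_map, levels_map, Prod.lex_def, Prod.lex_def]
  simp only [List.shortlex_def, List.length_map]
  rw [lex_map h hf]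

end Nm

end Pool.Agent.helper82.LV
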