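import Pool.Agent.helper82.LV.Uniq

/-!
Ordinals and pairs of ordinals in the hierarchy.
-/

set_option autoImplicit false

universe u v w

namespace Pool.Agent.helper82.LV

open FirstOrder ZFSet Nm Order

variable {A M : ZFSet.{u}}

/-- `x_0` is transitive. -/
def tr1 : BF (0 + 1) :=
  .all (.imp (mF (n := 2) 1 0) (.all (.imp (mF (n := 3) 2 1) (mF (n := 3) 2 0))))

/-- All elements of `x_0` are transitive. -/
def tr2 : BF (0 + 1) :=
  .all (.imp (mF (n := 2) 1 0) (.all (.imp (mF (n := 3) 2 1)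
    (.all (.imp (mF (n := 4) 3 2) (mF (n := 4) 3 1))))))

theorem sat_tr1 (hM : M.IsTransitive) {e : Fin 0 → ZFSet.{u}} {z : ZFSet.{u}} (hz : z ∈ M) :
    Sat A M tr1 (snc e z) ↔ z.IsTransitive := by
  have : Sat A M tr1 (snc e z) ↔ ∀ y ∈ M, y ∈ z → ∀ u ∈ M, u ∈ y → u ∈ z := Iff.rfl
  rw [this]
  constructor
  · intro h y hy u hu
    have hyM := hM _ hz hy
    exact h y hyM hy u (hM _ hyM hu) hu
  · intro h y _ hy u _ hu
    exact h _ hy hu

theorem sat_tr2 (hM : M.IsTransitive) {e : Fin 0 → ZFSet.{u}} {z : ZFSet.{u}} (hz : z ∈ M) :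
    Sat A M tr2 (snc e z) ↔ ∀ y ∈ z, y.IsTransitive := by
  have : Sat A M tr2 (snc e z) ↔ ∀ y ∈ M, y ∈ z → ∀ u ∈ M, u ∈ y → ∀ v ∈ M, v ∈ u → v ∈ y :=
    Iff.rfl
  rw [this]
  constructor
  · intro h y hy u hu v hv
    have hyM := hM _ hz hy
    have huM := hM _ hyM hu
    exact h y hyM hy u huM hu v (hM _ huM hv) hv
  · intro h y _ hy u _ hu v _ hv
    exact h _ hy _ hu hv

theorem toZFSet_mem_Lev (γ : Ordinal.{u}) : ∀ {β : Ordinal.{u}}, γ < β →
    γ.toZFSet ∈ Lev A β := by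
  induction γ using WellFoundedLT.induction with
  | ind γ ih =>
    intro β hβ
    rw [mem_Lev]
    refine ⟨γ, hβ, ?_⟩
    rw [defOver_iff]
    refine ⟨?_, 0, aF tr1 tr2, Fin.elim0, fun i => i.elim0, ?_⟩
    · intro z hz
      rw [Ordinal.mem_toZFSet_iff] at hz
      obtain ⟨δ, hδ, rfl⟩ := hz
      exact ih δ hδ hδ
    · intro z hz
      rw [sat_aF]
      rw [show (Fin.snoc (α := fun _ => ZFSet.{u}) Fin.elim0 z : Fin (0 + 1) → ZFSet.{u}) =
        snc Fin.elim0 z from rfl]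
      rw [sat_tr1 (Lev_transitive A γ) hz, sat_tr2 (Lev_transitive A γ) hz,
        ← ZFSet.isOrdinal_iff_forall_mem_isTransitive]
      constructor
      · intro h
        rw [Ordinal.mem_toZFSet_iff] at h
        obtain ⟨δ, _, rfl⟩ := h
        exact ZFSet.isOrdinal_toZFSet δ
      · intro h
        rw [Ordinal.mem_toZFSet_iff]
        exact ⟨z.rank, rank_lt_of_mem_Lev γ hz, h.toZFSet_rank_eq⟩

theorem pair_mem_Lev {β : Ordinal.{u}} {x y : ZFSet.{u}} (hx : x ∈ Lev A β) (hy : y ∈ Lev A β) :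
    ({x, y} : ZFSet.{u}) ∈ Lev A (succ β) := by
  rw [mem_Lev]
  refine ⟨β, lt_succ β, ?_⟩
  rw [defOver_iff]
  refine ⟨?_, 2, oF (eF (n := 3) 2 0) (eF (n := 3) 2 1), ![x, y], ?_, ?_⟩
  · intro z hz
    rw [ZFSet.mem_pair] at hz
    rcases hz with rfl | rfl
    · exact hx
    · exact hy
  · intro i
    fin_cases i
    · exact hx
    · exact hy
  · intro z _
    rw [sat_oF, sat_eF, sat_eF, ZFSet.mem_pair]
    exact Iff.rfl

theorem opair_mem_Lev {β : Ordinal.{u}} {x y : ZFSet.{u}} (hx : x ∈ Lev A β)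
    (hy : y ∈ Lev A β) : ZFSet.pair x y ∈ Lev A (succ (succ β)) := by
  have h1 := pair_mem_Lev hx hx
  have h2 := pair_mem_Lev hx hy
  have h3 := pair_mem_Lev h1 h2
  have h4 : ({x, x} : ZFSet.{u}) = {x} := by
    ext z
    rw [ZFSet.mem_pair, ZFSet.mem_singleton, or_self]
  rw [h4] at h3
  exact h3

theorem opair_ord_mem_Lev {κ0 : Ordinal.{u}} (hκ : IsSuccLimit κ0) {α β : Ordinal.{u}}
    (h1 : α < κ0) (h2 : β < κ0) : ZFSet.pair α.toZFSet β.toZFSet ∈ Lev A κ0 := by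
  have h3 : succ (max α β) < κ0 := hκ.succ_lt (max_lt h1 h2)
  have h4 := toZFSet_mem_Lev (A := A) α ((le_max_left α β).trans_lt (lt_succ _))
  have h5 := toZFSet_mem_Lev (A := A) β ((le_max_right α β).trans_lt (lt_succ _))
  exact Lev_mono (hκ.succ_lt (hκ.succ_lt h3)).le (opair_mem_Lev h4 h5)

end Pool.Agent.helper82.LV
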