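import Pool.Agent.helper82.LV.Closed

/-!
Good codes compute the hull.
-/

set_option autoImplicit false

universe u v w

namespace Pool.Agent.helper82.LV

open FirstOrder ZFSet Nm Order Cardinal

variable {K : Type u} [LinearOrder K] [RegK K] [WellFoundedLT K]

section rk

variable {r x : K → K} {c : Cd K}

theorem Good.wfd (h : Good r x c) : WellFounded c.lt := by
  rw [wellFounded_iff_isEmpty_descending_chain]
  exact ⟨fun s => h.wf s.1 s.2⟩

/-- The rank function of a good code. -/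
noncomputable def Good.rk (h : Good r x c) (k : K) : Ordinal.{u} :=
  @IsWellFounded.rank K c.lt ⟨h.wfd⟩ k

theorem Good.rk_lt (h : Good r x c) {i j : K} (hij : c.lt i j) : h.rk i < h.rk j :=
  @IsWellFounded.rank_lt_of_rel K i j c.lt ⟨h.wfd⟩ hij

theorem Good.rk_lt_iff (h : Good r x c) (i j : K) : c.lt i j ↔ h.rk i < h.rk j := by
  constructor
  · exact h.rk_lt
  · intro h1
    rcases h.tri i j with h2 | h2 | h2
    · exact h2
    · rw [h2] at h1; exact absurd h1 (lt_irrefl _)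
    · exact absurd h1 (not_lt_of_ge (h.rk_lt h2).le)

theorem Good.rk_inj (h : Good r x c) : Function.Injective h.rk := by
  intro i j hij
  rcases h.tri i j with h2 | h2 | h2
  · exact absurd hij (h.rk_lt h2).ne
  · exact h2
  · exact absurd hij (h.rk_lt h2).ne'

theorem Good.rk_seg (h : Good r x c) (i : K) (β : Ordinal.{u}) (hβ : β < h.rk i) :
    ∃ j, h.rk j = β := @IsWellFounded.mem_range_rank_of_le K i c.lt ⟨h.wfd⟩ β hβ.le

theorem Good.lt_g (h : Good r x c) {i j : K} : i < j ↔ c.lt (c.g i) (c.g j) := by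
  constructor
  · exact h.g1 i j
  · intro h1
    rcases lt_trichotomy i j with h2 | h2 | h2
    · exact h2
    · rw [h2] at h1; exact absurd h1 (h.irr _)
    · exact absurd (h.tr _ _ _ h1 (h.g1 _ _ h2)) (h.irr _)

theorem Good.rk_g (h : Good r x c) (i : K) : h.rk (c.g i) = od i := by
  induction i using WellFoundedLT.induction with
  | ind i ih =>
    apply le_antisymm
    · by_contra h1
      push Not at h1
      obtain ⟨k, hk⟩ := h.rk_seg _ _ h1
      rw [← hk, ← h.rk_lt_iff] at h1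
      obtain ⟨j, hj, rfl⟩ := h.g2 _ _ h1
      rw [ih j hj] at hk
      exact absurd (od_inj hk) hj.ne
    · by_contra h1
      push Not at h1
      obtain ⟨j, hj⟩ := exists_od (h1.trans (od_lt i))
      have h2 : j < i := by rw [← od_lt_iff, hj]; exact h1
      have h3 := h.rk_lt (h.g1 _ _ h2)
      rw [ih j h2, hj] at h3
      exact absurd h3 (lt_irrefl _)

theorem Good.rk_comp_g (h : Good r x c) : h.rk ∘ c.g = od := funext h.rk_g

/-- Names below the initial segment come from names over `K`. -/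
theorem Good.exists_low (h : Good r x c) {μ : Nm K} (h1 : μ.wf c.lt)
    (h2 : h.rk μ.head < kap K) : ∃ μ' : Nm K, μ'.wf (· < ·) ∧ μ'.map c.g = μ := by
  have h3 : Wf (μ.map h.rk) := (wf_map h.rk_lt_iff μ).2 h1
  have h4 : (μ.map h.rk).All (fun b => b < kap K) := by
    refine all_of_wf
      (lt := fun a b : Ordinal.{u} => a < b) (fun _ _ _ h h' => lt_trans h h') h3 ?_
    rw [head_map]
    exact h2
  rw [all_map] at h4
  have h5 : μ.All (fun b => b ∈ Set.range c.g) := by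
    refine all_mono ?_ h4
    intro a ha
    obtain ⟨i, hi⟩ := exists_od ha
    refine ⟨i, h.rk_inj ?_⟩
    rw [h.rk_g, hi]
  obtain ⟨μ', rfl⟩ := exists_map h5
  exact ⟨μ', (wf_map (lt := fun a b : K => a < b) (f := c.g) (fun _ _ => h.lt_g) μ').1 h1, rfl⟩

theorem Good.map_g (h : Good r x c) (μ : Nm K) : (μ.map c.g).map h.rk = μ.map od := by
  rw [map_map, h.rk_comp_g]

theorem Good.wf_g (h : Good r x c) {μ : Nm K} (h1 : μ.wf (· < ·)) : (μ.map c.g).wf c.lt :=
  (wf_map (lt := fun a b : K => a < b) (f := c.g) (fun _ _ => h.lt_g) μ).2 h1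

theorem Good.coh (h : Good r x c) : Coh (graph r) c.lt h.rk (kap K)
    (fun i : K => (prn (graph r) i (r i)).map c.g) c.m c.q c.a c.w := by
  refine
    { lt_iff := h.rk_lt_iff
      inj := h.rk_inj
      seg := h.rk_seg
      tF := h.tF
      tE := fun b n ps μ h1 h2 h3 s t => h.tE b n ps μ s t h1 h2 h3
      tM := fun b n ps μ h1 h2 h3 ts => h.tM b n ps μ ts h1 h2 h3
      tP := fun b n ps μ h1 h2 h3 ts => h.tP b n ps μ ts h1 h2 h3
      tI := fun b n ps μ h1 h2 h3 φ ψ => h.tI b n ps μ φ ψ h1 h2 h3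
      tA := fun b n ps μ h1 h2 h3 φ => h.tA b n ps μ φ h1 h2 h3
      t2 := h.t2
      t3 := fun μ ν h1 h2 h3 => ⟨_, h.t3 μ ν h1 h2 h3⟩
      t3' := h.t3'
      t4 := h.t4
      t4' := fun μ ν h1 h2 h3 => ⟨_, h.t4' μ ν h1 h2 h3⟩
      h0m := ?_
      h0q := ?_
      h0a := ?_
      pnwf := ?_
      hA := ?_
      ha := ?_ }
  · intro μ ν h1 h2 h3 h4
    obtain ⟨μ', h5, rfl⟩ := h.exists_low h1 h3
    obtain ⟨ν', h6, rfl⟩ := h.exists_low h2 h4
    rw [h.map_g, h.map_g]
    exact h.h0m μ' ν' h5 h6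
  · intro μ ν h1 h2 h3 h4
    obtain ⟨μ', h5, rfl⟩ := h.exists_low h1 h3
    obtain ⟨ν', h6, rfl⟩ := h.exists_low h2 h4
    rw [h.map_g, h.map_g]
    exact h.h0q μ' ν' h5 h6
  · intro ν h2 h4
    obtain ⟨ν', h6, rfl⟩ := h.exists_low h2 h4
    rw [h.map_g]
    exact h.h0a ν' h6
  · intro i
    refine ⟨h.wf_g (prn_wf _ _ _), ?_⟩
    rw [head_map, h.rk_g]
    exact od_lt _
  · intro z
    rw [mem_graph]
    refine exists_congr fun i => ?_
    rw [h.map_g, prn_eq]
  · intro ν h1 _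
    exact ⟨fun h3 => ⟨_, h.ha1 ν h1 h3⟩, fun ⟨i, hi⟩ => h.ha2 ν i h1 hi⟩

theorem Good.m_iff (h : Good r x c) {μ ν : Nm K} (h1 : μ.wf c.lt) (h2 : ν.wf c.lt) :
    c.m μ ν ↔ F (graph r) (μ.map h.rk) ∈ F (graph r) (ν.map h.rk) := h.coh.m_iff h1 h2

theorem Good.m_pr (h : Good r x c) (i j : K) {ν : Nm K} (h2 : ν.wf c.lt) :
    c.m ((prn (graph r) i j).map c.g) ν ↔ opr i j ∈ F (graph r) (ν.map h.rk) := by
  rw [h.m_iff (h.wf_g (prn_wf _ _ _)) h2, h.map_g, prn_eq]

/-- Names with levels at most a level of the code come from names over `K`. -/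
theorem Good.exists_nm (h : Good r x c) {μ : Nm Ordinal.{u}} (h1 : Wf μ) {k : K}
    (h2 : μ.head ≤ h.rk k) : ∃ μ' : Nm K, μ'.wf c.lt ∧ μ'.map h.rk = μ := by
  have h3 : μ.All (fun b => b ∈ Set.range h.rk) := by
    refine all_mono (P := fun b => b < succ (h.rk k)) ?_ (all_of_wf
      (lt := fun a b : Ordinal.{u} => a < b) (fun _ _ _ h h' => lt_trans h h') h1
      (lt_succ_iff.2 h2))
    intro a ha
    rcases (lt_succ_iff.1 ha).eq_or_lt with h4 | h4
    · exact ⟨k, h4.symm⟩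
    · exact h.rk_seg _ _ h4
  obtain ⟨μ', rfl⟩ := exists_map h3
  exact ⟨μ', (wf_map h.rk_lt_iff μ').1 h1, rfl⟩

theorem Good.nu_eq (h : Good r x c) : c.nu.map h.rk = nu0 (graph r) x := by
  apply nu0_unique
  · refine ⟨(wf_map h.rk_lt_iff _).2 h.nuwf, ?_⟩
    intro i
    refine ⟨c.w1 i, h.W1 i, c.w2 i, ?_, ?_, h.W4 i⟩
    · exact (h.m_pr _ _ h.nuwf).1 (h.W2 i)
    · intro j hj h1
      exact h.W3 i j hj ((h.m_pr _ _ h.nuwf).2 h1)
  · intro μ h1 h2
    have h3 : μ.head ≤ h.rk c.nu.head := by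
      rcases h2 with h3 | ⟨h3, _⟩
      · rw [head_map] at h3; exact h3.le
      · rw [head_map] at h3; exact h3.le
    obtain ⟨μ', h4, rfl⟩ := h.exists_nm h1.1 h3
    rw [hltN_map h.rk_lt_iff h.rk_inj] at h2
    obtain ⟨i', h5, j, h6, h7, h8⟩ := h1.2 (c.w0 μ')
    have h9 := h.mn μ' i' j h4 h2 h5 ((h.m_pr _ _ h4).2 h6)
      (fun j' hj' h9 => h7 j' hj' ((h.m_pr _ _ h4).1 h9))
    exact absurd h9 (not_lt_of_ge h8)

theorem Good.wit_iff (h : Good r x c) {ν : Nm K} (h1 : ν.wf c.lt) :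
    Wit c.lt c.m c.w ν ↔ ∃ μ', MemN (graph r) (ν.map h.rk) μ' := by
  constructor
  · rintro ⟨h2, h3, h4⟩
    refine ⟨(c.w ν).map h.rk, (wf_map h.rk_lt_iff _).2 h2, ?_, (h.m_iff h2 h1).1 h4⟩
    rw [head_map, head_map]
    exact h.rk_lt h3
  · rintro ⟨μ', h2, h3, h4⟩
    rw [head_map] at h3
    obtain ⟨μ, h5, rfl⟩ := h.exists_nm h2 h3.le
    rw [head_map, ← h.rk_lt_iff] at h3
    exact (h.t2 μ ν h5 h1 h3 ((h.m_iff h5 h1).2 h4)).1

theorem Good.w_eq (h : Good r x c) {ν : Nm K} (h1 : ν.wf c.lt) (hw : Wit c.lt c.m c.w ν) :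
    (c.w ν).map h.rk = wst (graph r) (ν.map h.rk) := by
  obtain ⟨h2, h3, h4⟩ := hw
  apply wst_eq
  · refine ⟨(wf_map h.rk_lt_iff _).2 h2, ?_, (h.m_iff h2 h1).1 h4⟩
    rw [head_map, head_map]
    exact h.rk_lt h3
  · rintro μ' ⟨h5, h6, h7⟩
    rw [head_map] at h6
    obtain ⟨μ, h8, rfl⟩ := h.exists_nm h5 h6.le
    rw [head_map, ← h.rk_lt_iff] at h6
    rw [ltN_map h.rk_lt_iff h.rk_inj]
    exact (h.t2 μ ν h8 h1 h6 ((h.m_iff h8 h1).2 h7)).2

end rk

/-- The name has a least member, according to the code. -/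
def Cnd (c : Cd K) (ν : Nm K) : Prop := ν.wf c.lt ∧ Wit c.lt c.m c.w ν

open Classical in
/-- The enumeration of the hull, computed from a code. -/
noncomputable def Hc (c : Cd K) : ℕ → K → K
  | 0, k => match e0 K k with
    | .inl i => c.g i
    | .inr j => getL c.nu j
  | n + 1, k => match psi K k with
    | .inl i => Hc c n i
    | .inr (μ, j) =>
      if Cnd c (μ.map (Hc c n)) then
        getL (c.w (μ.map (Hc c n))) j else c.nu.head

theorem Good.rk_Hc {r x : K → K} {c : Cd K} (h : Good r x c) (n : ℕ) (k : K) :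
    h.rk (Hc c n k) = Hs (graph r) (nu0 (graph r) x) n k := by
  induction n generalizing k with
  | zero =>
    rw [Hc, Hs]
    rcases e0 K k with i | j
    · exact h.rk_g i
    · dsimp only
      rw [← h.nu_eq, getL_map]
  | succ n ih =>
    rw [Hc, Hs]
    rcases psi K k with i | ⟨μ, j⟩
    · exact ih i
    · dsimp only
      have h1 : (μ.map (Hc c n)).map h.rk = μ.map (Hs (graph r) (nu0 (graph r) x) n) := by
        rw [map_map]
        congr 1
        funext i
        exact ih i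
      rw [← h1]
      by_cases h2 : Cnd c (μ.map (Hc c n))
      · have h3 : Wf ((μ.map (Hc c n)).map h.rk) ∧
            ∃ μ', MemN (graph r) ((μ.map (Hc c n)).map h.rk) μ' :=
          ⟨(wf_map h.rk_lt_iff _).2 h2.1, (h.wit_iff h2.1).1 h2.2⟩
        rw [if_pos h2, if_pos h3, ← h.w_eq h2.1 h2.2, getL_map]
      · have h3 : ¬ (Wf ((μ.map (Hc c n)).map h.rk) ∧
            ∃ μ', MemN (graph r) ((μ.map (Hc c n)).map h.rk) μ') := by
          rintro ⟨h4, h5⟩
          have h6 := (wf_map h.rk_lt_iff _).1 h4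
          exact h2 ⟨h6, (h.wit_iff h6).2 h5⟩
        rw [if_neg h2, if_neg h3, ← h.nu_eq, head_map]

theorem Good.lt_Hc {r x : K → K} {c : Cd K} (h : Good r x c) (s t : ℕ × K) :
    c.lt (Hc c s.1 s.2) (Hc c t.1 t.2) ↔
      HH K (graph r) (nu0 (graph r) x) s < HH K (graph r) (nu0 (graph r) x) t := by
  rw [h.rk_lt_iff, h.rk_Hc, h.rk_Hc]
  exact Iff.rfl

theorem Loc.Hc (n : ℕ) (k : K) : Loc (fun p : Om K => Hc (dec p.2) n k) := by
  induction n generalizing k with
  | zero =>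
    simp only [Pool.Agent.helper82.LV.Hc]
    rcases e0 K k with i | j
    · exact Loc.dg (Loc.const _)
    · exact Loc.dnu.comp (fun x => getL x j)
  | succ n ih =>
    simp only [Pool.Agent.helper82.LV.Hc]
    rcases psi K k with i | ⟨μ, j⟩
    · exact ih i
    · dsimp only
      refine Loc.bind (f := fun p : Om K => μ.map (Pool.Agent.helper82.LV.Hc (dec p.2) n))
        (Loc.map ih μ) (g := fun y p => @ite K (Cnd (dec p.2) y) (Classical.propDecidable _)
          (getL ((dec p.2).w y) j) (dec p.2).nu.head) fun y => ?_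
      refine Loc.bind (f := fun p : Om K => Cnd (dec p.2) y)
        ((Loc.dwf (Loc.const _)).and (Loc.wit (Loc.const _)))
        (g := fun z p => @ite K z (Classical.propDecidable _)
          (getL ((dec p.2).w y) j) (dec p.2).nu.head) fun z => ?_
      by_cases hz : z
      · simp only [hz, if_true]
        exact (Loc.dw (Loc.const _)).comp (fun x => getL x j)
      · simp only [hz, if_false]
        exact Loc.hd Loc.dnu

end Pool.Agent.helper82.LV
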