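import Pool.Agent.helper82.LV.Order

/-!
Uniqueness of the truth predicates on names: a system of predicates satisfying local recursion
clauses is the true one.
-/

set_option autoImplicit false

universe u v w

namespace Pool.Agent.helper82.LV

open FirstOrder ZFSet Nm

variable {I : Type v}

/-- The chosen member of a name is a member. -/
def Wit (lt : I → I → Prop) (m : Nm I → Nm I → Prop) (w : Nm I → Nm I) (ν : Nm I) : Prop :=
  (w ν).wf lt ∧ lt (w ν).head ν.head ∧ m (w ν) ν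

/-- Tuple extended by a last element. -/
abbrev snc {X : Type w} {n : ℕ} (e : Fin n → X) (z : X) : Fin (n + 1) → X :=
  Fin.snoc (α := fun _ => X) e z

theorem comp_snc {X : Type v} {Y : Type w} {n : ℕ} (f : X → Y) (e : Fin n → X) (z : X) :
    (fun i => f (snc e z i)) = snc (fun i => f (e i)) (f z) := by
  funext i
  refine Fin.lastCases ?_ (fun j => ?_) i
  · simp [snc]
  · simp [snc]

/-- Coherence of a system of predicates on the names over `(I, lt)`. -/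
structure Coh (A : ZFSet.{u}) (lt : I → I → Prop) (rk : I → Ordinal.{u}) (κ0 : Ordinal.{u})
    {P : Type w} (pn : P → Nm I) (m q : Nm I → Nm I → Prop) (a : Nm I → Prop)
    (w : Nm I → Nm I) : Prop where
  lt_iff : ∀ i j, lt i j ↔ rk i < rk j
  inj : Function.Injective rk
  seg : ∀ i β, β < rk i → ∃ j, rk j = β
  tF : ∀ (b : I) (n : ℕ) (ps : Fin n → Nm I) (μ : Nm I),
    (∀ i, lt (ps i).head b ∧ (ps i).wf lt) → μ.wf lt → lt μ.head b →
    ¬ m μ (mk b n .falsum ps)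
  tE : ∀ (b : I) (n : ℕ) (ps : Fin n → Nm I) (μ : Nm I),
    (∀ i, lt (ps i).head b ∧ (ps i).wf lt) → μ.wf lt → lt μ.head b → ∀ s t,
    (m μ (mk b n (.equal s t) ps) ↔ q (snc ps μ (tv s)) (snc ps μ (tv t)))
  tM : ∀ (b : I) (n : ℕ) (ps : Fin n → Nm I) (μ : Nm I),
    (∀ i, lt (ps i).head b ∧ (ps i).wf lt) → μ.wf lt → lt μ.head b →
    ∀ ts : Fin 2 → lang.Term (Empty ⊕ Fin (n + 1)),
    (m μ (mk b n (.rel (l := 2) SRel.mem ts) ps) ↔
      m (snc ps μ (tv (ts 0))) (snc ps μ (tv (ts 1))))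
  tP : ∀ (b : I) (n : ℕ) (ps : Fin n → Nm I) (μ : Nm I),
    (∀ i, lt (ps i).head b ∧ (ps i).wf lt) → μ.wf lt → lt μ.head b →
    ∀ ts : Fin 1 → lang.Term (Empty ⊕ Fin (n + 1)),
    (m μ (mk b n (.rel (l := 1) SRel.prd ts) ps) ↔ a (snc ps μ (tv (ts 0))))
  tI : ∀ (b : I) (n : ℕ) (ps : Fin n → Nm I) (μ : Nm I),
    (∀ i, lt (ps i).head b ∧ (ps i).wf lt) → μ.wf lt → lt μ.head b → ∀ φ ψ,
    (m μ (mk b n (.imp φ ψ) ps) ↔ (m μ (mk b n φ ps) → m μ (mk b n ψ ps)))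
  tA : ∀ (b : I) (n : ℕ) (ps : Fin n → Nm I) (μ : Nm I),
    (∀ i, lt (ps i).head b ∧ (ps i).wf lt) → μ.wf lt → lt μ.head b → ∀ φ,
    (m μ (mk b n (.all φ) ps) ↔ ¬ Wit lt m w (mk b (n + 1) (nF φ) (snc ps μ)))
  t2 : ∀ μ ν : Nm I, μ.wf lt → ν.wf lt → lt μ.head ν.head → m μ ν →
    Wit lt m w ν ∧ ¬ ltN lt μ (w ν)
  t3 : ∀ μ ν : Nm I, μ.wf lt → ν.wf lt → m μ ν →
    ∃ μ' : Nm I, μ'.wf lt ∧ lt μ'.head ν.head ∧ q μ μ' ∧ m μ' ν
  t3' : ∀ μ ν μ' : Nm I, μ.wf lt → ν.wf lt → μ'.wf lt → lt μ'.head ν.head → q μ μ' → m μ' ν →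
    m μ ν
  t4 : ∀ μ ν μ' : Nm I, μ.wf lt → ν.wf lt → μ'.wf lt → q μ ν → (m μ' μ ↔ m μ' ν)
  t4' : ∀ μ ν : Nm I, μ.wf lt → ν.wf lt → ¬ q μ ν →
    ∃ μ' : Nm I, μ'.wf lt ∧ (lt μ'.head μ.head ∨ lt μ'.head ν.head) ∧ ¬ (m μ' μ ↔ m μ' ν)
  h0m : ∀ μ ν : Nm I, μ.wf lt → ν.wf lt → rk μ.head < κ0 → rk ν.head < κ0 →
    (m μ ν ↔ F A (μ.map rk) ∈ F A (ν.map rk))
  h0q : ∀ μ ν : Nm I, μ.wf lt → ν.wf lt → rk μ.head < κ0 → rk ν.head < κ0 →
    (q μ ν ↔ F A (μ.map rk) = F A (ν.map rk))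
  h0a : ∀ ν : Nm I, ν.wf lt → rk ν.head < κ0 → (a ν ↔ F A (ν.map rk) ∈ A)
  pnwf : ∀ i, (pn i).wf lt ∧ rk (pn i).head < κ0
  hA : ∀ z, z ∈ A ↔ ∃ i, F A ((pn i).map rk) = z
  ha : ∀ ν : Nm I, ν.wf lt → κ0 ≤ rk ν.head → (a ν ↔ ∃ i, q ν (pn i))

/-- The set named by a name over `I`. -/
noncomputable abbrev G (A : ZFSet.{u}) (rk : I → Ordinal.{u}) (ν : Nm I) : ZFSet.{u} :=
  F A (ν.map rk)

section

variable {A : ZFSet.{u}} {lt : I → I → Prop} {rk : I → Ordinal.{u}}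

theorem G_mem_Lev (h : ∀ i j, lt i j ↔ rk i < rk j) {μ : Nm I} (hμ : μ.wf lt) {b : I}
    (hb : lt μ.head b) : G A rk μ ∈ Lev A (rk b) := by
  refine F_mem_Lev ((wf_map h μ).2 hμ) ?_
  rw [head_map]
  exact (h _ _).1 hb

theorem exists_G (h : ∀ i j, lt i j ↔ rk i < rk j) (hs : ∀ i β, β < rk i → ∃ j, rk j = β)
    {b : I} {z : ZFSet.{u}} (hz : z ∈ Lev A (rk b)) :
    ∃ μ : Nm I, μ.wf lt ∧ lt μ.head b ∧ G A rk μ = z := by
  obtain ⟨ν, h1, h2, h3⟩ := exists_name _ hz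
  have h4 : ν.All (fun β => β ∈ Set.range rk) := by
    refine all_mono ?_ (all_of_wf (lt := fun a b : Ordinal.{u} => a < b)
      (fun _ _ _ h h' => lt_trans h h') h1 h2)
    intro β hβ
    exact hs b β hβ
  obtain ⟨μ, rfl⟩ := exists_map h4
  refine ⟨μ, (wf_map h μ).1 h1, ?_, h3⟩
  rw [head_map] at h2
  exact (h _ _).2 h2

theorem mem_G_mk {b : I} {n : ℕ} {φ : BF (n + 1)} {ps : Fin n → Nm I} {z : ZFSet.{u}} :
    z ∈ G A rk (mk b n φ ps) ↔ z ∈ Lev A (rk b) ∧ Sat A (Lev A (rk b)) φ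
      (snc (fun i => G A rk (ps i)) z) := by
  unfold G
  rw [map_mk, mem_F]

end

namespace Coh

variable {A : ZFSet.{u}} {lt : I → I → Prop} {rk : I → Ordinal.{u}} {κ0 : Ordinal.{u}}
  {P : Type w} {pn : P → Nm I} {m q : Nm I → Nm I → Prop} {a : Nm I → Prop} {w : Nm I → Nm I}

/-- Correctness on names of level at most `β`. -/
def Cor (A : ZFSet.{u}) (lt : I → I → Prop) (rk : I → Ordinal.{u})
    (m q : Nm I → Nm I → Prop) (a : Nm I → Prop) (β : Ordinal.{u}) : Prop :=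
  (∀ μ ν : Nm I, μ.wf lt → ν.wf lt → rk μ.head ≤ β → rk ν.head ≤ β →
    ((m μ ν ↔ G A rk μ ∈ G A rk ν) ∧ (q μ ν ↔ G A rk μ = G A rk ν))) ∧
  (∀ ν : Nm I, ν.wf lt → rk ν.head ≤ β → (a ν ↔ G A rk ν ∈ A))

theorem sat_step (C : Coh A lt rk κ0 pn m q a w) {b : I}
    (ih : ∀ β < rk b, Cor A lt rk m q a β) {k : ℕ} (φ : BF k) :
    ∀ (n : ℕ) (hk : k = n + 1) (ps : Fin n → Nm I) (μ : Nm I),
    (∀ i, lt (ps i).head b ∧ (ps i).wf lt) → μ.wf lt → lt μ.head b →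
    (m μ (Nm.mk b n (hk ▸ φ) ps) ↔ Sat A (Lev A (rk b)) (hk ▸ φ : BF (n + 1))
      (snc (fun i => G A rk (ps i)) (G A rk μ))) := by
  have hN : ∀ {n : ℕ} {ps : Fin n → Nm I} {μ : Nm I}, (∀ i, lt (ps i).head b ∧ (ps i).wf lt) →
      μ.wf lt → lt μ.head b → ∀ i, lt (snc ps μ i).head b ∧ (snc ps μ i).wf lt := by
    intro n ps μ h1 h2 h3 i
    refine Fin.lastCases ?_ (fun j => ?_) i
    · simpa [snc] using ⟨h3, h2⟩
    · simpa [snc] using h1 j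
  have hcor : ∀ μ ν : Nm I, (lt μ.head b ∧ μ.wf lt) → (lt ν.head b ∧ ν.wf lt) →
      ((m μ ν ↔ G A rk μ ∈ G A rk ν) ∧ (q μ ν ↔ G A rk μ = G A rk ν)) := by
    intro μ ν h1 h2
    have h3 : max (rk μ.head) (rk ν.head) < rk b :=
      max_lt ((C.lt_iff _ _).1 h1.1) ((C.lt_iff _ _).1 h2.1)
    exact (ih _ h3).1 μ ν h1.2 h2.2 (le_max_left _ _) (le_max_right _ _)
  have hcora : ∀ ν : Nm I, (lt ν.head b ∧ ν.wf lt) → (a ν ↔ G A rk ν ∈ A) := by
    intro ν h2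
    exact (ih _ ((C.lt_iff _ _).1 h2.1)).2 ν h2.2 le_rfl
  induction φ with
  | falsum =>
    intro n hk ps μ h1 h2 h3
    subst hk
    exact ⟨fun h => C.tF b n ps μ h1 h2 h3 h, fun h => h.elim⟩
  | equal s t =>
    intro n hk ps μ h1 h2 h3
    subst hk
    change m μ (Nm.mk b n (.equal s t) ps) ↔ _
    rw [C.tE b n ps μ h1 h2 h3]
    rw [(hcor _ _ (hN h1 h2 h3 _) (hN h1 h2 h3 _)).2]
    rw [← comp_snc (G A rk)]
    exact Iff.rfl
  | rel R ts =>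
    intro n hk ps μ h1 h2 h3
    subst hk
    cases R with
    | mem =>
      change m μ (Nm.mk b n (.rel (l := 2) SRel.mem ts) ps) ↔ _
      rw [C.tM b n ps μ h1 h2 h3]
      rw [(hcor _ _ (hN h1 h2 h3 _) (hN h1 h2 h3 _)).1]
      rw [← comp_snc (G A rk)]
      exact Iff.rfl
    | prd =>
      change m μ (Nm.mk b n (.rel (l := 1) SRel.prd ts) ps) ↔ _
      rw [C.tP b n ps μ h1 h2 h3]
      rw [hcora _ (hN h1 h2 h3 _)]
      rw [← comp_snc (G A rk)]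
      exact Iff.rfl
  | imp φ ψ ih1 ih2 =>
    intro n hk ps μ h1 h2 h3
    subst hk
    change m μ (Nm.mk b n (.imp φ ψ) ps) ↔ (Sat _ _ φ _ → Sat _ _ ψ _)
    rw [C.tI b n ps μ h1 h2 h3]
    have e1 := ih1 n rfl ps μ h1 h2 h3
    have e2 := ih2 n rfl ps μ h1 h2 h3
    exact imp_congr e1 e2
  | all φ ih1 =>
    intro n hk ps μ h1 h2 h3
    subst hk
    change m μ (Nm.mk b n (.all φ) ps) ↔ ∀ z ∈ Lev A (rk b), Sat _ _ φ (snc _ z)
    rw [C.tA b n ps μ h1 h2 h3]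
    have key : ∀ μ1 : Nm I, μ1.wf lt → lt μ1.head b →
        (m μ1 (Nm.mk b (n + 1) (nF φ) (snc ps μ)) ↔ ¬ Sat A (Lev A (rk b)) φ
          (snc (snc (fun i => G A rk (ps i)) (G A rk μ)) (G A rk μ1))) := by
      intro μ1 h4 h5
      have e1 := ih1 (n + 1) rfl (snc ps μ) μ1 (hN h1 h2 h3) h4 h5
      have e2 := C.tI b (n + 1) (snc ps μ) μ1 (hN h1 h2 h3) h4 h5 φ .falsum
      have e3 := C.tF b (n + 1) (snc ps μ) μ1 (hN h1 h2 h3) h4 h5
      change m μ1 (Nm.mk b (n + 1) (.imp φ .falsum) (snc ps μ)) ↔ _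
      rw [e2]
      rw [comp_snc (G A rk)] at e1
      change m μ1 (Nm.mk b (n + 1) φ (snc ps μ)) ↔ _ at e1
      rw [e1]
      tauto
    constructor
    · intro hW z hz
      by_contra hS
      obtain ⟨μ1, h4, h5, rfl⟩ := exists_G C.lt_iff C.seg hz
      have h6 := (key μ1 h4 h5).2 hS
      have h7 : (Nm.mk b (n + 1) (nF φ) (snc ps μ)).wf lt := hN h1 h2 h3
      exact hW (C.t2 μ1 _ h4 h7 h5 h6).1
    · rintro hS ⟨h4, h5, h6⟩
      exact (key _ h4 h5).1 h6 (hS _ (G_mem_Lev C.lt_iff h4 h5))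

theorem cor (C : Coh A lt rk κ0 pn m q a w) (β : Ordinal.{u}) : Cor A lt rk m q a β := by
  induction β using WellFoundedLT.induction with
  | ind β ih =>
    by_cases hβ : β < κ0
    · refine ⟨fun μ ν h1 h2 h3 h4 => ⟨?_, ?_⟩, fun ν h1 h2 => ?_⟩
      · exact C.h0m μ ν h1 h2 (h3.trans_lt hβ) (h4.trans_lt hβ)
      · exact C.h0q μ ν h1 h2 (h3.trans_lt hβ) (h4.trans_lt hβ)
      · exact C.h0a ν h1 (h2.trans_lt hβ)
    push Not at hβ
    -- membership of a lower name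
    have M1 : ∀ μ ν : Nm I, μ.wf lt → ν.wf lt → rk μ.head < β → rk ν.head ≤ β →
        (m μ ν ↔ G A rk μ ∈ G A rk ν) := by
      intro μ ν h1 h2 h3 h4
      rcases h4.lt_or_eq with h5 | h5
      · exact ((ih _ (max_lt h3 h5)).1 μ ν h1 h2 (le_max_left _ _) (le_max_right _ _)).1
      · cases ν with
        | mk b n φ ps =>
          simp only [head_mk] at h5
          subst h5
          have h6 : lt μ.head b := (C.lt_iff _ _).2 h3
          have := C.sat_step ih φ n rfl ps μ h2 h1 h6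
          rw [mem_G_mk]
          constructor
          · intro h
            exact ⟨G_mem_Lev C.lt_iff h1 h6, this.1 h⟩
          · intro h
            exact this.2 h.2
    have Q1 : ∀ μ ν : Nm I, μ.wf lt → ν.wf lt → rk μ.head ≤ β → rk ν.head ≤ β →
        (q μ ν ↔ G A rk μ = G A rk ν) := by
      intro μ ν h1 h2 h3 h4
      constructor
      · intro hq
        ext z
        constructor
        · intro hz
          have hz' := F_subset _ hz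
          rw [head_map] at hz'
          obtain ⟨μ', h5, h6, rfl⟩ := exists_G C.lt_iff C.seg hz'
          have h7 : rk μ'.head < β := ((C.lt_iff _ _).1 h6).trans_le h3
          exact (M1 _ _ h5 h2 h7 h4).1 ((C.t4 μ ν μ' h1 h2 h5 hq).1 ((M1 _ _ h5 h1 h7 h3).2 hz))
        · intro hz
          have hz' := F_subset _ hz
          rw [head_map] at hz'
          obtain ⟨μ', h5, h6, rfl⟩ := exists_G C.lt_iff C.seg hz'
          have h7 : rk μ'.head < β := ((C.lt_iff _ _).1 h6).trans_le h4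
          exact (M1 _ _ h5 h1 h7 h3).1 ((C.t4 μ ν μ' h1 h2 h5 hq).2 ((M1 _ _ h5 h2 h7 h4).2 hz))
      · intro he
        by_contra hq
        obtain ⟨μ', h5, h6, h7⟩ := C.t4' μ ν h1 h2 hq
        have h8 : rk μ'.head < β := by
          rcases h6 with h6 | h6
          · exact ((C.lt_iff _ _).1 h6).trans_le h3
          · exact ((C.lt_iff _ _).1 h6).trans_le h4
        apply h7
        rw [M1 _ _ h5 h1 h8 h3, M1 _ _ h5 h2 h8 h4, he]
    have M2 : ∀ μ ν : Nm I, μ.wf lt → ν.wf lt → rk μ.head ≤ β → rk ν.head ≤ β →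
        (m μ ν ↔ G A rk μ ∈ G A rk ν) := by
      intro μ ν h1 h2 h3 h4
      constructor
      · intro hm
        obtain ⟨μ', h5, h6, h7, h8⟩ := C.t3 μ ν h1 h2 hm
        have h9 : rk μ'.head < β := ((C.lt_iff _ _).1 h6).trans_le h4
        rw [(Q1 μ μ' h1 h5 h3 h9.le).1 h7]
        exact (M1 _ _ h5 h2 h9 h4).1 h8
      · intro hm
        have hz' := F_subset _ hm
        rw [head_map] at hz'
        obtain ⟨μ', h5, h6, h7⟩ := exists_G C.lt_iff C.seg hz'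
        have h9 : rk μ'.head < β := ((C.lt_iff _ _).1 h6).trans_le h4
        refine C.t3' μ ν μ' h1 h2 h5 h6 ((Q1 μ μ' h1 h5 h3 h9.le).2 h7.symm) ?_
        rw [M1 _ _ h5 h2 h9 h4, h7]
        exact hm
    refine ⟨fun μ ν h1 h2 h3 h4 => ⟨M2 μ ν h1 h2 h3 h4, Q1 μ ν h1 h2 h3 h4⟩, fun ν h1 h2 => ?_⟩
    by_cases h3 : rk ν.head < κ0
    · exact C.h0a ν h1 h3
    · push Not at h3
      rw [C.ha ν h1 h3, C.hA]
      refine exists_congr fun i => ?_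
      rw [Q1 ν (pn i) h1 (C.pnwf i).1 h2 ((C.pnwf i).2.le.trans hβ)]
      exact eq_comm

theorem m_iff (C : Coh A lt rk κ0 pn m q a w) {μ ν : Nm I} (h1 : μ.wf lt) (h2 : ν.wf lt) :
    m μ ν ↔ G A rk μ ∈ G A rk ν :=
  ((C.cor (max (rk μ.head) (rk ν.head))).1 μ ν h1 h2 (le_max_left _ _) (le_max_right _ _)).1

theorem q_iff (C : Coh A lt rk κ0 pn m q a w) {μ ν : Nm I} (h1 : μ.wf lt) (h2 : ν.wf lt) :
    q μ ν ↔ G A rk μ = G A rk ν :=
  ((C.cor (max (rk μ.head) (rk ν.head))).1 μ ν h1 h2 (le_max_left _ _) (le_max_right _ _)).2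

end Coh

end Pool.Agent.helper82.LV
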